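import Pool.Agent.Work.MP_499dc6_lc.SN.Stmts
import Pool.Agent.Work.MP_104cea_lc.Bd.B08

/-!
THEOREM SN, part 2: statements that use the deep point of the cubic bound (files of
`Pool/Agent/Work/MP_104cea_lc`: `H97/Deep.lean`, `H97/Lead.lean`, `H13/DeepPt.lean`,
`H13/Lead.lean`, `Bd/B08.lean`).
-/

open MvPolynomial
open scoped PowerSeries

namespace Pool.Agent.Work.MP_499dc6_lc.SN

/-- LI (MEDIUM-HARD, hypothesis `StPH`).  The family is linearly independent over `k[[ε]]`.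
Proof.  Put `T0 = H13.TR k Ξ`, `R' = MvPolynomial (Fin S ⊕ Fin S) T0` (a `k`-algebra), and use
`StPH` for `T = R'⟦X⟧` (a `k⟦X⟧`-algebra; `PowerSeries.algebraMap_apply''`),
`th i = PowerSeries.C (C (H13.thT k i))`, `c = algebraMap k⟦X⟧ T (b * PowerSeries.X)`,
`W j = PowerSeries.C (X (inl j))`, `U j = PowerSeries.C (X (inr j))`.  The point is
`xh v = PowerSeries.C (C (H13.xT dp v))` (`H13.xT_eq`).  By `hs`, `pderiv u (f s) =
C b * pderiv u (H13.Pe P R)`, so (`c = algebraMap b * algebraMap X`) for every `u` there is `g u`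
with `Φ (Gp u) = algebraMap b * g u`, and the constant coefficient of `g u` is that of
`aeval xh (pderiv u (H13.Pe P R))`, i.e. `C (aeval (H13.xT dp) (pderiv u P))`
(`H13.const_aeval`, `pderiv_map`, `H13.map_Pe`; see `hder` in `H13.exists_family`, `Bd/B08.lean`).
Hence `Φ (fam ..) = algebraMap (b ^ |β| * (b * X) ^ (|γ| + |γ'|)) * G` with
`G = ∏ th^α * ∏ g (dir i)^β * (∏ W^γ * ∏ U^γ')`, and the constant coefficient of `G` is
`C (∏ thT^α * ∏ aeval (xT) (pderiv (dir i) P)^β) * (∏ X (inl j)^γ * ∏ X (inr j)^γ')`.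
These are linearly independent over `k`: the first factors by `H13.base_indep` (with `B = 0`,
`y = H13.xT dp`; the factor with `B - degree = 0` is `1`), then
`H97.linearIndependent_mul_monomial` (`H97/Lead.lean`; `C m * monomial`, the exponent is
`Finsupp.sumFinsuppEquivProdFinsupp.symm (γ, γ')`, an injective function of `(γ, γ')`).
By `H13.linearIndependent_of_constantCoeff` the `G` are independent over `k⟦X⟧`; so are their
multiples by nonzero elements of the domain `k⟦X⟧` (`linearIndependent_iff'`), so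
`Φ ∘ fam` is, and `LinearIndependent.of_comp Φ.toLinearMap`. -/
def StLI : Prop := ∀ (k V Ξ Τ I : Type) [Field k] [Fintype V] [DecidableEq V] [Fintype Ξ]
  [Fintype Τ] [IsEmpty Τ] [Fintype I] (P : MvPolynomial V k) (dp : H97.Deep k V Ξ Τ I P) (S : ℕ)
  (Q : Fin S → MvPolynomial (V ⊕ Fin S) k⟦X⟧) (_ : Acyc Q) (f : Fin S → MvPolynomial V k⟦X⟧)
  (_ : ∀ j, f j = ev X f (Q j)) (s : Fin S) (b : k⟦X⟧) (_ : b ≠ 0) (R : MvPolynomial V k⟦X⟧)
  (_ : f s = C b * H13.Pe P R) (J : Type) (α : J → Ξ →₀ ℕ) (β : J → I →₀ ℕ)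
  (_ : LinearIndependent k (fun j => monomial (α j) (1 : k) * ∏ i, dp.q i ^ (β j i))),
  LinearIndependent k⟦X⟧ (fun p : J × ((Fin S →₀ ℕ) × (Fin S →₀ ℕ)) =>
    fam (fun v => (PowerSeries.C (dp.X0 v) : k⟦X⟧)) (fun v i => PowerSeries.C (dp.X1 v i)) Q s
      dp.dir (α p.1) (β p.1) p.2.1 p.2.2)

/-- NB (EASY-MEDIUM).  Many independent products `ξ^α q^β`.
Proof: copy the part of the proof of `H13.count_cleared` (`Bd/B08.lean`) from
`H97.span_monomials` to `hcard` and `hli`; `J` = the basis `bs`. -/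
def StNB : Prop := ∀ (k V Ξ Τ I : Type) [Field k] [IsAlgClosed k] [Fintype V] [DecidableEq V]
  [Fintype Ξ] [Fintype Τ] [IsEmpty Τ] [Fintype I] (P : MvPolynomial V k)
  (dp : H97.Deep k V Ξ Τ I P) (_ : ∀ x : Ξ → k, (∀ i, eval x (dp.q i) = 0) → x = 0),
  ∃ D0 : ℕ, ∀ N : ℕ, ∃ (J : Type) (_ : Fintype J) (α : J → Ξ →₀ ℕ) (β : J → I →₀ ℕ),
    (∀ j, (α j).degree ≤ D0) ∧ (∀ j, (β j).degree ≤ N) ∧
    (dp.D * N + Fintype.card Ξ).choose (Fintype.card Ξ) ≤ Fintype.card J ∧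
    LinearIndependent k (fun j => monomial (α j) (1 : k) * ∏ i, dp.q i ^ (β j i))

/-- WB (EASY-MEDIUM, hypotheses `StLI`, `StNB`, `StW5`, `StG6`, `StG7`).  WEIGHTED BEZOUT bound for
an arbitrary circuit.
Proof: for every `N` the family of `StLI` (with `J, α, β` from `StNB`) has the weights of `StW5`
with `d = D0 + g * N`; `StG6` gives the hypothesis of `StG7` for
`Pi = ∏ j, (h / a) (h' / a')`. -/
def StWB : Prop := ∀ (k V Ξ Τ I : Type) [Field k] [IsAlgClosed k] [Fintype V] [DecidableEq V]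
  [Fintype Ξ] [Fintype Τ] [IsEmpty Τ] [Fintype I] (P : MvPolynomial V k)
  (dp : H97.Deep k V Ξ Τ I P) (_ : ∀ x : Ξ → k, (∀ i, eval x (dp.q i) = 0) → x = 0) (S : ℕ)
  (Q : Fin S → MvPolynomial (V ⊕ Fin S) k⟦X⟧) (_ : Acyc Q) (f : Fin S → MvPolynomial V k⟦X⟧)
  (_ : ∀ j, f j = ev X f (Q j)) (s : Fin S) (b : k⟦X⟧) (_ : b ≠ 0) (R : MvPolynomial V k⟦X⟧)
  (_ : f s = C b * H13.Pe P R) (a a' h h' : Fin S → ℕ) (g : ℕ) (_ : Wt Q a a' h h' g)
  (_ : 1 ≤ Fintype.card Ξ),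
  (dp.D : ℝ) ^ Fintype.card Ξ ≤ Real.exp 1 * (Fintype.card Ξ : ℝ) * (g : ℝ) ^ Fintype.card Ξ *
    ∏ j, ((h j : ℝ) / a j * ((h' j : ℝ) / a' j))

/-- WL (EASY-MEDIUM, hypotheses `StWB`, `StL0`, `StL3`, `StN6`, `StN7`).  The bound for a circuit
with levels.
Proof: `StWB` with the weights `wa, wa', wh, wh'` for `ss lev κ`, `κ = card Ξ`,
`u = (S / κ + 1) * ss lev κ (t - 1)`, `g = u + ss t + ss (t - 1)` (`StL3`, `StN7`; `1 ≤ u`), and
`StN6` (the levels of `Lev` are between `1` and `t`). -/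
def StWL : Prop := ∀ (k V Ξ Τ I : Type) [Field k] [IsAlgClosed k] [Fintype V] [DecidableEq V]
  [Fintype Ξ] [Fintype Τ] [IsEmpty Τ] [Fintype I] (P : MvPolynomial V k)
  (dp : H97.Deep k V Ξ Τ I P) (_ : ∀ x : Ξ → k, (∀ i, eval x (dp.q i) = 0) → x = 0) (S t : ℕ)
  (_ : 1 ≤ t) (lev : Fin S → ℕ) (Q : Fin S → MvPolynomial (V ⊕ Fin S) k⟦X⟧) (_ : Lev t lev Q)
  (f : Fin S → MvPolynomial V k⟦X⟧)
  (_ : ∀ j, f j = ev X f (Q j)) (s : Fin S) (b : k⟦X⟧) (_ : b ≠ 0) (R : MvPolynomial V k⟦X⟧)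
  (_ : f s = C b * H13.Pe P R) (_ : 1 ≤ Fintype.card Ξ),
  (dp.D : ℝ) ^ Fintype.card Ξ ≤ Real.exp 1 * (Fintype.card Ξ : ℝ) *
    (3 * Real.exp 2 * (1 + 5.5 * ((S : ℝ) / (Fintype.card Ξ : ℝ)) / t) ^ t) ^ Fintype.card Ξ

/-! ## Clearing denominators, base change -/

/-- C1 (EASY-MEDIUM).  Common denominator of a polynomial over the Laurent series.
Proof: for every coefficient `c` there is `n` with `X^n c` in the image of `k⟦X⟧`
(`LaurentSeries.powerSeriesPart`, `LaurentSeries.ofPowerSeries_powerSeriesPart`, or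
`IsLocalization.exist_integer_multiples`; `LaurentSeries` is the localization of `k⟦X⟧` at the
powers of `X`), larger `n` do as well; take the maximum over the support and define `q'` by
`q' = ∑_{μ ∈ support} monomial μ (c' μ)`. -/
def StC1 : Prop := ∀ (k σ : Type) [Field k] (q : MvPolynomial σ (LaurentSeries k)),
  ∃ (n : ℕ) (q' : MvPolynomial σ k⟦X⟧), q'.support ⊆ q.support ∧
    MvPolynomial.map (algebraMap k⟦X⟧ (LaurentSeries k)) q' =
      C (algebraMap k⟦X⟧ (LaurentSeries k) (PowerSeries.X ^ n)) * q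

/-- C2 (EASY-MEDIUM).  Rescaling of the gates in a gate polynomial.
Let `q'` have total degree at most `2`, `d : Fin S → ℕ`, and let `e ≥ ∑ i, d i * μ (inr i)` for all
exponents `μ` of `q'`.  Then there is `q''` with the same exponents and
`ev x (X ^ d i * v i) q'' = X ^ e * ev x v q'` for all points.
Proof: `q'' = ∑_{μ ∈ support q'} monomial μ (X ^ (e - ∑ d i μ (inr i)) * coeff μ q')`; expand both
sides in monomials (`aeval_def`, `eval₂_eq'`, `Fintype.prod_sum_type` needs `Fintype V`; or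
`Finsupp.prod`). -/
def StC2 : Prop := ∀ (k V : Type) [Field k] [Fintype V] (S : ℕ) (d : Fin S → ℕ) (e : ℕ)
  (q' : MvPolynomial (V ⊕ Fin S) k⟦X⟧)
  (_ : ∀ μ ∈ q'.support, ∑ i, d i * μ (Sum.inr i) ≤ e),
  ∃ q'' : MvPolynomial (V ⊕ Fin S) k⟦X⟧, q''.support ⊆ q'.support ∧
    ∀ (T : Type) [CommRing T] [Algebra k⟦X⟧ T] (x : V → T) (v : Fin S → T),
      ev x (fun i => algebraMap k⟦X⟧ T (PowerSeries.X ^ d i) * v i) q'' =
        algebraMap k⟦X⟧ T (PowerSeries.X ^ e) * ev x v q'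

/-- CL (MEDIUM, hypotheses `StC1`, `StC2`, `StEX`, `StL0`).  Clearing the denominators of a
circuit.
Proof: `n j`, `q' j` from `StC1` for `Q j`.  Define `d : Fin S → ℕ` by strong recursion,
`d j = n j + 2 * ∑_{i < j} d i` (only the existence of `d` with `d j = n j + 2 * ∑_{i<j} d i` is
needed).  For an exponent `μ` of `Q j`: `∑ d i μ (inr i) ≤ 2 ∑_{i<j} d i` (`μ (inr i) ≤ 2`, and
`= 0` unless `i < j`).  `StC2` with `e = d j - n j` for `q' j` gives `Q' j`.  `f'` from `StEX` with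
`r = 0`, `T = MvPolynomial V k⟦X⟧`, `x = X`.  Induction on `j`:
`map (f' j) = C (X ^ d j) * f j`: `map (ev X f' (Q' j)) = ev X (map ∘ f') (Q' j)` (over the
`k⟦X⟧`-algebra `MvPolynomial V (LaurentSeries k)`) `= ev X (X^d · f) (Q' j)`
`= X ^ (d j - n j) * ev X f (q' j) = X ^ (d j - n j) * X ^ n j * ev X f (Q j)`.  Since `map` is
injective, `f' s = C (X ^ d s) * G`; `b = X ^ d s`.  The conditions `Lev` only concern the exponents
(supports) and the total degrees (`totalDegree` is monotone in the support). -/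
def StCL : Prop := ∀ (k V : Type) [Field k] [Fintype V] (S t : ℕ) (lev : Fin S → ℕ)
  (Q : Fin S → MvPolynomial (V ⊕ Fin S) (LaurentSeries k)) (_ : Lev t lev Q)
  (f : Fin S → MvPolynomial V (LaurentSeries k)) (_ : ∀ j, f j = ev X f (Q j)) (s : Fin S)
  (G : MvPolynomial V k⟦X⟧)
  (_ : f s = MvPolynomial.map (algebraMap k⟦X⟧ (LaurentSeries k)) G),
  ∃ (Q' : Fin S → MvPolynomial (V ⊕ Fin S) k⟦X⟧) (f' : Fin S → MvPolynomial V k⟦X⟧) (b : k⟦X⟧),
    b ≠ 0 ∧ Lev t lev Q' ∧ (∀ j, f' j = ev X f' (Q' j)) ∧ f' s = C b * G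

/-- BC (EASY-MEDIUM).  Base change of a cleared circuit along a field homomorphism.
Proof: `Q' j = map (PowerSeries.map φ) (Q j)` and so on; `support_map_subset`,
`totalDegree` of the image is at most that of `Q j`; `map` commutes with `ev`
(`map_aeval`/`eval₂`, by `MvPolynomial.induction_on`); `H13.Pe` of the image as in
`H13.cleared_map` (`Bd/B08.lean`). -/
def StBC : Prop := ∀ (k K V : Type) [Field k] [Field K] (φ : k →+* K) (S t : ℕ)
  (lev : Fin S → ℕ) (P : MvPolynomial V k) (Q : Fin S → MvPolynomial (V ⊕ Fin S) k⟦X⟧)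
  (_ : Lev t lev Q)
  (f : Fin S → MvPolynomial V k⟦X⟧) (_ : ∀ j, f j = ev X f (Q j)) (s : Fin S) (b : k⟦X⟧)
  (_ : b ≠ 0) (R : MvPolynomial V k⟦X⟧) (_ : f s = C b * H13.Pe P R),
  ∃ (Q' : Fin S → MvPolynomial (V ⊕ Fin S) K⟦X⟧) (f' : Fin S → MvPolynomial V K⟦X⟧) (b' : K⟦X⟧)
    (R' : MvPolynomial V K⟦X⟧), b' ≠ 0 ∧ Lev t lev Q' ∧ (∀ j, f' j = ev X f' (Q' j)) ∧
    f' s = C b' * H13.Pe (MvPolynomial.map φ P) R'

end Pool.Agent.Work.MP_499dc6_lc.SN
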