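import Mathlib
import Pool.Agent.Work.MP_499dc6_lc.SN.Stmts2

/-!
THEOREM SN, LI: the family of products is linearly independent over `k[[ε]]`.
-/

open MvPolynomial
open scoped PowerSeries

namespace Pool.Agent.Work.MP_499dc6_lc.SN

/-- multiplying an independent family over a domain by nonzero scalars -/
theorem LI_smul {O M ι : Type} [CommRing O] [IsDomain O] [AddCommGroup M] [Module O M]
    (c : ι → O) (hc : ∀ i, c i ≠ 0) (v : ι → M) (hv : LinearIndependent O v) :
    LinearIndependent O (fun i => c i • v i) := by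
  rw [linearIndependent_iff'] at hv ⊢
  intro s g hg i hi
  have h1 : ∑ i ∈ s, (g i * c i) • v i = 0 := by
    rw [← hg]
    exact Finset.sum_congr rfl fun i _ => by rw [mul_smul]
  have h2 := hv s _ h1 i hi
  exact (mul_eq_zero.1 h2).resolve_right (hc i)

theorem LI_congr {O M ι : Type} [Semiring O] [AddCommMonoid M] [Module O M] {v w : ι → M}
    (h : LinearIndependent O v) (e : ∀ i, w i = v i) : LinearIndependent O w := by
  have e' : w = v := funext e
  rw [e']
  exact h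

/-- products of independent elements of the coefficient ring with distinct monomials in two sets
of variables -/
theorem LI_base {k A J : Type} [Field k] [CommRing A] [Algebra k A] (S : ℕ) (m : J → A)
    (hm : LinearIndependent k m) :
    LinearIndependent k (fun p : J × ((Fin S →₀ ℕ) × (Fin S →₀ ℕ)) =>
      (C (m p.1) : MvPolynomial (Fin S ⊕ Fin S) A) *
        ((∏ j, X (Sum.inl j) ^ p.2.1 j) * ∏ j, X (Sum.inr j) ^ p.2.2 j)) := by
  have h1 := (H97.linearIndependent_mul_monomial (Λ := Fin S ⊕ Fin S) m hm).comp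
    (fun p : J × ((Fin S →₀ ℕ) × (Fin S →₀ ℕ)) =>
      (p.1, Finsupp.sumFinsuppEquivProdFinsupp.symm p.2)) (by
        intro p q hpq
        rw [Prod.mk.injEq] at hpq
        exact Prod.ext hpq.1 (Finsupp.sumFinsuppEquivProdFinsupp.symm.injective hpq.2))
  refine LI_congr h1 fun p => ?_
  simp only [Function.comp_apply]
  rw [monomial_eq, Finsupp.prod_fintype _ _ (fun i => pow_zero _), Fintype.prod_sum_type]
  simp

/-- the general form -/
theorem LI_main (hPH : StPH) {k V Ξ I R' : Type} [Field k] [Fintype Ξ] [Fintype I] [CommRing R']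
    [IsDomain R'] [Fintype V] [DecidableEq V]
    [Algebra k R'] (P : MvPolynomial V k) (X0 : V → k) (X1 : V → Ξ → k) (dir : I → V) (S : ℕ)
    (Q : Fin S → MvPolynomial (V ⊕ Fin S) k⟦X⟧) (hQ : Acyc Q) (f : Fin S → MvPolynomial V k⟦X⟧)
    (hf : ∀ j, f j = ev X f (Q j)) (s : Fin S) (b : k⟦X⟧) (hb : b ≠ 0) (R : MvPolynomial V k⟦X⟧)
    (hs : f s = C b * H13.Pe P R) (th : Ξ → R') (W U : Fin S → R') (x : V → R')
    (hx : ∀ v, x v = algebraMap k R' (X0 v) + ∑ i, algebraMap k R' (X1 v i) * th i)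
    (J : Type) (α : J → Ξ →₀ ℕ) (β : J → I →₀ ℕ)
    (hli : LinearIndependent k (fun p : J × ((Fin S →₀ ℕ) × (Fin S →₀ ℕ)) =>
      (∏ i, th i ^ α p.1 i) * (∏ i, aeval x (pderiv (dir i) P) ^ β p.1 i) *
        ((∏ j, W j ^ p.2.1 j) * ∏ j, U j ^ p.2.2 j))) :
    LinearIndependent k⟦X⟧ (fun p : J × ((Fin S →₀ ℕ) × (Fin S →₀ ℕ)) =>
      fam (fun v => (PowerSeries.C (X0 v) : k⟦X⟧)) (fun v i => PowerSeries.C (X1 v i)) Q s
        dir (α p.1) (β p.1) p.2.1 p.2.2) := by
  obtain ⟨Φ, hΦ1, hΦ2, hΦ3, hΦ4⟩ := hPH k⟦X⟧ V Ξ R'⟦X⟧ S Q hQ f hf s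
    (fun v => PowerSeries.C (X0 v)) (fun v i => PowerSeries.C (X1 v i))
    (fun i => PowerSeries.C (th i)) (algebraMap k⟦X⟧ R'⟦X⟧ (b * PowerSeries.X))
    (fun j => PowerSeries.C (W j)) (fun j => PowerSeries.C (U j))
  have hC : ∀ a : k, algebraMap k⟦X⟧ R'⟦X⟧ (PowerSeries.C a) =
      PowerSeries.C (algebraMap k R' a) := by
    intro a
    rw [PowerSeries.algebraMap_apply'']
    simp
  have hpt : (fun v => algebraMap k⟦X⟧ R'⟦X⟧ (PowerSeries.C (X0 v)) +
      ∑ i, algebraMap k⟦X⟧ R'⟦X⟧ (PowerSeries.C (X1 v i)) * PowerSeries.C (th i)) =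
      fun v => PowerSeries.C (x v) := by
    funext v
    rw [hx, map_add, map_sum, hC]
    congr 1
    exact Finset.sum_congr rfl fun i _ => by rw [hC, map_mul]
  have hg : ∀ u, ∃ g : R'⟦X⟧, Φ (Gp (fun v => PowerSeries.C (X0 v))
      (fun v i => PowerSeries.C (X1 v i)) Q u) = algebraMap k⟦X⟧ R'⟦X⟧ b * g ∧
      PowerSeries.constantCoeff g = aeval x (pderiv u P) := by
    intro u
    obtain ⟨r, hr⟩ := hΦ4 u
    rw [hpt, hs, pderiv_C_mul, map_mul, aeval_C, sub_eq_iff_eq_add] at hr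
    refine ⟨aeval (fun v => PowerSeries.C (x v)) (pderiv u (H13.Pe P R)) +
      algebraMap k⟦X⟧ R'⟦X⟧ PowerSeries.X * r, ?_, ?_⟩
    · rw [hr, map_mul]
      ring
    · rw [map_add, map_mul, H13.const_aeval, ← pderiv_map, H13.map_Pe]
      have h1 : PowerSeries.constantCoeff (algebraMap k⟦X⟧ R'⟦X⟧ PowerSeries.X) = 0 := by
        rw [PowerSeries.algebraMap_apply'']
        simp
      rw [h1, zero_mul, add_zero]
      simp only [PowerSeries.constantCoeff_C]
  choose g hg1 hg2 using hg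
  have hG : LinearIndependent k⟦X⟧ (fun p : J × ((Fin S →₀ ℕ) × (Fin S →₀ ℕ)) =>
      (∏ i, (PowerSeries.C (th i) : R'⟦X⟧) ^ α p.1 i) * (∏ i, g (dir i) ^ β p.1 i) *
        ((∏ j, PowerSeries.C (W j) ^ p.2.1 j) * ∏ j, PowerSeries.C (U j) ^ p.2.2 j)) := by
    apply H13.linearIndependent_of_constantCoeff (k := k)
    refine LI_congr hli fun p => ?_
    simp only [map_mul, map_prod, map_pow, PowerSeries.constantCoeff_C, hg2]
  have hne : ∀ p : J × ((Fin S →₀ ℕ) × (Fin S →₀ ℕ)),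
      b ^ (∑ i, β p.1 i) * ((b * PowerSeries.X) ^ (∑ j, p.2.1 j) *
        (b * PowerSeries.X) ^ (∑ j, p.2.2 j)) ≠ 0 := by
    intro p
    have h1 : b * PowerSeries.X ≠ 0 := mul_ne_zero hb PowerSeries.X_ne_zero
    exact mul_ne_zero (pow_ne_zero _ hb) (mul_ne_zero (pow_ne_zero _ h1) (pow_ne_zero _ h1))
  have hfin := LI_smul _ hne _ hG
  refine LinearIndependent.of_comp Φ.toLinearMap ?_
  refine LI_congr hfin fun p => ?_
  simp only [Function.comp_apply, AlgHom.toLinearMap_apply, fam, map_mul, map_prod, map_pow, hΦ1,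
    hΦ2, hΦ3, hg1, mul_pow, Finset.prod_mul_distrib, Finset.prod_pow_eq_pow_sum, Algebra.smul_def]
  ring

theorem sn_LI (hPH : StPH) : StLI := by
  intro k V Ξ Τ I _ _ _ _ _ _ _ P dp S Q hQ f hf s b hb R hs J α β hli
  refine LI_main hPH (R' := MvPolynomial (Fin S ⊕ Fin S) (H13.TR k Ξ)) P dp.X0 dp.X1 dp.dir S Q hQ
    f hf s b hb R hs (fun i => C (H13.thT k i)) (fun j => X (Sum.inl j)) (fun j => X (Sum.inr j))
    (fun v => C (H13.xT dp v)) ?_ J α β ?_
  · intro v
    rw [H13.xT_eq, map_add, map_sum]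
    simp only [map_mul, MvPolynomial.algebraMap_apply]
  · have h1 := H13.base_indep dp α β 0 hli (H13.xT dp) (fun v => by rw [sub_self]; exact dvd_zero _)
    have h2 := LI_base S _ h1
    refine LI_congr h2 fun p => ?_
    have h3 : ∀ q : MvPolynomial V k, aeval (fun v => (C (H13.xT dp v) :
        MvPolynomial (Fin S ⊕ Fin S) (H13.TR k Ξ))) q = C (aeval (H13.xT dp) q) := by
      intro q
      exact MvPolynomial.aeval_algebraMap_apply (MvPolynomial (Fin S ⊕ Fin S) (H13.TR k Ξ))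
        (H13.xT dp) q
    simp only [h3, map_mul, map_prod, map_pow, Nat.zero_sub, pow_zero, mul_one]

end Pool.Agent.Work.MP_499dc6_lc.SN
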