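import Pool.Agent.Work.MP_499dc6_lc.SN.Stmts2

/-!
THEOREM SN, item BC: base change of a cleared circuit along a field homomorphism.
-/

set_option autoImplicit false

open MvPolynomial
open scoped PowerSeries

namespace Pool.Agent.Work.MP_499dc6_lc.SN

theorem BC_ev {O O' V : Type} [CommRing O] [CommRing O'] {S : ℕ} (ψ : O →+* O')
    (f : Fin S → MvPolynomial V O) (p : MvPolynomial (V ⊕ Fin S) O) :
    MvPolynomial.map ψ (ev X f p) =
      ev X (fun j => MvPolynomial.map ψ (f j)) (MvPolynomial.map ψ p) := by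
  induction p using MvPolynomial.induction_on with
  | C a =>
    unfold ev
    rw [aeval_C, map_C, aeval_C, algebraMap_eq, algebraMap_eq, map_C]
  | add p q hp hq => rw [map_add, map_add, hp, hq, map_add, map_add]
  | mul_X p i hp =>
    rw [map_mul, map_mul, hp, map_mul, map_mul, map_X]
    congr 1
    unfold ev
    rw [aeval_X, aeval_X]
    cases i with
    | inl v => simp
    | inr j => simp

theorem BC_lev {O O' V : Type} [CommRing O] [CommRing O'] {S : ℕ} (ψ : O →+* O') (t : ℕ)
    (lev : Fin S → ℕ) (Q : Fin S → MvPolynomial (V ⊕ Fin S) O) (h : Lev t lev Q) :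
    Lev t lev (fun j => MvPolynomial.map ψ (Q j)) := by
  intro j
  obtain ⟨h1, h2, h3, h4⟩ := h j
  have hs : (MvPolynomial.map ψ (Q j)).support ⊆ (Q j).support := support_map_subset ψ (Q j)
  refine ⟨h1, h2, ?_, fun μ hμ => h4 μ (hs hμ)⟩
  refine le_trans ?_ h3
  unfold totalDegree
  exact Finset.sup_mono hs

theorem BC_Pe {k K V : Type} [Field k] [Field K] (φ : k →+* K) (P : MvPolynomial V k)
    (R : MvPolynomial V k⟦X⟧) :
    MvPolynomial.map (PowerSeries.map φ) (H13.Pe P R) =
      H13.Pe (MvPolynomial.map φ P) (MvPolynomial.map (PowerSeries.map φ) R) := by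
  rw [H13.Pe, H13.Pe, map_add, map_mul, MvPolynomial.map_C, MvPolynomial.map_map,
    MvPolynomial.map_map]
  have h3 : (PowerSeries.map φ).comp (PowerSeries.C : k →+* k⟦X⟧) =
      (PowerSeries.C : K →+* K⟦X⟧).comp φ := by
    ext a
    simp
  rw [h3, PowerSeries.map_X]

theorem sn_BC : StBC := by
  intro k K V _ _ φ S t lev P Q hQ f hf s b hb R hR
  refine ⟨fun j => MvPolynomial.map (PowerSeries.map φ) (Q j),
    fun j => MvPolynomial.map (PowerSeries.map φ) (f j), PowerSeries.map φ b,
    MvPolynomial.map (PowerSeries.map φ) R, ?_, BC_lev _ t lev Q hQ, ?_, ?_⟩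
  · intro h0
    exact hb (PowerSeries.map_injective φ φ.injective (h0.trans (map_zero _).symm))
  · intro j
    show MvPolynomial.map (PowerSeries.map φ) (f j) = _
    rw [← BC_ev, ← hf j]
  · show MvPolynomial.map (PowerSeries.map φ) (f s) = _
    rw [hR, map_mul, MvPolynomial.map_C, BC_Pe]

end Pool.Agent.Work.MP_499dc6_lc.SN
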