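import Pool.Agent.Work.MP_499dc6_lc.SN.Stmts2

/-!
# THEOREM SN, item C1: common denominator of a polynomial over the Laurent series (helper82)
-/

set_option autoImplicit false

open MvPolynomial
open scoped PowerSeries

namespace Pool.Agent.Work.MP_499dc6_lc.SN

/-- C1 -/
theorem sn_C1 : StC1 := by
  classical
  intro k σ _ q
  obtain ⟨b, hb⟩ := IsLocalization.exist_integer_multiples_of_finset
    (Submonoid.powers (PowerSeries.X : k⟦X⟧)) (q.support.image fun μ => q.coeff μ)
  obtain ⟨n, hn⟩ := b.2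
  have h1 : ∀ μ : σ →₀ ℕ, ∃ c : k⟦X⟧, μ ∈ q.support →
      algebraMap k⟦X⟧ (LaurentSeries k) c =
        algebraMap k⟦X⟧ (LaurentSeries k) (PowerSeries.X ^ n) * q.coeff μ := by
    intro μ
    by_cases hμ : μ ∈ q.support
    · obtain ⟨c, hc⟩ := hb _ (Finset.mem_image_of_mem _ hμ)
      refine ⟨c, fun _ => ?_⟩
      rw [hc, Algebra.smul_def, ← hn]
    · exact ⟨0, fun h => absurd h hμ⟩
  choose c hc using h1
  refine ⟨n, ∑ μ ∈ q.support, monomial μ (c μ), ?_, ?_⟩
  · refine (support_sum).trans ?_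
    refine Finset.biUnion_subset.2 fun μ hμ => ?_
    exact support_monomial_subset.trans (Finset.singleton_subset_iff.2 hμ)
  · rw [map_sum]
    conv_rhs => rw [q.as_sum, Finset.mul_sum]
    refine Finset.sum_congr rfl fun μ hμ => ?_
    rw [map_monomial, C_mul_monomial, hc μ hμ]

end Pool.Agent.Work.MP_499dc6_lc.SN
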