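import Pool.Agent.Work.MP_499dc6_lc.SN.Stmts2

open MvPolynomial
open scoped PowerSeries

namespace Pool.Agent.Work.MP_499dc6_lc.SN

theorem sn_C2 : StC2 := by
  intro k V _ _ S d e q' hq'
  classical
  refine ⟨∑ μ ∈ q'.support, monomial μ
    (PowerSeries.X ^ (e - ∑ i, d i * μ (Sum.inr i)) * coeff μ q'), ?_, ?_⟩
  · intro ν hν
    by_contra h
    rw [mem_support_iff, coeff_sum] at hν
    apply hν
    apply Finset.sum_eq_zero
    intro μ hμ
    rw [coeff_monomial, if_neg]
    rintro rfl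
    exact h hμ
  · intro T _ _ x v
    have hprod : ∀ μ : V ⊕ Fin S →₀ ℕ,
        (μ.prod fun i n => (Sum.elim x
          (fun i => algebraMap k⟦X⟧ T (PowerSeries.X ^ d i) * v i) : V ⊕ Fin S → T) i ^ n) =
        algebraMap k⟦X⟧ T (PowerSeries.X ^ (∑ i, d i * μ (Sum.inr i))) *
          (μ.prod fun i n => (Sum.elim x v : V ⊕ Fin S → T) i ^ n) := by
      intro μ
      rw [Finsupp.prod_fintype _ _ (fun _ => pow_zero _),
        Finsupp.prod_fintype _ _ (fun _ => pow_zero _), Fintype.prod_sum_type,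
        Fintype.prod_sum_type]
      simp only [Sum.elim_inl, Sum.elim_inr, mul_pow, Finset.prod_mul_distrib]
      have h1 : ∏ i, (algebraMap k⟦X⟧ T (PowerSeries.X ^ d i)) ^ μ (Sum.inr i) =
          algebraMap k⟦X⟧ T (PowerSeries.X ^ (∑ i, d i * μ (Sum.inr i))) := by
        rw [← Finset.prod_pow_eq_pow_sum, map_prod]
        refine Finset.prod_congr rfl fun i _ => ?_
        rw [← map_pow, ← pow_mul]
      rw [h1]
      ring
    unfold ev
    rw [map_sum]
    conv_rhs => rw [← support_sum_monomial_coeff q']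
    rw [map_sum, Finset.mul_sum]
    refine Finset.sum_congr rfl fun μ hμ => ?_
    rw [aeval_monomial, aeval_monomial, hprod μ, map_mul]
    have h2 : algebraMap k⟦X⟧ T (PowerSeries.X ^ e) =
        algebraMap k⟦X⟧ T (PowerSeries.X ^ (e - ∑ i, d i * μ (Sum.inr i))) *
        algebraMap k⟦X⟧ T (PowerSeries.X ^ (∑ i, d i * μ (Sum.inr i))) := by
      rw [← map_mul, ← pow_add, Nat.sub_add_cancel (hq' μ hμ)]
    rw [h2]
    ring

end Pool.Agent.Work.MP_499dc6_lc.SN
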