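import Pool.Agent.Work.MP_499dc6_lc.SN.Stmts

/-!
THEOREM SN, item CG: the value of a gate polynomial depends only on the earlier gates.
-/

open MvPolynomial

namespace Pool.Agent.Work.MP_499dc6_lc.SN

theorem sn_CG : StCG := by
  intro O V T _ _ _ S q j hq x v v' hv
  change eval₂Hom (algebraMap O T) (Sum.elim x v) q = eval₂Hom (algebraMap O T) (Sum.elim x v') q
  refine eval₂Hom_congr' rfl ?_ rfl
  rintro (u | i) hi _
  · rfl
  · obtain ⟨μ, hμ, hi'⟩ := (mem_vars_iff_mem_support _).1 hi
    exact hv i (hq μ hμ i (Finsupp.mem_support_iff.1 hi'))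

end Pool.Agent.Work.MP_499dc6_lc.SN
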