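import Mathlib
import Pool.Agent.Work.MP_499dc6_lc.SN.Stmts2

/-!
# THEOREM SN, item CL: clearing the denominators of a circuit

Author: helper57.
-/

set_option autoImplicit false

open MvPolynomial
open scoped PowerSeries

namespace Pool.Agent.Work.MP_499dc6_lc.SN

/-- the value of a gate polynomial depends only on the earlier gates -/
theorem CL_congr {O V T : Type} [CommRing O] [CommRing T] [Algebra O T] {S : ℕ}
    (q : MvPolynomial (V ⊕ Fin S) O) (j : Fin S)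
    (h : ∀ μ ∈ q.support, ∀ i : Fin S, μ (Sum.inr i) ≠ 0 → i < j)
    (x : V → T) (v v' : Fin S → T) (hv : ∀ i < j, v i = v' i) : ev x v q = ev x v' q := by
  unfold ev
  rw [aeval_def, aeval_def, ← coe_eval₂Hom, ← coe_eval₂Hom]
  refine eval₂Hom_congr' rfl ?_ rfl
  intro i hi _
  cases i with
  | inl i => rfl
  | inr i =>
    obtain ⟨μ, hμ, hi'⟩ := (mem_vars_iff_mem_support _).1 hi
    exact hv i (h μ hμ i (Finsupp.mem_support_iff.1 hi'))

/-- the weighted sum of the exponents of the gates -/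
theorem CL_sum {V : Type} [Fintype V] {S : ℕ} (n : Fin S → ℕ) (j : Fin S) (μ : V ⊕ Fin S →₀ ℕ)
    (h1 : ∀ i, μ (Sum.inr i) ≠ 0 → i < j) (h2 : (μ.sum fun _ e => e) ≤ 2) :
    ∑ i : Fin S, (3 * (∑ l, n l) * 3 ^ (i : ℕ)) * μ (Sum.inr i) ≤
      3 * (∑ l, n l) * 3 ^ (j : ℕ) - n j := by
  obtain ⟨N, hN⟩ : ∃ N : ℕ, N = ∑ l, n l := ⟨_, rfl⟩
  rw [← hN]
  have hnj : n j ≤ N := by
    rw [hN]
    exact Finset.single_le_sum (f := n) (fun _ _ => Nat.zero_le _) (Finset.mem_univ j)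
  have h3 : ∑ i : Fin S, μ (Sum.inr i) ≤ 2 := by
    rw [Finsupp.sum_fintype _ _ (fun _ => rfl), Fintype.sum_sum_type] at h2
    omega
  have h4 : ∀ i : Fin S, 3 * ((3 * N * 3 ^ (i : ℕ)) * μ (Sum.inr i)) ≤
      (3 * N * 3 ^ (j : ℕ)) * μ (Sum.inr i) := by
    intro i
    by_cases hi : μ (Sum.inr i) = 0
    · rw [hi]
      simp
    · have h5 : i < j := h1 i hi
      have h6 : (i : ℕ) + 1 ≤ j := h5
      have h7 : 3 ^ ((i : ℕ) + 1) ≤ 3 ^ (j : ℕ) := Nat.pow_le_pow_right (by norm_num) h6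
      calc 3 * ((3 * N * 3 ^ (i : ℕ)) * μ (Sum.inr i))
          = (3 * N * 3 ^ ((i : ℕ) + 1)) * μ (Sum.inr i) := by ring
        _ ≤ (3 * N * 3 ^ (j : ℕ)) * μ (Sum.inr i) := by gcongr
  have h8 : 3 * ∑ i : Fin S, (3 * N * 3 ^ (i : ℕ)) * μ (Sum.inr i) ≤
      2 * (3 * N * 3 ^ (j : ℕ)) := by
    rw [Finset.mul_sum]
    calc ∑ i : Fin S, 3 * ((3 * N * 3 ^ (i : ℕ)) * μ (Sum.inr i))
        ≤ ∑ i : Fin S, (3 * N * 3 ^ (j : ℕ)) * μ (Sum.inr i) :=
          Finset.sum_le_sum fun i _ => h4 i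
      _ = (3 * N * 3 ^ (j : ℕ)) * ∑ i : Fin S, μ (Sum.inr i) := by rw [Finset.mul_sum]
      _ ≤ (3 * N * 3 ^ (j : ℕ)) * 2 := Nat.mul_le_mul_left _ h3
      _ = 2 * (3 * N * 3 ^ (j : ℕ)) := by ring
  have h9 : 3 * N ≤ 3 * N * 3 ^ (j : ℕ) := Nat.le_mul_of_pos_right _ (by positivity)
  omega

theorem CL_nle {S : ℕ} (n : Fin S → ℕ) (j : Fin S) : n j ≤ 3 * (∑ l, n l) * 3 ^ (j : ℕ) := by
  have hnj : n j ≤ ∑ l, n l :=
    Finset.single_le_sum (f := n) (fun _ _ => Nat.zero_le _) (Finset.mem_univ j)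
  have h9 : 3 * (∑ l, n l) ≤ 3 * (∑ l, n l) * 3 ^ (j : ℕ) :=
    Nat.le_mul_of_pos_right _ (by positivity)
  omega

theorem CL_inj (k V : Type) [Field k] :
    Function.Injective (MvPolynomial.map (σ := V) (algebraMap k⟦X⟧ (LaurentSeries k))) :=
  MvPolynomial.map_injective _ (FaithfulSMul.algebraMap_injective _ _)

theorem sn_CL (hC1 : StC1) (hC2 : StC2) (hEX : StEX) (hL0 : StL0) : StCL := by
  intro k V _ _ S t lev Q hQ f hf s G hG
  -- common denominators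
  choose n q' hq1 hq2 using fun j => hC1 k (V ⊕ Fin S) (Q j)
  obtain ⟨d, hd⟩ : ∃ d : Fin S → ℕ, ∀ j, d j = 3 * (∑ l, n l) * 3 ^ (j : ℕ) := ⟨_, fun _ => rfl⟩
  have hsum : ∀ j, ∀ μ ∈ (q' j).support, ∑ i, d i * μ (Sum.inr i) ≤ d j - n j := by
    intro j μ hμ
    simp_rw [hd]
    have h1 := hQ j
    have hμ' : μ ∈ (Q j).support := hq1 j hμ
    exact CL_sum n j μ (fun i hi => ((h1.2.2.2 μ hμ').1 i hi).1)
      ((le_totalDegree hμ').trans h1.2.2.1)
  choose Q' hQ1 hQ2 using fun j => hC2 k V S d (d j - n j) (q' j) (hsum j)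
  have hsub : ∀ j, (Q' j).support ⊆ (Q j).support := fun j => (hQ1 j).trans (hq1 j)
  have hLev : Lev t lev Q' := by
    intro j
    obtain ⟨h1, h2, h3, h4⟩ := hQ j
    refine ⟨h1, h2, ?_, fun μ hμ => h4 μ (hsub j hμ)⟩
    refine le_trans ?_ h3
    unfold totalDegree
    exact Finset.sup_mono (hsub j)
  have hAc : Acyc Q' := hL0 _ _ S t lev Q' hLev
  obtain ⟨f', hf'⟩ := hEX k⟦X⟧ V (MvPolynomial V k⟦X⟧) S Q' hAc X (fun _ => 0)
  have hf2 : ∀ j, f' j = ev X f' (Q' j) := by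
    intro j
    have := hf' j
    rwa [add_zero] at this
  -- the comparison
  obtain ⟨φ, hφ⟩ : ∃ φ : MvPolynomial V k⟦X⟧ →ₐ[k⟦X⟧] MvPolynomial V (LaurentSeries k),
      ∀ p, φ p = MvPolynomial.map (algebraMap k⟦X⟧ (LaurentSeries k)) p :=
    ⟨mapAlgHom (Algebra.ofId k⟦X⟧ (LaurentSeries k)), fun _ => rfl⟩
  have hφX : ∀ v : V, φ (X v) = X v := by
    intro v
    rw [hφ, map_X]
  have hv : ∀ j, φ (f' j) = ev (O := k⟦X⟧) X (fun i => φ (f' i)) (Q' j) := by
    intro j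
    conv_lhs => rw [hf2 j]
    unfold ev
    rw [comp_aeval_apply]
    congr 2
    funext i
    cases i with
    | inl i => exact hφX i
    | inr i => rfl
  have hv' : ∀ j, algebraMap k⟦X⟧ (MvPolynomial V (LaurentSeries k)) (PowerSeries.X ^ d j) * f j =
      ev (O := k⟦X⟧) X (fun i => algebraMap k⟦X⟧ (MvPolynomial V (LaurentSeries k))
        (PowerSeries.X ^ d i) * f i) (Q' j) := by
    intro j
    rw [hQ2 j]
    have h1 : ev (O := k⟦X⟧) (X : V → MvPolynomial V (LaurentSeries k)) f (q' j) =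
        algebraMap k⟦X⟧ (MvPolynomial V (LaurentSeries k)) (PowerSeries.X ^ n j) * f j := by
      have h2 : ev (O := k⟦X⟧) (X : V → MvPolynomial V (LaurentSeries k)) f (q' j) =
          ev (O := LaurentSeries k) X f
            (MvPolynomial.map (algebraMap k⟦X⟧ (LaurentSeries k)) (q' j)) := by
        unfold ev
        rw [aeval_map_algebraMap]
      rw [h2, hq2 j, map_mul, ← hf j]
      congr 1
      unfold ev
      rw [aeval_C]
      rfl
    rw [h1, ← mul_assoc, ← map_mul, ← pow_add]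
    congr 3
    have := CL_nle n j
    rw [← hd] at this
    omega
  have key : ∀ m : ℕ, ∀ j : Fin S, (j : ℕ) < m → φ (f' j) =
      algebraMap k⟦X⟧ (MvPolynomial V (LaurentSeries k)) (PowerSeries.X ^ d j) * f j := by
    intro m
    induction m with
    | zero => intro j hj; omega
    | succ m ih =>
      intro j hj
      rw [hv j, hv' j]
      refine CL_congr (Q' j) j (hAc j) X _ _ ?_
      intro i hi
      have hi' : (i : ℕ) < j := hi
      exact ih i (by omega)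
  refine ⟨Q', f', PowerSeries.X ^ d s, pow_ne_zero _ PowerSeries.X_ne_zero, hLev, hf2, ?_⟩
  apply CL_inj k V
  have h1 := key S s s.2
  rw [hφ, hG] at h1
  rw [h1, map_mul, map_C]
  rfl

end Pool.Agent.Work.MP_499dc6_lc.SN
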