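import Pool.Agent.Work.MP_499dc6_lc.SN.Stmts

/-!
THEOREM SN, item EX: values of the gates with prescribed perturbations.
-/

open MvPolynomial

namespace Pool.Agent.Work.MP_499dc6_lc.SN

theorem EX_aux (hCG : StCG) (O V T : Type) [CommRing O] [CommRing T] [Algebra O T] (S : ℕ)
    (Q : Fin S → MvPolynomial (V ⊕ Fin S) O) (hQ : Acyc Q) (x : V → T) (r : Fin S → T) :
    ∀ n : ℕ, n ≤ S → ∃ v : Fin S → T, ∀ j : Fin S, (j : ℕ) < n → v j = ev x v (Q j) + r j := by
  intro n
  induction n with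
  | zero => exact fun _ => ⟨fun _ => 0, fun j hj => absurd hj (Nat.not_lt_zero _)⟩
  | succ n ih =>
    intro hn
    obtain ⟨v, hv⟩ := ih (Nat.le_of_succ_le hn)
    obtain ⟨j0, hj0⟩ : ∃ j0 : Fin S, (j0 : ℕ) = n := ⟨⟨n, hn⟩, rfl⟩
    refine ⟨Function.update v j0 (ev x v (Q j0) + r j0), ?_⟩
    intro j hj
    have h1 : ev x (Function.update v j0 (ev x v (Q j0) + r j0)) (Q j) = ev x v (Q j) := by
      refine hCG O V T S (Q j) j (hQ j) x _ _ ?_
      intro i hi
      refine Function.update_of_ne ?_ _ _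
      intro hij
      have h2 : (i : ℕ) < (j : ℕ) := hi
      rw [hij, hj0] at h2
      omega
    rw [h1]
    by_cases hjn : j = j0
    · rw [hjn, Function.update_self]
    · rw [Function.update_of_ne hjn]
      refine hv j ?_
      have h3 : (j : ℕ) ≠ n := fun h => hjn (Fin.ext (h.trans hj0.symm))
      omega

theorem sn_EX (hCG : StCG) : StEX := by
  intro O V T _ _ _ S Q hQ x r
  obtain ⟨v, hv⟩ := EX_aux hCG O V T S Q hQ x r S le_rfl
  exact ⟨v, fun j => hv j j.2⟩

end Pool.Agent.Work.MP_499dc6_lc.SN
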