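import Pool.Agent.Work.MP_499dc6_lc.SN.Stmts

set_option autoImplicit false

namespace Pool.Agent.Work.MP_499dc6_lc.SN

theorem sn_L0 : StL0 := by
  intro O V _ S t lev Q h j μ hμ i hi
  exact (((h j).2.2.2 μ hμ).1 i hi).1

end Pool.Agent.Work.MP_499dc6_lc.SN
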