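import Pool.Agent.Work.MP_499dc6_lc.SN.Defs

/-!
THEOREM SN, part 1: statements over Mathlib only.  Every docstring is a complete proof.

Write `Q j` for the gate polynomials, `ev x v` for the substitution.  `q` uses only gates `< j`
means `∀ μ ∈ q.support, ∀ i, μ (Sum.inr i) ≠ 0 → i < j`.
-/

open MvPolynomial

namespace Pool.Agent.Work.MP_499dc6_lc.SN

/-! ## Circuits over a commutative ring -/

/-- CG (EASY).  The value of a gate polynomial depends only on the earlier gates.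
Proof: `MvPolynomial.hom_congr_vars`, `eval₂Hom_congr'` or: write `q` as the sum of its monomials
(`aeval_def`, `eval₂_eq'`), and compare the products factor by factor (a factor with
`μ (inr i) = 0` is `1`, otherwise `i < j`). -/
def StCG : Prop := ∀ (O V T : Type) [CommRing O] [CommRing T] [Algebra O T] (S : ℕ)
  (q : MvPolynomial (V ⊕ Fin S) O) (j : Fin S)
  (_ : ∀ μ ∈ q.support, ∀ i : Fin S, μ (Sum.inr i) ≠ 0 → i < j)
  (x : V → T) (v v' : Fin S → T) (_ : ∀ i < j, v i = v' i), ev x v q = ev x v' q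

/-- EX (EASY-MEDIUM, hypothesis `StCG`).  Values of the gates with prescribed perturbations.
Proof: by induction on `n ≤ S` there is `v` with the equation for all `j` with `j < n`: given `v`
for `n < S`, put `v' = Function.update v ⟨n, _⟩ (ev x v (Q ⟨n, _⟩) + r ⟨n, _⟩)`; for `j ≤ n` the
value `ev x v' (Q j) = ev x v (Q j)` by `StCG` (`v'` and `v` agree at all `i < j`). -/
def StEX : Prop := ∀ (O V T : Type) [CommRing O] [CommRing T] [Algebra O T] (S : ℕ)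
  (Q : Fin S → MvPolynomial (V ⊕ Fin S) O) (_ : Acyc Q) (x : V → T) (r : Fin S → T),
  ∃ v : Fin S → T, ∀ j, v j = ev x v (Q j) + r j

/-- UQ (EASY, hypothesis `StCG`).  Uniqueness of the values: strong induction on `j`
(`Fin.induction`/`WellFounded`), `StCG`. -/
def StUQ : Prop := ∀ (O V T : Type) [CommRing O] [CommRing T] [Algebra O T] (S : ℕ)
  (Q : Fin S → MvPolynomial (V ⊕ Fin S) O) (_ : Acyc Q) (x : V → T) (v v' : Fin S → T)
  (_ : ∀ j, v j = ev x v (Q j)) (_ : ∀ j, v' j = ev x v' (Q j)), v = v'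

/-- AD (EASY).  A triangular linear system: solve for `j = S - 1, ..., 0`.
Proof: by induction on `n ≤ S` there is `la` with the equation for all `j` with `S - n ≤ j`; step:
update `la` at `j0 = S - n - 1` (the equations for `j > j0` involve only `la l` with `l > j`, the
equation for `j0` only `l > j0`).  Or: the matrix `1 - N` is unitriangular, so invertible. -/
def StAD : Prop := ∀ (T : Type) [CommRing T] (S : ℕ) (N : Fin S → Fin S → T)
  (_ : ∀ l j, ¬ j < l → N l j = 0) (r : Fin S → T),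
  ∃ la : Fin S → T, ∀ j, la j = r j + ∑ l, la l * N l j

/-- CR (EASY).  Chain rule.  Proof: induction on `q` (`MvPolynomial.induction_on`): constants,
sums, and products with a variable (`Derivation.leibniz`, `pderiv_X`, for the variable `inl v`:
`ev X f (X (inl v)) = X v`; for `inr i`: `f i`). -/
def StCR : Prop := ∀ (O V : Type) [CommRing O] (S : ℕ) (f : Fin S → MvPolynomial V O)
  (q : MvPolynomial (V ⊕ Fin S) O) (u : V),
  pderiv u (ev X f q) = ev X f (pderiv (Sum.inl u) q) +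
    ∑ j, ev X f (pderiv (Sum.inr j) q) * pderiv u (f j)

/-- NZ (EASY).  `pderiv_eq_zero_of_notMem_vars` (a variable of `Q l` is in the support of an
exponent, `mem_vars`). -/
def StNZ : Prop := ∀ (O V : Type) [CommRing O] (S : ℕ)
  (Q : Fin S → MvPolynomial (V ⊕ Fin S) O) (_ : Acyc Q) (l j : Fin S), ¬ j < l →
  pderiv (Sum.inr j) (Q l) = 0

/-- GI (MEDIUM, hypotheses `StCR`, `StUQ`).  Gradient identity (Baur-Strassen).
Proof: `v j = aeval x (f j)`: both solve the equations of `StUQ`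
(`aeval x (ev X f (Q j)) = ev x (fun i => aeval x (f i)) (Q j)`, `comp_aeval_apply`, `Sum.elim`
by cases).  Put `d l = aeval x (pderiv u (f l))`.  `StCR` for `q = Q l` (and `f l = ev X f (Q l)`),
evaluated at `x`: `d l = A l + ∑_j B l j * d j` with `A l = ev x v (pderiv (inl u) (Q l))`,
`B l j = ev x v (pderiv (inr j) (Q l))`.  Then
`∑_l la l * d l = ∑_l la l * A l + ∑_j (∑_l la l * B l j) * d j
= ∑_l la l * A l + ∑_j (la j - [j = s]) * d j`, so `d s = ∑_l la l * A l`. -/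
def StGI : Prop := ∀ (O V T : Type) [CommRing O] [CommRing T] [Algebra O T] (S : ℕ)
  (Q : Fin S → MvPolynomial (V ⊕ Fin S) O) (_ : Acyc Q) (f : Fin S → MvPolynomial V O)
  (_ : ∀ j, f j = ev X f (Q j)) (s : Fin S) (x : V → T) (v : Fin S → T)
  (_ : ∀ j, v j = ev x v (Q j)) (la : Fin S → T)
  (_ : ∀ j, la j = (if j = s then 1 else 0) + ∑ l, la l * ev x v (pderiv (Sum.inr j) (Q l)))
  (u : V),
  ∑ l, la l * ev x v (pderiv (Sum.inl u) (Q l)) = aeval x (pderiv u (f s))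

/-- PH (MEDIUM, hypotheses `StEX`, `StAD`, `StNZ`, `StGI`).  The substitution.
Proof: `x v = algebraMap (x0 v) + ∑_i algebraMap (x1 v i) * th i`.  `vh` from `StEX` with
`r j = c * W j`; `la` from `StAD` with `N l j = ev x vh (pderiv (inr j) (Q l))` (zero unless
`j < l`, `StNZ`) and `r j = (if j = s then 1 else 0) + c * U j`.
`Φ = aeval (Sum.elim th (Sum.elim vh la))`.  `Φ (ptx x0 x1 v) = x v`, so
`Φ (sb x0 x1 q) = ev x vh q` (`comp_aeval_apply`, `Sum.elim` by cases).  The first three properties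
follow.  The last one: in the quotient ring `T ⧸ Ideal.span {c}` (`Ideal.Quotient.mkₐ O _`, it
commutes with `ev`) the images of `vh`, `la` satisfy the exact equations, so `StGI` says that the
image of `Φ (Gp u) - aeval x (pderiv u (f s))` is zero; `Ideal.Quotient.eq_zero_iff_mem`,
`Ideal.mem_span_singleton`. -/
def StPH : Prop := ∀ (O V Ξ T : Type) [CommRing O] [CommRing T] [Algebra O T] [Fintype Ξ] (S : ℕ)
  (Q : Fin S → MvPolynomial (V ⊕ Fin S) O) (_ : Acyc Q) (f : Fin S → MvPolynomial V O)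
  (_ : ∀ j, f j = ev X f (Q j)) (s : Fin S) (x0 : V → O) (x1 : V → Ξ → O) (th : Ξ → T) (c : T)
  (W U : Fin S → T),
  ∃ Φ : MvPolynomial (Var Ξ S) O →ₐ[O] T, (∀ i, Φ (X (Sum.inl i)) = th i) ∧
    (∀ j, Φ (Hp x0 x1 Q j) = c * W j) ∧ (∀ j, Φ (Ha x0 x1 Q s j) = c * U j) ∧
    ∀ u, c ∣ Φ (Gp x0 x1 Q u) - aeval (fun v => algebraMap O T (x0 v) +
      ∑ i, algebraMap O T (x1 v i) * th i) (pderiv u (f s))

/-! ## Weighted degrees -/

/-- W1 (EASY).  Closure properties of the weighted degree bound.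
Proof: supports: `support_add`, `support_mul` (`Finset.mem_add`), `support_C`/`coeff_C`,
`support_X`/`coeff_X'`, `support_neg`; `∑ i, w i * (μ + ν) i` is additive. -/
def StW1 : Prop := ∀ (O σ : Type) [CommRing O] [Fintype σ] (w : σ → ℕ),
  (∀ (n : ℕ) (c : O), WD w n (C c)) ∧ (∀ (n : ℕ) (i : σ), w i ≤ n → WD w n (X i : MvPolynomial σ O)) ∧
  (∀ (n n' : ℕ) (p : MvPolynomial σ O), WD w n p → n ≤ n' → WD w n' p) ∧
  (∀ (n : ℕ) (p q : MvPolynomial σ O), WD w n p → WD w n q → WD w n (p + q)) ∧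
  (∀ (n : ℕ) (p q : MvPolynomial σ O), WD w n p → WD w n q → WD w n (p - q)) ∧
  (∀ (n n' : ℕ) (p q : MvPolynomial σ O), WD w n p → WD w n' q → WD w (n + n') (p * q))

/-- W2 (EASY, hypothesis `StW1`).  Finite sums, powers and products (induction). -/
def StW2 : Prop := ∀ (O σ : Type) [CommRing O] [Fintype σ] (w : σ → ℕ),
  (∀ (ι : Type) (s : Finset ι) (n : ℕ) (p : ι → MvPolynomial σ O), (∀ i ∈ s, WD w n (p i)) →
    WD w n (∑ i ∈ s, p i)) ∧
  (∀ (n m : ℕ) (p : MvPolynomial σ O), WD w n p → WD w (n * m) (p ^ m)) ∧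
  (∀ (ι : Type) (s : Finset ι) (n : ι → ℕ) (p : ι → MvPolynomial σ O), (∀ i ∈ s, WD w (n i) (p i)) →
    WD w (∑ i ∈ s, n i) (∏ i ∈ s, p i))

/-- W3 (EASY-MEDIUM, hypotheses `StW1`, `StW2`).  The substitution `sb` respects the weights.
Proof: `q = ∑_{μ ∈ support} monomial μ (coeff μ q)` and `sb` of it is
`C (coeff μ q) * ∏_v ptx v ^ μ (inl v) * ∏_i X (inr (inl i)) ^ μ (inr i)` (`aeval_monomial` or
`eval₂_eq'`, `Fintype.prod_sum_type`); `ptx x0 x1 v` has weight at most `1`. -/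
def StW3 : Prop := ∀ (O V Ξ : Type) [CommRing O] [Fintype V] [Fintype Ξ] (S : ℕ) (x0 : V → O)
  (x1 : V → Ξ → O) (a a' : Fin S → ℕ) (n : ℕ) (q : MvPolynomial (V ⊕ Fin S) O),
  (∀ μ ∈ q.support, wq a μ ≤ n) → WD (wv a a') n (sb x0 x1 q)

/-- W4 (EASY, hypotheses `StW1`, `StW2`, `StW3`).  Weights of the equations. -/
def StW4 : Prop := ∀ (O V Ξ : Type) [CommRing O] [Fintype V] [Fintype Ξ] (S : ℕ)
  (Q : Fin S → MvPolynomial (V ⊕ Fin S) O) (s : Fin S) (x0 : V → O)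
  (x1 : V → Ξ → O) (a a' h h' : Fin S → ℕ) (g : ℕ), Wt Q a a' h h' g →
  (∀ j, WD (wv a a') (h j) (Hp x0 x1 Q j)) ∧ (∀ j, WD (wv a a') (h' j) (Ha x0 x1 Q s j)) ∧
  ∀ u, WD (wv a a') g (Gp x0 x1 Q u)

/-- W5 (EASY, hypotheses `StW1`, `StW2`, `StW4`).  Weight of the family. -/
def StW5 : Prop := ∀ (O V Ξ I : Type) [CommRing O] [Fintype V] [Fintype Ξ] [Fintype I] (S : ℕ)
  (Q : Fin S → MvPolynomial (V ⊕ Fin S) O) (s : Fin S) (x0 : V → O)
  (x1 : V → Ξ → O) (dir : I → V) (a a' h h' : Fin S → ℕ) (g : ℕ), Wt Q a a' h h' g →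
  ∀ (D0 N : ℕ) (α : Ξ →₀ ℕ) (β : I →₀ ℕ) (γ γ' : Fin S →₀ ℕ), α.degree ≤ D0 → β.degree ≤ N →
    WD (wv a a') (D0 + g * N + (∑ j, h j * γ j + ∑ j, h' j * γ' j)) (fam x0 x1 Q s dir α β γ γ')

/-! ## Counting -/

/-- G1 (EASY-MEDIUM).  At most as many independent polynomials of weighted degree `≤ n` as there
are monomials of weighted degree `≤ n`.
Proof: the set `B` of exponents with `∑ w i μ i ≤ n` is finite (`μ i ≤ n` as `1 ≤ w i`:
`Finset.finsupp`, or `Set.Finite.subset` of `{μ | μ.degree ≤ n}`); all members of the family lie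
in `restrictSupport O B`, free with basis `basisRestrictSupport O B`;
`LinearIndependent.fintype_card_le_finrank` (or `cardinal_le_rank`) for finite subfamilies.
`Nat.card`/`Set.ncard`/`Set.encard` as convenient: for every finite set `A'` of indices with
`δ a ≤ n`, `A'.card ≤ B.ncard`. -/
def StG1 : Prop := ∀ (O σ A : Type) [CommRing O] [Nontrivial O] [Fintype σ] (w : σ → ℕ)
  (_ : ∀ i, 1 ≤ w i) (F : A → MvPolynomial σ O) (δ : A → ℕ) (_ : LinearIndependent O F)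
  (_ : ∀ a, WD w (δ a) (F a)) (n : ℕ),
  {a | δ a ≤ n}.encard ≤ {μ : σ →₀ ℕ | ∑ i, w i * μ i ≤ n}.encard

/-- G2 (EASY-MEDIUM).  Comparison of generating functions.
Proof: `z ^ d = (1 - z) * ∑' n, if d ≤ n then z ^ n else 0` for `z < 1` (`ENNReal.tsum_geometric`
after a shift, `ENNReal.mul_inv_cancel`), so `∑' a, z ^ δ a = (1 - z) * ∑' n, z ^ n * encard
{a | δ a ≤ n}` (`ENNReal.tsum_mul_left`, `ENNReal.tsum_comm`, `ENNReal.tsum_set_one` or
`ENNReal.tsum_const`); same for `B`; compare term by term. -/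
def StG2 : Prop := ∀ (A B : Type) (δ : A → ℕ) (w : B → ℕ)
  (_ : ∀ n, {a | δ a ≤ n}.encard ≤ {b | w b ≤ n}.encard) (z : ENNReal), z < 1 →
  ∑' a, z ^ δ a ≤ ∑' b, z ^ w b

/-- G3 (EASY-MEDIUM).  Product of geometric series.
Proof: transfer to `σ → ℕ` (`Finsupp.equivFunOnFinite.tsum_eq`), `σ = Fin n`
(`Fintype.equivFin`), induction on `n` with `Fin.consEquiv`/`Fin.insertNthEquiv`,
`ENNReal.tsum_prod`, `ENNReal.tsum_mul_left`, `ENNReal.tsum_mul_right`, `pow_add`, `pow_mul`,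
`ENNReal.tsum_geometric`. -/
def StG3 : Prop := ∀ (σ : Type) [Fintype σ] (w : σ → ℕ) (z : ENNReal),
  ∑' μ : σ →₀ ℕ, z ^ (∑ i, w i * μ i) = ∏ i, (1 - z ^ w i)⁻¹

/-- G4 (EASY, hypothesis `StG3`).  The generating function of the index set of the family.
Proof: `tsum` over a product of types (`ENNReal.tsum_prod`), `pow_add`, the sum over the finite
type `J` of a constant (`tsum_fintype`, `Finset.sum_const`). -/
def StG4 : Prop := ∀ (J : Type) [Fintype J] (S : ℕ) (h h' : Fin S → ℕ) (d : ℕ) (z : ENNReal),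
  ∑' a : J × ((Fin S →₀ ℕ) × (Fin S →₀ ℕ)),
      z ^ (d + (∑ j, h j * a.2.1 j + ∑ j, h' j * a.2.2 j)) =
    (Fintype.card J : ENNReal) * z ^ d * ((∏ j, (1 - z ^ h j)⁻¹) * ∏ j, (1 - z ^ h' j)⁻¹)

/-- G5 (EASY).  `a (1 - z ^ h) ≤ h (1 - z ^ a)` for `1 ≤ a ≤ h`, `0 ≤ z ≤ 1`.
Proof: induction on `h ≥ a` for `a (1 - z^h) ≤ h (1 - z^a)`: the step adds
`a z^h (1 - z) ≤ a z^a (1-z) ≤ 1 - z^a` (`a z^a (1-z) ≤ (1-z) ∑_{i<a} z^i = 1 - z^a`). -/
def StG5 : Prop := ∀ (a h : ℕ) (z : ℝ), 1 ≤ a → a ≤ h → 0 ≤ z → z ≤ 1 →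
  (a : ℝ) * (1 - z ^ h) ≤ h * (1 - z ^ a)

/-- G6 (MEDIUM, hypotheses `StG1`, `StG2`, `StG3`, `StG4`, `StG5`).  The counting inequality.
Proof: `StG1`, `StG2` for the family `F` with `δ (j, γ, γ') = d + ∑ h γ + ∑ h' γ'` and the
monomials, `StG3` (`Fintype.prod_sum_type` three times: the weights are `1` on `Ξ`), `StG4`, for
`z` as an `ENNReal` (`ENNReal.ofReal z`), give
`|J| z^d ∏ (1 - z^h)⁻¹ ∏ (1 - z^h')⁻¹ ≤ ((1-z)⁻¹)^k ∏ (1-z^a)⁻¹ ∏ (1-z^a')⁻¹`; pass to `ℝ`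
(`ENNReal.toReal_mono`, all the factors are finite as `0 < z < 1` and the exponents are positive),
multiply by the positive denominators and use `StG5`:
`(1 - z^h) / (1 - z^a) ≤ h / a`. -/
def StG6 : Prop := ∀ (O Ξ J : Type) [CommRing O] [Nontrivial O] [Fintype Ξ] [Fintype J] (S : ℕ)
  (a a' h h' : Fin S → ℕ) (_ : ∀ j, 1 ≤ a j ∧ 1 ≤ a' j ∧ a j ≤ h j ∧ a' j ≤ h' j) (d : ℕ)
  (F : J × ((Fin S →₀ ℕ) × (Fin S →₀ ℕ)) → MvPolynomial (Var Ξ S) O) (_ : LinearIndependent O F)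
  (_ : ∀ p, WD (wv a a') (d + (∑ j, h j * p.2.1 j + ∑ j, h' j * p.2.2 j)) (F p))
  (z : ℝ), 0 < z → z < 1 →
  (Fintype.card J : ℝ) * z ^ d * (1 - z) ^ Fintype.card Ξ ≤
    ∏ j, ((h j : ℝ) / a j * ((h' j : ℝ) / a' j))

/-- G7 (MEDIUM).  The limit.
Proof: take `z = 1 - x / N` with `x = k / g` and `N → ∞` (`N > x`).
`(D N + k).choose k ≥ (D N)^k / k!` (`Nat.pow_sub_le_descFactorial`.., or
`Nat.choose_eq_descFactorial_div`, `(DN+k)(DN+k-1)...(DN+1) ≥ (DN)^k`), so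
`(D x)^k / k! * (1 - x/N)^(D0 + g N) ≤ Pi`; the left side tends to `(D x)^k / k! * exp (- g x)`
(`Real.tendsto_one_add_div_pow_exp` with `-x`, to the power `g`, times `(1-x/N)^D0 → 1`), and
`g x = k`: `D^k ≤ Pi * k! * e^k * (g / k)^k`.  Finally `k! ≤ e k (k / e)^k`
(induction: `(k+1)! = (k+1) k!` and `(1 + 1/k)^(k) ≤ e`, i.e. `((k+1)/k)^(k+1) ... `; or
`Real.add_pow_le_pow_mul_pow_of_sq_le_sq`.. any proof; the cleanest: `u_k = k! e^k / (k^k k)`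
satisfies `u_{k+1} / u_k = e * (k/(k+1))^(k+1) ≤ 1` since `(1 + 1/k)^(k+1) ≥ e`, i.e.
`(k+1) log (1 + 1/k) ≥ 1`, and `u_1 = e`). -/
def StG7 : Prop := ∀ (D D0 g k : ℕ) (Pi : ℝ), 1 ≤ g → 1 ≤ k →
  (∀ (N : ℕ) (z : ℝ), 0 < z → z < 1 →
    (((D * N + k).choose k : ℕ) : ℝ) * z ^ (D0 + g * N) * (1 - z) ^ k ≤ Pi) →
  (D : ℝ) ^ k ≤ Real.exp 1 * k * (g : ℝ) ^ k * Pi

/-! ## The weights for the levels -/

/-- L0 (EASY).  A circuit with levels is in topological order. -/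
def StL0 : Prop := ∀ (O V : Type) [CommRing O] (S t : ℕ) (lev : Fin S → ℕ)
  (Q : Fin S → MvPolynomial (V ⊕ Fin S) O), Lev t lev Q → Acyc Q

/-- L1 (EASY-MEDIUM).  The weight of an exponent of a gate polynomial.
`μ` has total degree at most `2` (`μ.sum fun _ e => e`, i.e. `∑_v μ (inl v) + ∑_i μ (inr i) ≤ 2`),
involves only gates of level at most `L ≥ 1`, at most one of level `L`.  Then its weight is at most
`s (L - 1) + s L`; and at most `s L` if its degree is at most one, and `s (L - 1)` if moreover it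
involves no gate of level `L`.
Proof: `s` is monotone and `1 ≤ s 0`, so every variable and every gate of level `< L` has weight at
most `s (L - 1) ≤ s L`, and a gate of level `L` has weight `s L`.  With `A` = total degree minus the
part `B ≤ 1` of level `L`: weight `≤ A s (L - 1) + B s L`. -/
def StL1 : Prop := ∀ (V : Type) [Fintype V] (S : ℕ) (lev : Fin S → ℕ) (s : ℕ → ℕ), Monotone s →
  1 ≤ s 0 → ∀ (L : ℕ) (μ : V ⊕ Fin S →₀ ℕ), 1 ≤ L → (∀ i, μ (Sum.inr i) ≠ 0 → lev i ≤ L) →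
  ∑ i with lev i = L, μ (Sum.inr i) ≤ 1 →
  (∑ v, μ (Sum.inl v) + ∑ i, μ (Sum.inr i) ≤ 2 → wq (fun i => s (lev i)) μ ≤ s (L - 1) + s L) ∧
  (∑ v, μ (Sum.inl v) + ∑ i, μ (Sum.inr i) ≤ 1 → wq (fun i => s (lev i)) μ ≤ s L) ∧
  (∑ v, μ (Sum.inl v) + ∑ i, μ (Sum.inr i) ≤ 1 → ∑ i with lev i = L, μ (Sum.inr i) = 0 →
    wq (fun i => s (lev i)) μ ≤ s (L - 1))

/-- L2 (EASY).  The exponents of a partial derivative: `coeff μ (pderiv i q)` is a multiple of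
`coeff (μ + single i 1) q` (`coeff_pderiv` if present in Mathlib, or `pderiv_monomial` and linearity). -/
def StL2 : Prop := ∀ (O σ : Type) [CommRing O] (i : σ) (q : MvPolynomial σ O) (μ : σ →₀ ℕ),
  μ ∈ (pderiv i q).support → μ + Finsupp.single i 1 ∈ q.support

/-- L3 (MEDIUM, hypotheses `StL1`, `StL2`).  The weight conditions for a circuit with levels.
Proof: `Lev` gives the hypotheses of `StL1` for the exponents of `Q j` and `L = lev j` (total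
degree: `le_totalDegree`, `Finsupp.sum_fintype`, `Fintype.sum_sum_type`): bound `wh`.
Let `μ` be an exponent of `pderiv (inr j) (Q l)`; by `StL2` `μ + single (inr j) 1` is one of
`Q l`, so `μ` has degree at most `1`, `j < l`, `lev j ≤ lev l =: ρ`.
* `lev j = ρ`: `μ` has no gate of level `ρ`, so `wq μ ≤ s (ρ - 1) ≤ s (t - 1)`, and
  `wa' l = wa' j`.
* `lev j < ρ < t`: `wq μ ≤ s ρ ≤ s (t - 1)`, `wa' l = u + s t = wa' j`.
* `lev j < ρ = t`: `wa' l + wq μ ≤ u + s t = wa' j`.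
For `pderiv (inl u) (Q l)`: degree at most one, `wq μ ≤ s ρ`, so
`wa' l + wq μ ≤ u + s t + s (t - 1)` for `ρ < t`, and `≤ u + s t` for `ρ = t`. -/
def StL3 : Prop := ∀ (O V : Type) [CommRing O] [Fintype V] (S t : ℕ) (lev : Fin S → ℕ)
  (Q : Fin S → MvPolynomial (V ⊕ Fin S) O) (s : ℕ → ℕ) (u : ℕ), 1 ≤ t → Lev t lev Q →
  Monotone s → 1 ≤ s 0 → 1 ≤ u →
  Wt Q (wa s lev) (wa' s u t lev) (wh s lev) (wh' s u t lev) (u + s t + s (t - 1))

/-! ## The numbers of the levels -/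

/-- N1 (EASY-MEDIUM).  The product over the gates of the factors `1 + 1 / z`.
Proof: `wh / wa = (ss (lev j - 1) + ss (lev j)) / ss (lev j) = 1 + 1 / zz (lev j)`, as
`ss L = ss (L - 1) * zz L` for `L ≥ 1` (`Finset.prod_range_succ`), then
`Finset.prod_fiberwise_of_maps_to` over the level in `Finset.Icc 1 t` (or
`Finset.prod_comp`). -/
def StN1 : Prop := ∀ (S t k : ℕ) (lev : Fin S → ℕ) (_ : ∀ j, 1 ≤ lev j ∧ lev j ≤ t),
  ∏ j, ((wh (ss lev k) lev j : ℕ) : ℝ) / ((wa (ss lev k) lev j : ℕ) : ℝ) =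
    ∏ σ ∈ Finset.range t, (1 + 1 / (zz lev k (σ + 1) : ℝ)) ^ nn lev (σ + 1)

/-- N2 (EASY-MEDIUM).  The product of the adjoint factors is at most `exp k`.
Proof: `wh' / wa' = 1 + ss (t - 1) / wa' ≤ 1 + 1 / (S / k + 1)` (floor), as
`wa' ≥ u = (S / k + 1) * ss (t - 1)` and `ss ≥ 1`; `(1 + x)^S ≤ exp (x S)`
(`Real.add_one_le_exp`), and `S / (⌊S / k⌋ + 1) ≤ k` (`Nat.lt_div_mul_add`..: `S < k * (S / k + 1)`). -/
def StN2 : Prop := ∀ (S t k : ℕ) (lev : Fin S → ℕ), 1 ≤ k →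
  ∏ j, ((wh' (ss lev k) ((S / k + 1) * ss lev k (t - 1)) t lev j : ℕ) : ℝ) /
      ((wa' (ss lev k) ((S / k + 1) * ss lev k (t - 1)) t lev j : ℕ) : ℝ) ≤ Real.exp k

/-- N3 (EASY-MEDIUM).  One level: `z^k (1 + 1/z)^n ≤ (1 + 4.5 n / k)^k` for `z = n / k + 1`
(floor).
Proof: put `r = n / k` (real).  If `n < k`: `z = 1` and the left side is `2 ^ n`; for `n ≥ 1`
Bernoulli with the real exponent `k / n ≥ 1` (`one_add_mul_self_le_rpow_one_add`) gives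
`(1 + n / k) ^ (k / n) ≥ 1 + (n / k) (k / n) = 2`, so `(1 + n / k) ^ k ≥ 2 ^ n`
(`Real.rpow_natCast`, `Real.rpow_mul`).
If `n ≥ k`: `(1 + 1/z)^n ≤ exp (n / z) ≤ exp k` as `z ≥ r`; `z ≤ 1 + r`; so the left side is at most
`(e (1 + r))^k`, and `e (1 + r) ≤ 1 + 4.5 r` for `r ≥ 1` (`e < 2.7183`: `e - 1 ≤ (4.5 - e) r`). -/
def StN3 : Prop := ∀ (n k : ℕ), 1 ≤ k →
  (((n / k + 1 : ℕ) : ℝ)) ^ k * (1 + 1 / ((n / k + 1 : ℕ) : ℝ)) ^ n ≤
    (1 + 4.5 * (n : ℝ) / k) ^ k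

/-- N4 (EASY).  The top level.
Proof: `(1 + 1/z)^n ≤ exp (n / z) ≤ exp k` (`z ≥ n / k`). -/
def StN4 : Prop := ∀ (n k : ℕ), 1 ≤ k →
  (1 + 1 / ((n / k + 1 : ℕ) : ℝ)) ^ n ≤ Real.exp k

/-- N5 (EASY-MEDIUM).  AM-GM for the levels.
Proof: the `t` numbers `1 + x`, `1 + 4.5 r_σ` (`σ < t - 1`) have the sum at most `t + 5.5 x`, so
their product is at most `((t + 5.5 x) / t)^t` (`Real.geom_mean_le_arith_mean` with the weights `1`
on `Finset.range t`, the `0`-th number being `1 + x`: `Finset.prod_range_succ'`). -/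
def StN5 : Prop := ∀ (t : ℕ) (x : ℝ) (r : ℕ → ℝ), 1 ≤ t → 0 ≤ x → (∀ σ, 0 ≤ r σ) →
  ∑ σ ∈ Finset.range (t - 1), r σ ≤ x →
  (1 + x) * ∏ σ ∈ Finset.range (t - 1), (1 + 4.5 * r σ) ≤ (1 + 5.5 * x / t) ^ t

/-- N6 (MEDIUM, hypotheses `StN1`, `StN2`, `StN3`, `StN4`, `StN5`).  The bound for `D ^ k`.
Proof: with `R = S / k` (real), `g = ss (t-1) * (⌊S/k⌋ + 1 + zz t + 1)` and
`⌊S / k⌋ + zz t + 2 ≤ 2 R + 3 ≤ 3 (1 + R)` (`nn t ≤ S`), so
`g^k ∏ .. ≤ (3 (1 + R))^k e^k e^k ∏_{σ < t - 1} [zz (σ+1)^k (1 + 1/zz (σ+1))^(nn (σ+1))]`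
(`ss (t - 1) = ∏_{σ < t-1} zz (σ + 1)`, the factor `σ = t - 1` of `StN1` by `StN4`,
`Finset.prod_range_succ` for `t = (t - 1) + 1`; `Finset.prod_mul_distrib` for the product of the
two ratios), then `StN3` and `StN5` with `r σ = nn (σ + 1) / k`, `x = S / k`
(`∑ nn (σ+1) ≤ S`: disjoint filters, `Finset.sum_card_..` or
`Finset.card_eq_sum_card_fiberwise`); everything to the power `k`. -/
def StN6 : Prop := ∀ (S t k : ℕ) (lev : Fin S → ℕ), 1 ≤ k → 1 ≤ t →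
  (∀ j, 1 ≤ lev j ∧ lev j ≤ t) →
  (((S / k + 1) * ss lev k (t - 1) + ss lev k t + ss lev k (t - 1) : ℕ) : ℝ) ^ k *
    ∏ j, (((wh (ss lev k) lev j : ℕ) : ℝ) / ((wa (ss lev k) lev j : ℕ) : ℝ) *
      (((wh' (ss lev k) ((S / k + 1) * ss lev k (t - 1)) t lev j : ℕ) : ℝ) /
        ((wa' (ss lev k) ((S / k + 1) * ss lev k (t - 1)) t lev j : ℕ) : ℝ))) ≤
  (3 * Real.exp 2 * (1 + 5.5 * ((S : ℝ) / k) / t) ^ t) ^ k

/-- N7 (EASY).  `ss` is monotone and `ss 0 = 1`. -/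
def StN7 : Prop := ∀ (S k : ℕ) (lev : Fin S → ℕ), Monotone (ss lev k) ∧ ss lev k 0 = 1

/-- N8 (MEDIUM).  The final numbers.
Proof: for `m ≤ 250` the right side is at least `250` (the base is at least `1`).  Let `m ≥ 251`,
so `a ≥ 27` and `k = 3 a (a + 1) ≥ 2268`, `Y = (1 + 5.5 (S / k) / t) ^ t ≥ 1`.
`e k ≤ 1.01 ^ k`: `exp 0.0099 ≤ 1 / (1 - 0.0099) ≤ 1.01` (from `Real.one_sub_le_exp_neg` or
`Real.add_one_le_exp (-0.0099)`), so `1.01 ^ k ≥ exp (0.0099 k) ≥ (0.0099 k)^4 / 24`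
(`Real.pow_div_factorial_le_exp`) `≥ e k`, since `k^3 ≥ 2268^3` (`e < 2.7183`).
So `a^k ≤ (1.01 · 3 e^2 Y)^k`, `a ≤ 1.01 · 3 e^2 Y` (`lt_of_pow_lt_pow_left₀`),
`e^2 ≤ 7.3891`, and `m ≤ 9 (a + 1) ≤ 9 (28/27) a ≤ 210 Y`.  Finally `28 k ≥ m^2`: `a + 1 ≥ m / 9`,
`a ≥ (27/28) (a + 1)`, so `28 · 3 a (a + 1) ≥ 81 (a + 1)^2 ≥ m^2`; so `5.5 / k ≤ 154 / m^2` and
`Y ≤ (1 + 160 S / (t m^2)) ^ t`. -/
def StN8 : Prop := ∀ (m a S t : ℕ), 1 ≤ m → 1 ≤ t → 9 * a + 1 ≤ m → m ≤ 9 * a + 9 →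
  (1 ≤ a → (a : ℝ) ^ (3 * a * (a + 1)) ≤ Real.exp 1 * ((3 * a * (a + 1) : ℕ) : ℝ) *
    (3 * Real.exp 2 * (1 + 5.5 * ((S : ℝ) / ((3 * a * (a + 1) : ℕ) : ℝ)) / t) ^ t) ^
      (3 * a * (a + 1))) →
  (m : ℝ) ≤ 250 * (1 + 160 * S / (t * (m : ℝ) ^ 2)) ^ t

end Pool.Agent.Work.MP_499dc6_lc.SN
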