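import Mathlib
import Pool.Agent.Work.MP_499dc6_lc.SN.Stmts

/-!
THEOREM SN, item G4: generating function of a family of products.
-/

namespace Pool.Agent.Work.MP_499dc6_lc.SN

/-- The inner sum over the pair of exponents. -/
theorem G4_inner (hG3 : StG3) (S : ℕ) (h h' : Fin S → ℕ) (z : ENNReal) :
    ∑' b : (Fin S →₀ ℕ) × (Fin S →₀ ℕ), z ^ (∑ j, h j * b.1 j + ∑ j, h' j * b.2 j)
      = (∏ j, (1 - z ^ h j)⁻¹) * ∏ j, (1 - z ^ h' j)⁻¹ := by
  rw [ENNReal.tsum_prod']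
  simp only [pow_add, ENNReal.tsum_mul_left, ENNReal.tsum_mul_right]
  rw [hG3 (Fin S) h z, hG3 (Fin S) h' z]

theorem sn_G4 (hG3 : StG3) : StG4 := by
  intro J _ S h h' d z
  rw [ENNReal.tsum_prod']
  simp only [pow_add z d, ENNReal.tsum_mul_left]
  rw [G4_inner hG3 S h h' z]
  rw [tsum_fintype]
  rw [Finset.sum_const, Finset.card_univ, nsmul_eq_mul, mul_assoc, mul_left_comm]

end Pool.Agent.Work.MP_499dc6_lc.SN
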