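import Pool.Agent.Work.MP_499dc6_lc.SN.Stmts

/-!
Block SN, item G6: the counting inequality.
-/

set_option autoImplicit false

open MvPolynomial

namespace Pool.Agent.Work.MP_499dc6_lc.SN

theorem G6_inv {z : ℝ} (hz0 : 0 < z) (hz1 : z < 1) (n : ℕ) (hn : 1 ≤ n) :
    (1 - ENNReal.ofReal z ^ n)⁻¹ = ENNReal.ofReal ((1 - z ^ n)⁻¹) := by
  have h1 : z ^ n < 1 := pow_lt_one₀ hz0.le hz1 (by omega)
  rw [ENNReal.ofReal_inv_of_pos (by linarith), ENNReal.ofReal_sub _ (by positivity),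
    ENNReal.ofReal_one, ENNReal.ofReal_pow hz0.le]

theorem G6_prod {ι : Type} [Fintype ι] {z : ℝ} (hz0 : 0 < z) (hz1 : z < 1) (n : ι → ℕ)
    (hn : ∀ i, 1 ≤ n i) : ∏ i, (1 - ENNReal.ofReal z ^ n i)⁻¹ =
      ENNReal.ofReal ((∏ i, (1 - z ^ n i))⁻¹) := by
  rw [← Finset.prod_inv_distrib, ENNReal.ofReal_prod_of_nonneg]
  · exact Finset.prod_congr rfl fun i _ => G6_inv hz0 hz1 (n i) (hn i)
  · intro i _
    have h1 : z ^ n i < 1 := pow_lt_one₀ hz0.le hz1 (by have := hn i; omega)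
    exact inv_nonneg.2 (by linarith)

theorem G6_pos {ι : Type} [Fintype ι] {z : ℝ} (hz0 : 0 < z) (hz1 : z < 1) (n : ι → ℕ)
    (hn : ∀ i, 1 ≤ n i) : 0 < ∏ i, (1 - z ^ n i) := by
  refine Finset.prod_pos fun i _ => ?_
  have h1 : z ^ n i < 1 := pow_lt_one₀ hz0.le hz1 (by have := hn i; omega)
  linarith

/-- item G6 -/
theorem sn_G6 (hG1 : StG1) (hG2 : StG2) (hG3 : StG3) (hG4 : StG4) (hG5 : StG5) : StG6 := by
  intro O Ξ J _ _ _ _ S a a' h h' hw d F hLI hWD z hz0 hz1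
  have hZ : ENNReal.ofReal z < 1 := by
    rw [← ENNReal.ofReal_one]
    exact (ENNReal.ofReal_lt_ofReal_iff one_pos).2 hz1
  have hwv : ∀ i, 1 ≤ wv (Ξ := Ξ) a a' i := by
    intro i
    rcases i with i | i | i
    · exact le_refl 1
    · exact (hw i).1
    · exact (hw i).2.1
  have hh : ∀ j, 1 ≤ h j := fun j => (hw j).1.trans (hw j).2.2.1
  have hh' : ∀ j, 1 ≤ h' j := fun j => (hw j).2.1.trans (hw j).2.2.2
  have h1 := hG2 _ _ (fun p : J × ((Fin S →₀ ℕ) × (Fin S →₀ ℕ)) =>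
    d + (∑ j, h j * p.2.1 j + ∑ j, h' j * p.2.2 j))
    (fun μ : Var Ξ S →₀ ℕ => ∑ i, wv a a' i * μ i)
    (fun n => hG1 O (Var Ξ S) _ (wv a a') hwv F _ hLI hWD n) (ENNReal.ofReal z) hZ
  have h2 := hG4 J S h h' d (ENNReal.ofReal z)
  have h3 := hG3 (Var Ξ S) (wv a a') (ENNReal.ofReal z)
  have h4 : ∏ i, (1 - ENNReal.ofReal z ^ wv (Ξ := Ξ) a a' i)⁻¹ =
      ENNReal.ofReal (((1 - z)⁻¹) ^ Fintype.card Ξ *
        ((∏ j, (1 - z ^ a j))⁻¹ * (∏ j, (1 - z ^ a' j))⁻¹)) := by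
    rw [Fintype.prod_sum_type, Fintype.prod_sum_type]
    have e1 : ∏ i : Ξ, (1 - ENNReal.ofReal z ^ wv (Ξ := Ξ) a a' (Sum.inl i))⁻¹ =
        ENNReal.ofReal (((1 - z)⁻¹) ^ Fintype.card Ξ) := by
      have e0 : ∀ i : Ξ, (1 - ENNReal.ofReal z ^ wv (Ξ := Ξ) a a' (Sum.inl i))⁻¹ =
          ENNReal.ofReal ((1 - z)⁻¹) := by
        intro i
        have := G6_inv hz0 hz1 1 le_rfl
        rw [pow_one z] at this
        exact this
      rw [Finset.prod_congr rfl fun i _ => e0 i, Finset.prod_const, Finset.card_univ,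
        ENNReal.ofReal_pow (inv_nonneg.2 (by linarith))]
    have e2 : ∏ j : Fin S, (1 - ENNReal.ofReal z ^ wv (Ξ := Ξ) a a' (Sum.inr (Sum.inl j)))⁻¹ =
        ENNReal.ofReal ((∏ j, (1 - z ^ a j))⁻¹) := G6_prod hz0 hz1 a fun j => (hw j).1
    have e3 : ∏ j : Fin S, (1 - ENNReal.ofReal z ^ wv (Ξ := Ξ) a a' (Sum.inr (Sum.inr j)))⁻¹ =
        ENNReal.ofReal ((∏ j, (1 - z ^ a' j))⁻¹) := G6_prod hz0 hz1 a' fun j => (hw j).2.1
    rw [e1, e2, e3, ENNReal.ofReal_mul, ENNReal.ofReal_mul]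
    · exact (inv_pos.2 (G6_pos hz0 hz1 a fun j => (hw j).1)).le
    · have : 0 < 1 - z := by linarith
      positivity
  have h5 : (Fintype.card J : ENNReal) * ENNReal.ofReal z ^ d *
      ((∏ j, (1 - ENNReal.ofReal z ^ h j)⁻¹) * ∏ j, (1 - ENNReal.ofReal z ^ h' j)⁻¹) =
      ENNReal.ofReal ((Fintype.card J : ℝ) * z ^ d *
        ((∏ j, (1 - z ^ h j))⁻¹ * (∏ j, (1 - z ^ h' j))⁻¹)) := by
    rw [G6_prod hz0 hz1 h hh, G6_prod hz0 hz1 h' hh', ENNReal.ofReal_mul, ENNReal.ofReal_mul,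
      ENNReal.ofReal_mul, ENNReal.ofReal_natCast, ENNReal.ofReal_pow hz0.le]
    · exact (inv_pos.2 (G6_pos hz0 hz1 h hh)).le
    · positivity
    · positivity
  have hPA := G6_pos hz0 hz1 a fun j => (hw j).1
  have hPA' := G6_pos hz0 hz1 a' fun j => (hw j).2.1
  have hPH := G6_pos hz0 hz1 h hh
  have hPH' := G6_pos hz0 hz1 h' hh'
  have hz : 0 < 1 - z := by linarith
  have h6 : (Fintype.card J : ℝ) * z ^ d * ((∏ j, (1 - z ^ h j))⁻¹ * (∏ j, (1 - z ^ h' j))⁻¹) ≤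
      ((1 - z)⁻¹) ^ Fintype.card Ξ * ((∏ j, (1 - z ^ a j))⁻¹ * (∏ j, (1 - z ^ a' j))⁻¹) := by
    rw [h2, h3, h4, h5] at h1
    refine (ENNReal.ofReal_le_ofReal_iff ?_).1 h1
    positivity
  -- the ratio of one gate
  have hr : ∀ (m n : ℕ), 1 ≤ m → m ≤ n → (1 - z ^ n) / (1 - z ^ m) ≤ (n : ℝ) / m := by
    intro m n hm hmn
    have h7 := hG5 m n z hm hmn hz0.le hz1.le
    have h8 : z ^ m < 1 := pow_lt_one₀ hz0.le hz1 (by omega)
    have h9 : (0 : ℝ) < m := by exact_mod_cast hm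
    rw [div_le_div_iff₀ (by linarith) h9]
    linarith
  have hrn : ∀ (m n : ℕ), 1 ≤ m → m ≤ n → 0 ≤ (1 - z ^ n) / (1 - z ^ m) := by
    intro m n hm hmn
    have h8 : z ^ m < 1 := pow_lt_one₀ hz0.le hz1 (by omega)
    have h9 : z ^ n < 1 := pow_lt_one₀ hz0.le hz1 (by omega)
    exact div_nonneg (by linarith) (by linarith)
  calc (Fintype.card J : ℝ) * z ^ d * (1 - z) ^ Fintype.card Ξ
      = ((Fintype.card J : ℝ) * z ^ d *
          ((∏ j, (1 - z ^ h j))⁻¹ * (∏ j, (1 - z ^ h' j))⁻¹)) *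
          (((∏ j, (1 - z ^ h j)) * ∏ j, (1 - z ^ h' j)) * (1 - z) ^ Fintype.card Ξ) := by
        field_simp
    _ ≤ (((1 - z)⁻¹) ^ Fintype.card Ξ * ((∏ j, (1 - z ^ a j))⁻¹ * (∏ j, (1 - z ^ a' j))⁻¹)) *
          (((∏ j, (1 - z ^ h j)) * ∏ j, (1 - z ^ h' j)) * (1 - z) ^ Fintype.card Ξ) :=
        mul_le_mul_of_nonneg_right h6 (by positivity)
    _ = ∏ j, (((1 - z ^ h j) / (1 - z ^ a j)) * ((1 - z ^ h' j) / (1 - z ^ a' j))) := by
        rw [Finset.prod_mul_distrib, Finset.prod_div_distrib, Finset.prod_div_distrib, inv_pow]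
        have hzk : (1 - z) ^ Fintype.card Ξ ≠ 0 := by positivity
        field_simp
    _ ≤ ∏ j, ((h j : ℝ) / a j * ((h' j : ℝ) / a' j)) := by
        refine Finset.prod_le_prod (fun j _ => ?_) fun j _ => ?_
        · exact mul_nonneg (hrn _ _ (hw j).1 (hw j).2.2.1) (hrn _ _ (hw j).2.1 (hw j).2.2.2)
        · exact mul_le_mul (hr _ _ (hw j).1 (hw j).2.2.1) (hr _ _ (hw j).2.1 (hw j).2.2.2)
            (hrn _ _ (hw j).2.1 (hw j).2.2.2) (by positivity)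

end Pool.Agent.Work.MP_499dc6_lc.SN
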