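import Pool.Agent.Work.MP_499dc6_lc.SN.Stmts

/-!
# Block SN, item AD: a triangular linear system (helper26)
-/

namespace Pool.Agent.Work.MP_499dc6_lc.SN

theorem AD_sum {T : Type} [CommRing T] {S : ℕ} (N : Fin S → Fin S → T)
    (hN : ∀ l j, ¬ j < l → N l j = 0) (la : Fin S → T) (j0 : Fin S) (x : T) (j : Fin S)
    (hj : ¬ j < j0) :
    ∑ l, Function.update la j0 x l * N l j = ∑ l, la l * N l j := by
  refine Finset.sum_congr rfl fun l _ => ?_
  by_cases h : l = j0
  · subst h
    rw [hN l j hj, mul_zero, mul_zero]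
  · rw [Function.update_of_ne h]

theorem sn_AD : StAD := by
  intro T _ S N hN r
  have main : ∀ n : ℕ, n ≤ S → ∃ la : Fin S → T,
      ∀ j : Fin S, S - n ≤ (j : ℕ) → la j = r j + ∑ l, la l * N l j := by
    intro n
    induction n with
    | zero =>
      intro _
      refine ⟨r, fun j hj => ?_⟩
      have := j.isLt
      omega
    | succ n ih =>
      intro hn
      obtain ⟨la, hla⟩ := ih (by omega)
      have h0 : S - (n + 1) < S := by omega
      refine ⟨Function.update la ⟨S - (n + 1), h0⟩
        (r ⟨S - (n + 1), h0⟩ + ∑ l, la l * N l ⟨S - (n + 1), h0⟩), fun j hj => ?_⟩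
      by_cases h : j = ⟨S - (n + 1), h0⟩
      · subst h
        rw [AD_sum N hN la _ _ _ (lt_irrefl _), Function.update_self]
      · have h1 : S - n ≤ (j : ℕ) := by
          have h2 : (j : ℕ) ≠ S - (n + 1) := fun h3 => h (Fin.ext h3)
          omega
        have h4 : ¬ j < (⟨S - (n + 1), h0⟩ : Fin S) := by
          rw [Fin.lt_def]
          simp only
          omega
        rw [AD_sum N hN la _ _ j h4, Function.update_of_ne h]
        exact hla j h1
  obtain ⟨la, hla⟩ := main S le_rfl
  exact ⟨la, fun j => hla j (by omega)⟩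

end Pool.Agent.Work.MP_499dc6_lc.SN
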