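import Pool.Agent.Work.MP_499dc6_lc.SN.Stmts

set_option autoImplicit false

open MvPolynomial

namespace Pool.Agent.Work.MP_499dc6_lc.SN

theorem sn_G1 : StG1 := by
  intro O σ A _ _ _ w _ F δ hF hW n
  let B : Set (σ →₀ ℕ) := {μ : σ →₀ ℕ | ∑ i, w i * μ i ≤ n}
  let A' : Set A := {a | δ a ≤ n}
  have hmem : ∀ a : A', F a.1 ∈ restrictSupport O B := by
    intro a
    rw [mem_restrictSupport_iff]
    intro μ hμ
    exact le_trans (hW a.1 μ hμ) a.2
  let G : A' → restrictSupport O B := fun a => ⟨F a.1, hmem a⟩
  have hG : LinearIndependent O G := by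
    refine LinearIndependent.of_comp (Submodule.subtype _) ?_
    exact hF.comp (fun a : A' => a.1) Subtype.val_injective
  have h1 : Cardinal.mk A' ≤ Module.rank O (restrictSupport O B) := hG.cardinal_le_rank
  have h2 : Cardinal.mk B = Module.rank O (restrictSupport O B) :=
    (basisRestrictSupport O B).mk_eq_rank''
  rw [← h2] at h1
  have h3 : ENat.card A' ≤ ENat.card B := by
    unfold ENat.card
    exact OrderHomClass.mono Cardinal.toENat h1
  exact h3

end Pool.Agent.Work.MP_499dc6_lc.SN
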