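import Pool.Agent.Work.MP_499dc6_lc.SN.Stmts

/-!
THEOREM SN, item G2: comparison of generating functions.
-/

open MvPolynomial

namespace Pool.Agent.Work.MP_499dc6_lc.SN

/-- a power as a tail of the geometric series -/
lemma G2_pow (z : ENNReal) (hz : z < 1) (d : ℕ) :
    z ^ d = (1 - z) * ∑' n : ℕ, (if d ≤ n then z ^ n else 0) := by
  have h1 : ∑' k : ℕ, (fun n : ℕ => if d ≤ n then z ^ n else 0) (k + d) =
      ∑' n : ℕ, (if d ≤ n then z ^ n else 0) := by
    refine Function.Injective.tsum_eq (f := fun n : ℕ => if d ≤ n then z ^ n else 0)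
      (g := fun k : ℕ => k + d) (fun a b h => by simpa using h) ?_
    intro n hn
    rw [Function.mem_support] at hn
    have hd : d ≤ n := by
      by_contra h
      exact hn (if_neg h)
    exact ⟨n - d, Nat.sub_add_cancel hd⟩
  have h2 : ∀ k : ℕ, (fun n : ℕ => if d ≤ n then z ^ n else 0) (k + d) = z ^ k * z ^ d := by
    intro k
    show (if d ≤ k + d then z ^ (k + d) else 0) = _
    rw [if_pos (Nat.le_add_left d k), pow_add]
  rw [← h1, tsum_congr h2, ENNReal.tsum_mul_right, ENNReal.tsum_geometric, ← mul_assoc,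
    ENNReal.mul_inv_cancel, one_mul]
  · exact (tsub_pos_of_lt hz).ne'
  · exact ne_top_of_le_ne_top ENNReal.one_ne_top tsub_le_self

/-- the generating function by Abel summation -/
lemma G2_abel (A : Type) (δ : A → ℕ) (z : ENNReal) (hz : z < 1) :
    ∑' a, z ^ δ a = (1 - z) * ∑' n : ℕ, ({a | δ a ≤ n}.encard : ENNReal) * z ^ n := by
  rw [tsum_congr fun a => G2_pow z hz (δ a), ENNReal.tsum_mul_left, ENNReal.tsum_comm]
  congr 1
  refine tsum_congr fun n => ?_
  rw [← ENNReal.tsum_set_const, tsum_subtype {a | δ a ≤ n} fun _ => z ^ n]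
  refine tsum_congr fun a => ?_
  rw [Set.indicator_apply]
  rfl

theorem sn_G2 : StG2 := by
  intro A B δ w h z hz
  rw [G2_abel A δ z hz, G2_abel B w z hz]
  refine mul_le_mul' le_rfl (ENNReal.tsum_le_tsum fun n => mul_le_mul' ?_ le_rfl)
  exact_mod_cast h n

end Pool.Agent.Work.MP_499dc6_lc.SN
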