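import Mathlib
import Pool.Agent.Work.MP_499dc6_lc.SN.Stmts

/-!
THEOREM SN, item G3: product of geometric series.
-/

namespace Pool.Agent.Work.MP_499dc6_lc.SN

theorem G3_fin (z : ENNReal) : ∀ (n : ℕ) (w : Fin n → ℕ),
    ∑' μ : Fin n → ℕ, z ^ (∑ i, w i * μ i) = ∏ i, (1 - z ^ w i)⁻¹ := by
  intro n
  induction n with
  | zero =>
    intro w
    rw [tsum_eq_single (default : Fin 0 → ℕ)
      (fun b hb => absurd (Subsingleton.elim b default) hb)]
    simp
  | succ n ih =>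
    intro w
    rw [← (Fin.consEquiv (fun _ : Fin (n + 1) => ℕ)).tsum_eq, ENNReal.tsum_prod', Fin.prod_univ_succ]
    have h1 : ∀ (a : ℕ) (b : Fin n → ℕ),
        z ^ (∑ i, w i * (Fin.consEquiv (fun _ : Fin (n + 1) => ℕ)) (a, b) i) =
        (z ^ w 0) ^ a * z ^ (∑ i : Fin n, w i.succ * b i) := by
      intro a b
      rw [Fin.sum_univ_succ, pow_add, ← pow_mul]
      rfl
    have h2 : ∀ a : ℕ, ∑' b : Fin n → ℕ,
        z ^ (∑ i, w i * (Fin.consEquiv (fun _ : Fin (n + 1) => ℕ)) (a, b) i) =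
        (z ^ w 0) ^ a * ∏ i : Fin n, (1 - z ^ w i.succ)⁻¹ := by
      intro a
      rw [← ih (fun i => w i.succ), ← ENNReal.tsum_mul_left]
      exact tsum_congr fun b => h1 a b
    refine (tsum_congr h2).trans ?_
    rw [ENNReal.tsum_mul_right, ENNReal.tsum_geometric]

theorem G3_fun (z : ENNReal) (σ : Type) [Fintype σ] (w : σ → ℕ) :
    ∑' μ : σ → ℕ, z ^ (∑ i, w i * μ i) = ∏ i, (1 - z ^ w i)⁻¹ := by
  classical
  let e := Fintype.equivFin σ
  rw [← (Equiv.arrowCongr e.symm (Equiv.refl ℕ)).tsum_eq]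
  have h1 : ∀ μ : Fin (Fintype.card σ) → ℕ,
      z ^ (∑ i, w i * (Equiv.arrowCongr e.symm (Equiv.refl ℕ)) μ i) =
      z ^ (∑ k, w (e.symm k) * μ k) := by
    intro μ
    congr 1
    rw [← Equiv.sum_comp e (fun k => w (e.symm k) * μ k)]
    refine Finset.sum_congr rfl fun i _ => ?_
    rw [Equiv.symm_apply_apply]
    rfl
  refine (tsum_congr h1).trans ?_
  rw [G3_fin z (Fintype.card σ) (fun k => w (e.symm k)), ← Equiv.prod_comp e]
  refine Finset.prod_congr rfl fun i _ => ?_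
  rw [Equiv.symm_apply_apply]

theorem sn_G3 : StG3 := by
  intro σ _ w z
  rw [← G3_fun z σ w, ← Finsupp.equivFunOnFinite.tsum_eq]
  rfl

end Pool.Agent.Work.MP_499dc6_lc.SN
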