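import Pool.Agent.Work.MP_499dc6_lc.SN.Stmts

/-! THEOREM SN, item G5. -/

namespace Pool.Agent.Work.MP_499dc6_lc.SN

theorem G5_aux (a : ℕ) (z : ℝ) (h0 : 0 ≤ z) (h1 : z ≤ 1) :
    (a : ℝ) * z ^ a * (1 - z) ≤ 1 - z ^ a := by
  have e := mul_neg_geom_sum z a
  rw [← e]
  have h2 : (a : ℝ) * z ^ a ≤ ∑ i ∈ Finset.range a, z ^ i := by
    calc (a : ℝ) * z ^ a = ∑ _i ∈ Finset.range a, z ^ a := by simp
      _ ≤ ∑ i ∈ Finset.range a, z ^ i :=
        Finset.sum_le_sum fun i hi =>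
          pow_le_pow_of_le_one h0 h1 (Finset.mem_range.mp hi).le
  nlinarith [sub_nonneg.mpr h1]

theorem sn_G5 : StG5 := by
  intro a h z ha hah h0 h1
  induction h, hah using Nat.le_induction with
  | base => exact le_rfl
  | succ n hn ih =>
    have h2 : z ^ n ≤ z ^ a := pow_le_pow_of_le_one h0 h1 hn
    have h3 := G5_aux a z h0 h1
    have h4 : (a : ℝ) * (z ^ n * (1 - z)) ≤ a * (z ^ a * (1 - z)) := by
      apply mul_le_mul_of_nonneg_left _ (Nat.cast_nonneg a)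
      exact mul_le_mul_of_nonneg_right h2 (sub_nonneg.mpr h1)
    have h5 : (a : ℝ) * (1 - z ^ (n + 1)) = a * (1 - z ^ n) + a * (z ^ n * (1 - z)) := by ring
    have h6 : ((n + 1 : ℕ) : ℝ) * (1 - z ^ a) = n * (1 - z ^ a) + (1 - z ^ a) := by
      push_cast
      ring
    rw [h5, h6]
    linarith

end Pool.Agent.Work.MP_499dc6_lc.SN
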