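import Mathlib
import Pool.Agent.Work.MP_499dc6_lc.SN.Stmts

/-!
Block SN, item G7: the limit.
-/

namespace Pool.Agent.Work.MP_499dc6_lc.SN

open Filter Topology

theorem G7_fact (k : ℕ) (hk : 1 ≤ k) :
    ((Nat.factorial k : ℕ) : ℝ) * Real.exp 1 ^ k ≤ Real.exp 1 * k * (k : ℝ) ^ k := by
  induction k, hk using Nat.le_induction with
  | base => simp
  | succ k hk ih =>
    have hk0 : (0 : ℝ) < k := by exact_mod_cast hk
    have h1 : (k : ℝ) / (k + 1) ≤ Real.exp (-(1 / ((k : ℝ) + 1))) := by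
      have h2 := Real.add_one_le_exp (-(1 / ((k : ℝ) + 1)))
      have h3 : -(1 / ((k : ℝ) + 1)) + 1 = (k : ℝ) / (k + 1) := by
        field_simp
        ring
      linarith
    have h4 : ((k : ℝ) / (k + 1)) ^ (k + 1) ≤ (Real.exp 1)⁻¹ := by
      have h5 := pow_le_pow_left₀ (by positivity) h1 (k + 1)
      rw [← Real.exp_nat_mul] at h5
      have h6 : ((k + 1 : ℕ) : ℝ) * -(1 / ((k : ℝ) + 1)) = -1 := by
        push_cast
        field_simp
      rw [h6, Real.exp_neg] at h5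
      exact h5
    have h7 : Real.exp 1 * (k : ℝ) ^ (k + 1) ≤ ((k : ℝ) + 1) ^ (k + 1) := by
      rw [div_pow, div_le_iff₀ (by positivity)] at h4
      have he : 0 < Real.exp 1 := Real.exp_pos 1
      calc Real.exp 1 * (k : ℝ) ^ (k + 1) ≤ Real.exp 1 * ((Real.exp 1)⁻¹ * ((k : ℝ) + 1) ^ (k + 1)) :=
            mul_le_mul_of_nonneg_left h4 he.le
        _ = ((k : ℝ) + 1) ^ (k + 1) := by
            rw [← mul_assoc, mul_inv_cancel₀ he.ne', one_mul]
    have he : 0 < Real.exp 1 := Real.exp_pos 1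
    rw [Nat.factorial_succ]
    push_cast
    calc ((k : ℝ) + 1) * (Nat.factorial k : ℝ) * Real.exp 1 ^ (k + 1)
        = ((k : ℝ) + 1) * Real.exp 1 * ((Nat.factorial k : ℝ) * Real.exp 1 ^ k) := by ring
      _ ≤ ((k : ℝ) + 1) * Real.exp 1 * (Real.exp 1 * k * (k : ℝ) ^ k) :=
          mul_le_mul_of_nonneg_left ih (by positivity)
      _ = ((k : ℝ) + 1) * Real.exp 1 * (Real.exp 1 * (k : ℝ) ^ (k + 1)) := by ring
      _ ≤ ((k : ℝ) + 1) * Real.exp 1 * (((k : ℝ) + 1) ^ (k + 1)) :=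
          mul_le_mul_of_nonneg_left h7 (by positivity)
      _ = Real.exp 1 * ((k : ℝ) + 1) * ((k : ℝ) + 1) ^ (k + 1) := by ring

theorem G7_choose (M k : ℕ) :
    (M : ℝ) ^ k ≤ (Nat.factorial k : ℝ) * (((M + k).choose k : ℕ) : ℝ) := by
  have h1 : (M + 1) ^ k ≤ (M + 1).ascFactorial k := Nat.pow_succ_le_ascFactorial (M + 1) k
  rw [Nat.ascFactorial_eq_factorial_mul_choose] at h1
  have h2 : M ^ k ≤ (M + 1) ^ k := Nat.pow_le_pow_left (by omega) k
  exact_mod_cast h2.trans h1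

theorem sn_G7 : StG7 := by
  intro D D0 g k Pi hg hk hyp
  have hg0 : (0 : ℝ) < g := by exact_mod_cast hg
  have hk0 : (0 : ℝ) < k := by exact_mod_cast hk
  have hPi : 0 ≤ Pi := by
    have h1 := hyp 0 (1 / 2) (by norm_num) (by norm_num)
    exact le_trans (by positivity) h1
  set x : ℝ := (k : ℝ) / g with hx
  have hx0 : 0 < x := div_pos hk0 hg0
  have hf0 : (0 : ℝ) < (Nat.factorial k : ℝ) := by exact_mod_cast Nat.factorial_pos k
  -- the inequality for large `N`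
  have hN : ∀ᶠ N : ℕ in atTop, ((D : ℝ) * x) ^ k *
      ((1 + -x / N) ^ D0 * ((1 + -x / N) ^ N) ^ g) ≤ (Nat.factorial k : ℝ) * Pi := by
    filter_upwards [eventually_gt_atTop ⌈x⌉₊] with N hN
    have hxN : x < N := (Nat.lt_of_ceil_lt hN)
    have hN0 : (0 : ℝ) < N := hx0.trans hxN
    have hz0 : 0 < 1 + -x / (N : ℝ) := by
      have : x / N < 1 := (div_lt_one hN0).2 hxN
      rw [neg_div]
      linarith
    have hz1 : 1 + -x / (N : ℝ) < 1 := by
      have : 0 < x / N := div_pos hx0 hN0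
      rw [neg_div]
      linarith
    have h1 := hyp N (1 + -x / N) hz0 hz1
    have h2 := G7_choose (D * N) k
    push_cast at h2
    have h3 : 1 - (1 + -x / (N : ℝ)) = x / N := by ring
    rw [h3] at h1
    have h4 : ((D : ℝ) * x) ^ k * ((1 + -x / N) ^ D0 * ((1 + -x / N) ^ N) ^ g) =
        ((D : ℝ) * N) ^ k * ((1 + -x / (N : ℝ)) ^ (D0 + g * N) * (x / N) ^ k) := by
      have h5 : ((D : ℝ) * x) ^ k = ((D : ℝ) * N) ^ k * (x / N) ^ k := by
        rw [← mul_pow]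
        congr 1
        field_simp
      rw [h5, pow_add, ← pow_mul, mul_comm N g]
      ring
    rw [h4]
    calc ((D : ℝ) * N) ^ k * ((1 + -x / (N : ℝ)) ^ (D0 + g * N) * (x / N) ^ k)
        ≤ ((Nat.factorial k : ℝ) * (((D * N + k).choose k : ℕ) : ℝ)) *
          ((1 + -x / (N : ℝ)) ^ (D0 + g * N) * (x / N) ^ k) :=
          mul_le_mul_of_nonneg_right h2 (by positivity)
      _ = (Nat.factorial k : ℝ) * ((((D * N + k).choose k : ℕ) : ℝ) *
          (1 + -x / (N : ℝ)) ^ (D0 + g * N) * (x / N) ^ k) := by ring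
      _ ≤ (Nat.factorial k : ℝ) * Pi := mul_le_mul_of_nonneg_left h1 hf0.le
  have hlim : Tendsto (fun N : ℕ => ((D : ℝ) * x) ^ k *
      ((1 + -x / (N : ℝ)) ^ D0 * ((1 + -x / (N : ℝ)) ^ N) ^ g)) atTop
      (𝓝 (((D : ℝ) * x) ^ k * (1 * Real.exp (-x) ^ g))) := by
    apply Tendsto.const_mul
    apply Tendsto.mul
    · have h1 : Tendsto (fun N : ℕ => 1 + -x / (N : ℝ)) atTop (𝓝 (1 + 0)) :=
        tendsto_const_nhds.add (tendsto_const_div_atTop_nhds_zero_nat (-x))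
      rw [add_zero] at h1
      have h2 := h1.pow D0
      rw [one_pow] at h2
      exact h2
    · exact (Real.tendsto_one_add_div_pow_exp (-x)).pow g
  have hkey := le_of_tendsto hlim hN
  rw [one_mul, ← Real.exp_nat_mul] at hkey
  have hgx : (g : ℝ) * -x = -(k : ℝ) := by
    rw [hx]
    field_simp
  rw [hgx, Real.exp_neg] at hkey
  have hek : Real.exp (k : ℝ) = Real.exp 1 ^ k := by
    rw [← Real.exp_nat_mul, mul_one]
  rw [hek, ← div_eq_mul_inv, div_le_iff₀ (by positivity)] at hkey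
  have h8 := G7_fact k hk
  have h9 : ((D : ℝ) * x) ^ k = (D : ℝ) ^ k * (k : ℝ) ^ k / (g : ℝ) ^ k := by
    rw [hx, mul_pow, div_pow]
    ring
  rw [h9, div_le_iff₀ (by positivity)] at hkey
  have hkk : (0 : ℝ) < (k : ℝ) ^ k := by positivity
  have h10 : (D : ℝ) ^ k * (k : ℝ) ^ k ≤ (Real.exp 1 * k * (g : ℝ) ^ k * Pi) * (k : ℝ) ^ k := by
    calc (D : ℝ) ^ k * (k : ℝ) ^ k ≤ (Nat.factorial k : ℝ) * Pi * Real.exp 1 ^ k * (g : ℝ) ^ k :=
          hkey
      _ = ((Nat.factorial k : ℝ) * Real.exp 1 ^ k) * (Pi * (g : ℝ) ^ k) := by ring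
      _ ≤ (Real.exp 1 * k * (k : ℝ) ^ k) * (Pi * (g : ℝ) ^ k) :=
          mul_le_mul_of_nonneg_right h8 (by positivity)
      _ = _ := by ring
  exact le_of_mul_le_mul_right h10 hkk

end Pool.Agent.Work.MP_499dc6_lc.SN
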