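import Mathlib
import Pool.Agent.Work.MP_499dc6_lc.SN.Stmts

/-!
# Item GI: the gradient identity of Baur and Strassen
-/

open MvPolynomial

namespace Pool.Agent.Work.MP_499dc6_lc.SN

theorem GI_comp {O V T : Type} [CommRing O] [CommRing T] [Algebra O T] {S : ℕ}
    (f : Fin S → MvPolynomial V O) (x : V → T) (q : MvPolynomial (V ⊕ Fin S) O) :
    aeval x (ev X f q) = ev x (fun i => aeval x (f i)) q := by
  rw [ev, ev, comp_aeval_apply]
  congr 2
  ext i
  rcases i with i | i
  · simp
  · simp

theorem GI_sum {T : Type} [CommRing T] {S : ℕ} (s : Fin S) (la A d : Fin S → T)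
    (B : Fin S → Fin S → T) (hd : ∀ l, d l = A l + ∑ j, B l j * d j)
    (hla : ∀ j, la j = (if j = s then 1 else 0) + ∑ l, la l * B l j) :
    ∑ l, la l * A l = d s := by
  have h1 : ∑ l, la l * d l = ∑ l, la l * A l + ∑ j, (∑ l, la l * B l j) * d j := by
    have h2 : ∑ j, (∑ l, la l * B l j) * d j = ∑ l, ∑ j, la l * (B l j * d j) := by
      rw [Finset.sum_comm]
      refine Finset.sum_congr rfl fun j _ => ?_
      rw [Finset.sum_mul]
      refine Finset.sum_congr rfl fun l _ => ?_
      ring
    rw [h2, ← Finset.sum_add_distrib]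
    refine Finset.sum_congr rfl fun l _ => ?_
    conv_lhs => rw [hd l]
    rw [mul_add, Finset.mul_sum]
  have h3 : ∑ j, la j * d j = d s + ∑ j, (∑ l, la l * B l j) * d j := by
    have h4 : ∀ j, la j * d j = (if j = s then d j else 0) + (∑ l, la l * B l j) * d j := by
      intro j
      conv_lhs => rw [hla j]
      rw [add_mul]
      split_ifs <;> simp
    rw [Finset.sum_congr rfl fun j _ => h4 j, Finset.sum_add_distrib]
    simp
  have h5 := h1.symm.trans h3
  exact add_right_cancel h5

/-- Item GI. -/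
theorem sn_GI (hCR : StCR) (hUQ : StUQ) : StGI := by
  intro O V T _ _ _ S Q hQ f hf s x v hv la hla u
  have hvf : (fun j => aeval x (f j)) = v := by
    refine hUQ O V T S Q hQ x _ _ (fun j => ?_) hv
    show aeval x (f j) = _
    rw [← GI_comp, ← hf j]
  have hd : ∀ l, aeval x (pderiv u (f l)) = ev x v (pderiv (Sum.inl u) (Q l)) +
      ∑ j, ev x v (pderiv (Sum.inr j) (Q l)) * aeval x (pderiv u (f j)) := by
    intro l
    have h := congrArg (aeval x) (hCR O V S f (Q l) u)
    rw [← hf l, map_add, map_sum] at h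
    simp only [map_mul, GI_comp, hvf] at h
    exact h
  exact GI_sum s la _ (fun l => aeval x (pderiv u (f l))) _ hd hla

end Pool.Agent.Work.MP_499dc6_lc.SN
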