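import Mathlib
import Pool.Agent.Work.MP_499dc6_lc.SN.Stmts

/-!
Item L1 of block SN: the weight of an exponent of a gate polynomial.
-/

namespace Pool.Agent.Work.MP_499dc6_lc.SN

theorem L1_main {V : Type} [Fintype V] {S : ℕ} (lev : Fin S → ℕ) (s : ℕ → ℕ) (hs : Monotone s)
    (h0 : 1 ≤ s 0) (L : ℕ) (μ : V ⊕ Fin S →₀ ℕ) (hlev : ∀ i, μ (Sum.inr i) ≠ 0 → lev i ≤ L) :
    wq (fun i => s (lev i)) μ ≤
      s (L - 1) * (∑ v, μ (Sum.inl v) + ∑ i with ¬ lev i = L, μ (Sum.inr i)) +
        s L * ∑ i with lev i = L, μ (Sum.inr i) := by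
  unfold wq
  have h1 : (∑ i, s (lev i) * μ (Sum.inr i)) =
      (∑ i with lev i = L, s (lev i) * μ (Sum.inr i)) +
        ∑ i with ¬ lev i = L, s (lev i) * μ (Sum.inr i) :=
    (Finset.sum_filter_add_sum_filter_not _ _ _).symm
  have h2 : (∑ i with lev i = L, s (lev i) * μ (Sum.inr i)) =
      s L * ∑ i with lev i = L, μ (Sum.inr i) := by
    rw [Finset.mul_sum]
    refine Finset.sum_congr rfl fun i hi => ?_
    rw [(Finset.mem_filter.mp hi).2]
  have h3 : (∑ i with ¬ lev i = L, s (lev i) * μ (Sum.inr i)) ≤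
      s (L - 1) * ∑ i with ¬ lev i = L, μ (Sum.inr i) := by
    rw [Finset.mul_sum]
    refine Finset.sum_le_sum fun i hi => ?_
    by_cases hz : μ (Sum.inr i) = 0
    · simp [hz]
    · have hl := hlev i hz
      have hn := (Finset.mem_filter.mp hi).2
      exact Nat.mul_le_mul_right _ (hs (by omega))
  have h4 : (∑ v, μ (Sum.inl v)) ≤ s (L - 1) * ∑ v, μ (Sum.inl v) :=
    Nat.le_mul_of_pos_left _ (lt_of_lt_of_le Nat.zero_lt_one (h0.trans (hs (Nat.zero_le _))))
  rw [h1, h2, Nat.mul_add]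
  omega

theorem sn_L1 : StL1 := by
  intro V _ S lev s hs h0 L μ _hL hlev hone
  have hm := L1_main lev s hs h0 L μ hlev
  have hsplit : (∑ i, μ (Sum.inr i)) = (∑ i with lev i = L, μ (Sum.inr i)) +
      ∑ i with ¬ lev i = L, μ (Sum.inr i) :=
    (Finset.sum_filter_add_sum_filter_not _ _ _).symm
  have hmono : s (L - 1) ≤ s L := hs (Nat.sub_le _ _)
  rw [hsplit]
  generalize (∑ i with lev i = L, μ (Sum.inr i)) = B at *
  generalize (∑ i with ¬ lev i = L, μ (Sum.inr i)) = D at *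
  generalize (∑ v, μ (Sum.inl v)) = A at *
  have hB : B = 0 ∨ B = 1 := by omega
  refine ⟨fun h => hm.trans ?_, fun h => hm.trans ?_, fun h hz => hm.trans ?_⟩
  · rcases hB with hB | hB
    · subst hB
      have : s (L - 1) * (A + D) ≤ s (L - 1) * 2 := Nat.mul_le_mul_left _ (by omega)
      omega
    · subst hB
      have : s (L - 1) * (A + D) ≤ s (L - 1) * 1 := Nat.mul_le_mul_left _ (by omega)
      omega
  · rcases hB with hB | hB
    · subst hB
      have : s (L - 1) * (A + D) ≤ s (L - 1) * 1 := Nat.mul_le_mul_left _ (by omega)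
      omega
    · subst hB
      have h' : A + D = 0 := by omega
      rw [h']
      omega
  · subst hz
    have : s (L - 1) * (A + D) ≤ s (L - 1) * 1 := Nat.mul_le_mul_left _ (by omega)
    omega

end Pool.Agent.Work.MP_499dc6_lc.SN
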