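import Mathlib
import Pool.Agent.Work.MP_499dc6_lc.SN.Stmts

open MvPolynomial

namespace Pool.Agent.Work.MP_499dc6_lc.SN

/-- **L2**: the exponents of a partial derivative -/
theorem sn_L2 : StL2 := by
  intro O σ _ i q μ hμ
  rw [mem_support_iff] at hμ ⊢
  intro h
  apply hμ
  rw [coeff_pderiv, h]
  simp

end Pool.Agent.Work.MP_499dc6_lc.SN
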