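import Pool.Agent.Work.MP_499dc6_lc.SN.Stmts

/-!
Item N1 of block SN: the product over the gates of the factors `1 + 1 / z`.
-/

namespace Pool.Agent.Work.MP_499dc6_lc.SN

theorem N1_zz_pos {S : ℕ} (lev : Fin S → ℕ) (k σ : ℕ) : 0 < zz lev k σ := Nat.succ_pos _

theorem N1_ss_pos {S : ℕ} (lev : Fin S → ℕ) (k L : ℕ) : 0 < ss lev k L :=
  Finset.prod_pos fun _ _ => N1_zz_pos lev k _

theorem N1_ratio {S : ℕ} (lev : Fin S → ℕ) (k : ℕ) (j : Fin S) (hj : 1 ≤ lev j) :
    ((wh (ss lev k) lev j : ℕ) : ℝ) / ((wa (ss lev k) lev j : ℕ) : ℝ) =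
      1 + 1 / (zz lev k (lev j) : ℝ) := by
  obtain ⟨L, hL⟩ : ∃ L, lev j = L + 1 := ⟨lev j - 1, by omega⟩
  have hs : ss lev k (L + 1) = ss lev k L * zz lev k (L + 1) := by
    rw [ss, ss, Finset.prod_range_succ]
  have hp : (0 : ℝ) < (ss lev k L : ℝ) := by exact_mod_cast N1_ss_pos lev k L
  have hz : (0 : ℝ) < (zz lev k (L + 1) : ℝ) := by exact_mod_cast N1_zz_pos lev k (L + 1)
  rw [wh, wa, hL, Nat.add_sub_cancel, hs]
  push_cast
  field_simp
  ring

theorem sn_N1 : StN1 := by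
  intro S t k lev hlev
  have h1 : ∀ j ∈ (Finset.univ : Finset (Fin S)), lev j - 1 ∈ Finset.range t := by
    intro j _
    have := hlev j
    rw [Finset.mem_range]
    omega
  calc ∏ j, ((wh (ss lev k) lev j : ℕ) : ℝ) / ((wa (ss lev k) lev j : ℕ) : ℝ)
      = ∏ j, (1 + 1 / (zz lev k (lev j) : ℝ)) :=
        Finset.prod_congr rfl fun j _ => N1_ratio lev k j (hlev j).1
    _ = ∏ σ ∈ Finset.range t, ∏ j ∈ Finset.univ.filter (fun j => lev j - 1 = σ),
          (1 + 1 / (zz lev k (lev j) : ℝ)) :=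
        (Finset.prod_fiberwise_of_maps_to h1 _).symm
    _ = ∏ σ ∈ Finset.range t, (1 + 1 / (zz lev k (σ + 1) : ℝ)) ^ nn lev (σ + 1) := by
        refine Finset.prod_congr rfl fun σ _ => ?_
        have h2 : Finset.univ.filter (fun j : Fin S => lev j - 1 = σ) =
            Finset.univ.filter (fun j : Fin S => lev j = σ + 1) := by
          refine Finset.filter_congr fun j _ => ?_
          have := hlev j
          omega
        rw [h2, nn, ← Finset.prod_const]
        refine Finset.prod_congr rfl fun j hj => ?_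
        rw [(Finset.mem_filter.1 hj).2]

end Pool.Agent.Work.MP_499dc6_lc.SN
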