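import Mathlib
import Pool.Agent.Work.MP_499dc6_lc.SN.Stmts

/-! Item N2: the product of the adjoint factors. -/

namespace Pool.Agent.Work.MP_499dc6_lc.SN

theorem N2_ss_pos {S : ℕ} (lev : Fin S → ℕ) (k σ : ℕ) : 1 ≤ ss lev k σ :=
  Finset.prod_pos fun _ _ => Nat.succ_pos _

theorem sn_N2 : StN2 := by
  intro S t k lev hk
  set q := ss lev k (t - 1) with hq
  have hq1 : 1 ≤ q := N2_ss_pos lev k (t - 1)
  set z : ℝ := ((S / k + 1 : ℕ) : ℝ) with hz
  have hz0 : 0 < z := by rw [hz]; exact_mod_cast Nat.succ_pos _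
  have hqR : (0 : ℝ) < (q : ℝ) := by exact_mod_cast hq1
  have hfac : ∀ j : Fin S, ((wh' (ss lev k) ((S / k + 1) * q) t lev j : ℕ) : ℝ) /
      ((wa' (ss lev k) ((S / k + 1) * q) t lev j : ℕ) : ℝ) ≤ 1 + 1 / z := by
    intro j
    have h1 : (wh' (ss lev k) ((S / k + 1) * q) t lev j : ℕ) =
        wa' (ss lev k) ((S / k + 1) * q) t lev j + q := rfl
    have h2 : (S / k + 1) * q ≤ wa' (ss lev k) ((S / k + 1) * q) t lev j := Nat.le_add_right _ _
    set A := wa' (ss lev k) ((S / k + 1) * q) t lev j with hA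
    have h3 : z * (q : ℝ) ≤ (A : ℝ) := by rw [hz]; exact_mod_cast h2
    have h4 : (0 : ℝ) < (A : ℝ) := lt_of_lt_of_le (mul_pos hz0 hqR) h3
    rw [h1, Nat.cast_add, add_div, div_self h4.ne']
    refine add_le_add le_rfl ?_
    rw [div_le_div_iff₀ h4 hz0]
    linarith [mul_comm z (q : ℝ)]
  have hpos : ∀ j : Fin S, 0 ≤ ((wh' (ss lev k) ((S / k + 1) * q) t lev j : ℕ) : ℝ) /
      ((wa' (ss lev k) ((S / k + 1) * q) t lev j : ℕ) : ℝ) := fun j => by positivity
  calc ∏ j, ((wh' (ss lev k) ((S / k + 1) * q) t lev j : ℕ) : ℝ) /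
      ((wa' (ss lev k) ((S / k + 1) * q) t lev j : ℕ) : ℝ)
      ≤ ∏ _j : Fin S, (1 + 1 / z) := Finset.prod_le_prod (fun j _ => hpos j) fun j _ => hfac j
    _ = (1 + 1 / z) ^ S := by simp
    _ ≤ (Real.exp (1 / z)) ^ S := by
        refine pow_le_pow_left₀ (by positivity) ?_ S
        linarith [Real.add_one_le_exp (1 / z)]
    _ = Real.exp (S * (1 / z)) := (Real.exp_nat_mul _ _).symm
    _ ≤ Real.exp k := by
        refine Real.exp_le_exp.2 ?_
        rw [mul_one_div, div_le_iff₀ hz0]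
        have h5 : S ≤ k * (S / k + 1) := by
          have := Nat.lt_mul_div_succ S (show 0 < k by omega)
          exact this.le
        rw [hz]
        exact_mod_cast h5

end Pool.Agent.Work.MP_499dc6_lc.SN
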