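import Pool.Agent.Work.MP_499dc6_lc.SN.Stmts

/-!
# Block SN, item N3: one level
-/

namespace Pool.Agent.Work.MP_499dc6_lc.SN

theorem sn_N3 : StN3 := by
  intro n k hk
  have hk0 : (0 : ℝ) < k := by exact_mod_cast hk
  have hn0 : (0 : ℝ) ≤ n := Nat.cast_nonneg n
  set x : ℝ := (n : ℝ) / k with hx
  have hx0 : 0 ≤ x := by positivity
  have hxk : x * k = n := by rw [hx]; field_simp
  have hr : 1 + 4.5 * (n : ℝ) / k = 1 + 4.5 * x := by rw [hx]; ring
  rw [hr]
  rcases lt_or_ge n k with h | h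
  · have h0 : n / k = 0 := Nat.div_eq_of_lt h
    have hx1 : x < 1 := by
      rw [hx, div_lt_one hk0]; exact_mod_cast h
    rw [h0]
    have e1 : (((0 + 1 : ℕ) : ℝ)) ^ k * (1 + 1 / ((0 + 1 : ℕ) : ℝ)) ^ n = 2 ^ n := by
      norm_num
    rw [e1]
    have e2 : (2 : ℝ) ^ n ≤ Real.exp 1 ^ n :=
      pow_le_pow_left₀ (by norm_num) (by linarith [Real.add_one_le_exp (1 : ℝ)]) n
    have e3 : Real.exp 1 ^ n = Real.exp x ^ k := by
      rw [← Real.exp_nat_mul, ← Real.exp_nat_mul, mul_one, mul_comm, hxk]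
    have e4 : Real.exp x ≤ 1 + 4.5 * x := by
      have h5 := abs_le.1 (Real.abs_exp_sub_one_sub_id_le (x := x) (by
        rw [abs_of_nonneg hx0]; exact hx1.le))
      nlinarith [h5.2]
    calc (2 : ℝ) ^ n ≤ Real.exp 1 ^ n := e2
      _ = Real.exp x ^ k := e3
      _ ≤ (1 + 4.5 * x) ^ k := pow_le_pow_left₀ (Real.exp_pos x).le e4 k
  · have hx1 : 1 ≤ x := by
      rw [hx, one_le_div hk0]; exact_mod_cast h
    set z : ℝ := ((n / k + 1 : ℕ) : ℝ) with hz
    have hz1 : x ≤ z := by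
      rw [hx, div_le_iff₀ hk0, hz]
      have h6 := Nat.div_add_mod n k
      have h66 := Nat.mod_lt n hk
      have h7 : n ≤ (n / k + 1) * k := by
        rw [add_mul, one_mul, mul_comm]; omega
      exact_mod_cast h7
    have hz2 : z ≤ 1 + x := by
      have h8 : (((n / k : ℕ) : ℝ)) ≤ x := Nat.cast_div_le
      rw [hz]; push_cast; linarith
    have hz0 : 0 < z := by linarith
    have h9 : (1 + 1 / z) ^ n ≤ Real.exp 1 ^ k := by
      have h10 : 1 + 1 / z ≤ Real.exp (1 / z) := by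
        have := Real.add_one_le_exp (1 / z); linarith
      calc (1 + 1 / z) ^ n ≤ Real.exp (1 / z) ^ n :=
            pow_le_pow_left₀ (by positivity) h10 n
        _ = Real.exp (n * (1 / z)) := by rw [← Real.exp_nat_mul]
        _ ≤ Real.exp (k * 1) := by
            apply Real.exp_le_exp.2
            rw [mul_one_div, div_le_iff₀ hz0, mul_one, ← hxk, mul_comm]
            exact mul_le_mul_of_nonneg_left hz1 hk0.le
        _ = Real.exp 1 ^ k := by rw [← Real.exp_nat_mul]
    have h11 : z * Real.exp 1 ≤ 1 + 4.5 * x := by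
      have he := Real.exp_one_lt_d9
      have he0 := Real.exp_pos 1
      have h12 : z * Real.exp 1 ≤ (1 + x) * Real.exp 1 := mul_le_mul_of_nonneg_right hz2 he0.le
      have h13 : (1 + x) * Real.exp 1 ≤ (1 + x) * 2.7182818286 :=
        mul_le_mul_of_nonneg_left he.le (by linarith)
      nlinarith
    calc z ^ k * (1 + 1 / z) ^ n ≤ z ^ k * Real.exp 1 ^ k :=
          mul_le_mul_of_nonneg_left h9 (by positivity)
      _ = (z * Real.exp 1) ^ k := by rw [mul_pow]
      _ ≤ (1 + 4.5 * x) ^ k := pow_le_pow_left₀ (by positivity) h11 k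

end Pool.Agent.Work.MP_499dc6_lc.SN
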