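import Pool.Agent.Work.MP_499dc6_lc.SN.Stmts

/-!
# Block SN, item N5: AM-GM for the levels
-/

set_option autoImplicit false

namespace Pool.Agent.Work.MP_499dc6_lc.SN

theorem N5_amgm (t : ℕ) (z : ℕ → ℝ) (ht : 1 ≤ t) (hz : ∀ i, 0 ≤ z i) :
    ∏ i ∈ Finset.range t, z i ≤ ((∑ i ∈ Finset.range t, z i) / t) ^ t := by
  have ht0 : (0 : ℝ) < t := by exact_mod_cast ht
  have h := Real.geom_mean_le_arith_mean (Finset.range t) (fun _ => (1 : ℝ)) z
    (fun _ _ => zero_le_one) (by simp; omega) (fun i _ => hz i)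
  simp only [Real.rpow_one, one_mul, Finset.sum_const, Finset.card_range, nsmul_eq_mul,
    mul_one] at h
  have hP : 0 ≤ ∏ i ∈ Finset.range t, z i := Finset.prod_nonneg fun i _ => hz i
  calc ∏ i ∈ Finset.range t, z i = ((∏ i ∈ Finset.range t, z i) ^ ((t : ℝ)⁻¹)) ^ t := by
        rw [← Real.rpow_natCast, ← Real.rpow_mul hP, inv_mul_cancel₀ ht0.ne', Real.rpow_one]
    _ ≤ ((∑ i ∈ Finset.range t, z i) / t) ^ t :=
        pow_le_pow_left₀ (Real.rpow_nonneg hP _) h t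

theorem sn_N5 : StN5 := by
  intro t x r ht hx hr hs
  obtain ⟨m, rfl⟩ : ∃ m, t = m + 1 := ⟨t - 1, by omega⟩
  rw [Nat.add_sub_cancel] at hs ⊢
  have hm0 : (0 : ℝ) < ((m + 1 : ℕ) : ℝ) := by positivity
  set z : ℕ → ℝ := fun i => if i = 0 then 1 + x else 1 + 4.5 * r (i - 1) with hz
  have hz0 : ∀ i, 0 ≤ z i := by
    intro i
    rw [hz]
    by_cases hi : i = 0
    · simp only [hi, if_true]
      linarith
    · simp only [hi, if_false]
      have := hr (i - 1)
      linarith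
  have h1 : ∏ i ∈ Finset.range (m + 1), z i =
      (1 + x) * ∏ σ ∈ Finset.range m, (1 + 4.5 * r σ) := by
    rw [Finset.prod_range_succ', mul_comm]
    simp [hz]
  have h2 : ∑ i ∈ Finset.range (m + 1), z i =
      (1 + x) + ∑ σ ∈ Finset.range m, (1 + 4.5 * r σ) := by
    rw [Finset.sum_range_succ', add_comm]
    simp [hz]
  have h3 := N5_amgm (m + 1) z (by omega) hz0
  rw [h1, h2] at h3
  refine le_trans h3 ?_
  apply pow_le_pow_left₀
  · have : 0 ≤ ∑ σ ∈ Finset.range m, (1 + 4.5 * r σ) := Finset.sum_nonneg fun σ _ => by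
      have := hr σ
      linarith
    positivity
  · have h4 : ∑ σ ∈ Finset.range m, (1 + 4.5 * r σ) =
        m + 4.5 * ∑ σ ∈ Finset.range m, r σ := by
      rw [Finset.sum_add_distrib, Finset.mul_sum]
      simp
    rw [h4, div_le_iff₀ hm0]
    have h5 : (1 + 5.5 * x / ((m + 1 : ℕ) : ℝ)) * ((m + 1 : ℕ) : ℝ) =
        ((m + 1 : ℕ) : ℝ) + 5.5 * x := by
      field_simp
    rw [h5]
    push_cast
    linarith

end Pool.Agent.Work.MP_499dc6_lc.SN
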