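import Mathlib
import Pool.Agent.Work.MP_499dc6_lc.SN.Stmts

/-!
Item N6 of block SN: the bound for `D ^ k`, from `StN1`, ..., `StN5`.
-/

namespace Pool.Agent.Work.MP_499dc6_lc.SN

theorem N6_sum_nn {S : ℕ} (lev : Fin S → ℕ) (T : ℕ) :
    ∑ σ ∈ Finset.range T, nn lev (σ + 1) ≤ S := by
  have h1 : ∀ σ, nn lev (σ + 1) = ∑ j : Fin S, if lev j = σ + 1 then 1 else 0 := by
    intro σ
    unfold nn
    rw [Finset.card_filter]
  calc ∑ σ ∈ Finset.range T, nn lev (σ + 1)
      = ∑ σ ∈ Finset.range T, ∑ j : Fin S, (if lev j = σ + 1 then 1 else 0) :=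
        Finset.sum_congr rfl fun σ _ => h1 σ
    _ = ∑ j : Fin S, ∑ σ ∈ Finset.range T, (if lev j = σ + 1 then 1 else 0) :=
        Finset.sum_comm
    _ ≤ ∑ j : Fin S, 1 := by
        refine Finset.sum_le_sum fun j _ => ?_
        rw [← Finset.card_filter]
        refine Finset.card_le_one.mpr fun a ha b hb => ?_
        have ha' := (Finset.mem_filter.mp ha).2
        have hb' := (Finset.mem_filter.mp hb).2
        omega
    _ = S := by simp

theorem N6_nn_le {S : ℕ} (lev : Fin S → ℕ) (σ : ℕ) : nn lev σ ≤ S := by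
  unfold nn
  refine (Finset.card_filter_le _ _).trans ?_
  simp

theorem sn_N6 (hN1 : StN1) (hN2 : StN2) (hN3 : StN3) (hN4 : StN4) (hN5 : StN5) : StN6 := by
  intro S t k lev hk ht hlev
  obtain ⟨T, rfl⟩ : ∃ T, t = T + 1 := ⟨t - 1, by omega⟩
  have e1 := hN1 S (T + 1) k lev hlev
  have e2 := hN2 S (T + 1) k lev hk
  simp only [Nat.add_sub_cancel] at e2 ⊢
  rw [Finset.prod_mul_distrib, e1, Finset.prod_range_succ]
  have hk0 : (0 : ℝ) < k := by exact_mod_cast hk
  set R : ℝ := (S : ℝ) / k with hR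
  have hR0 : 0 ≤ R := by positivity
  set s : ℝ := (ss lev k T : ℝ) with hs
  have hs0 : 0 ≤ s := by positivity
  set A : ℝ := ∏ x ∈ Finset.range T, (1 + 1 / (zz lev k (x + 1) : ℝ)) ^ nn lev (x + 1) with hA
  have hA0 : 0 ≤ A := Finset.prod_nonneg fun σ _ => by positivity
  set B : ℝ := (1 + 1 / (zz lev k (T + 1) : ℝ)) ^ nn lev (T + 1) with hB
  have hB0 : 0 ≤ B := by positivity
  have hB1 : B ≤ Real.exp k := hN4 (nn lev (T + 1)) k hk
  set D : ℝ := ∏ j, ((wh' (ss lev k) ((S / k + 1) * ss lev k T) (T + 1) lev j : ℕ) : ℝ) /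
    ((wa' (ss lev k) ((S / k + 1) * ss lev k T) (T + 1) lev j : ℕ) : ℝ) with hD
  have hD0 : 0 ≤ D := Finset.prod_nonneg fun σ _ => by positivity
  set P : ℝ := ∏ σ ∈ Finset.range T, (1 + 4.5 * ((nn lev (σ + 1) : ℝ) / k)) with hP
  have hP0 : 0 ≤ P := Finset.prod_nonneg fun σ _ => by positivity
  have hss : ss lev k (T + 1) = ss lev k T * zz lev k (T + 1) := by
    unfold ss
    rw [Finset.prod_range_succ]
  -- the base
  have hg : (((S / k + 1) * ss lev k T + ss lev k (T + 1) + ss lev k T : ℕ) : ℝ) ≤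
      s * (3 * (1 + R)) := by
    rw [hss]
    have f1 : ((S / k : ℕ) : ℝ) ≤ R := Nat.cast_div_le
    have f2 : ((nn lev (T + 1) / k : ℕ) : ℝ) ≤ R := by
      refine Nat.cast_div_le.trans ?_
      have : (nn lev (T + 1) : ℝ) ≤ S := by exact_mod_cast N6_nn_le lev (T + 1)
      exact div_le_div_of_nonneg_right this hk0.le
    have f3 : ((zz lev k (T + 1) : ℕ) : ℝ) ≤ R + 1 := by
      unfold zz
      push_cast
      linarith
    push_cast
    have f4 : ((S / k : ℕ) : ℝ) + 1 + (zz lev k (T + 1) : ℝ) + 1 ≤ 3 * (1 + R) := by linarith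
    calc (((S / k : ℕ) : ℝ) + 1) * s + s * (zz lev k (T + 1) : ℝ) + s
        = s * (((S / k : ℕ) : ℝ) + 1 + (zz lev k (T + 1) : ℝ) + 1) := by ring
      _ ≤ s * (3 * (1 + R)) := mul_le_mul_of_nonneg_left f4 hs0
  -- the levels below the top
  have hAP : s ^ k * A ≤ P ^ k := by
    have h1 : s = ∏ σ ∈ Finset.range T, (zz lev k (σ + 1) : ℝ) := by
      rw [hs]
      unfold ss
      push_cast
      rfl
    rw [h1, hA, hP, ← Finset.prod_pow, ← Finset.prod_mul_distrib, ← Finset.prod_pow]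
    refine Finset.prod_le_prod (fun σ _ => by positivity) fun σ _ => ?_
    have h2 := hN3 (nn lev (σ + 1)) k hk
    rw [mul_div_assoc] at h2
    exact h2
  -- the arithmetic-geometric mean
  have h5 := hN5 (T + 1) R (fun σ => (nn lev (σ + 1) : ℝ) / k) (by omega) hR0
    (fun σ => by positivity) (by
      simp only [Nat.add_sub_cancel]
      rw [← Finset.sum_div, hR]
      have : ∑ σ ∈ Finset.range T, (nn lev (σ + 1) : ℝ) ≤ S := by
        exact_mod_cast N6_sum_nn lev T
      exact div_le_div_of_nonneg_right this hk0.le)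
  simp only [Nat.add_sub_cancel] at h5
  have hexp : Real.exp k * Real.exp k = Real.exp 2 ^ k := by
    rw [← Real.exp_nat_mul, ← Real.exp_add]
    congr 1
    ring
  calc (((S / k + 1) * ss lev k T + ss lev k (T + 1) + ss lev k T : ℕ) : ℝ) ^ k * (A * B * D)
      ≤ (s * (3 * (1 + R))) ^ k * (A * Real.exp k * Real.exp k) := by
        refine mul_le_mul (pow_le_pow_left₀ (by positivity) hg k)
          (mul_le_mul (mul_le_mul_of_nonneg_left hB1 hA0) e2 hD0 (by positivity))
          (by positivity) (by positivity)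
    _ = (3 * (1 + R)) ^ k * (s ^ k * A) * (Real.exp k * Real.exp k) := by
        rw [mul_pow]
        ring
    _ ≤ (3 * (1 + R)) ^ k * P ^ k * (Real.exp k * Real.exp k) :=
        mul_le_mul_of_nonneg_right (mul_le_mul_of_nonneg_left hAP (by positivity))
          (by positivity)
    _ = (3 * Real.exp 2 * ((1 + R) * P)) ^ k := by
        rw [hexp, ← mul_pow, ← mul_pow]
        ring
    _ ≤ (3 * Real.exp 2 * (1 + 5.5 * R / ((T + 1 : ℕ) : ℝ)) ^ (T + 1)) ^ k :=
        pow_le_pow_left₀ (by positivity) (mul_le_mul_of_nonneg_left h5 (by positivity)) k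

end Pool.Agent.Work.MP_499dc6_lc.SN
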