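import Pool.Agent.Work.MP_499dc6_lc.SN.Stmts

/-!
# Item N7 of block SN: the weights of the levels are monotone
-/

set_option autoImplicit false

namespace Pool.Agent.Work.MP_499dc6_lc.SN

/-- N7 -/
theorem sn_N7 : StN7 := by
  intro S k lev
  constructor
  · refine monotone_nat_of_le_succ fun σ => ?_
    unfold ss
    rw [Finset.prod_range_succ]
    exact Nat.le_mul_of_pos_right _ (Nat.succ_pos _)
  · unfold ss
    rw [Finset.prod_range_zero]

end Pool.Agent.Work.MP_499dc6_lc.SN
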