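import Mathlib
import Pool.Agent.Work.MP_499dc6_lc.SN.Stmts

/-!
# Block SN, item N8: the final numbers
-/

set_option autoImplicit false

namespace Pool.Agent.Work.MP_499dc6_lc.SN

theorem N8_exp1 : Real.exp 0.0099 ≤ 1.01 := by
  have h := Real.add_one_le_exp (-0.0099 : ℝ)
  rw [Real.exp_neg] at h
  have hp := Real.exp_pos (0.0099 : ℝ)
  have h2 : (0.9901 : ℝ) * Real.exp 0.0099 ≤ 1 := by
    calc (0.9901 : ℝ) * Real.exp 0.0099 ≤ (Real.exp 0.0099)⁻¹ * Real.exp 0.0099 :=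
          mul_le_mul_of_nonneg_right (by linarith) hp.le
      _ = 1 := inv_mul_cancel₀ hp.ne'
  linarith

theorem N8_exp2 : Real.exp 2 ≤ 7.3891 := by
  have h := Real.exp_one_lt_d9
  have e : Real.exp 2 = Real.exp 1 * Real.exp 1 := by
    rw [← Real.exp_add]
    norm_num
  have hp := Real.exp_pos 1
  rw [e]
  nlinarith

theorem N8_ek {k : ℕ} (hk : 2268 ≤ k) : Real.exp 1 * (k : ℝ) ≤ 1.01 ^ k := by
  have hk' : (2268 : ℝ) ≤ k := by exact_mod_cast hk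
  have h1 : Real.exp (0.0099 * k) ≤ 1.01 ^ k := by
    have : Real.exp (0.0099 * k) = Real.exp 0.0099 ^ k := by
      rw [← Real.exp_nat_mul, mul_comm]
    rw [this]
    exact pow_le_pow_left₀ (Real.exp_pos _).le N8_exp1 k
  have h2 := Real.pow_div_factorial_le_exp (0.0099 * (k : ℝ)) (by positivity) 4
  have h3 : Real.exp 1 ≤ 2.7183 := by
    have := Real.exp_one_lt_d9
    linarith
  refine le_trans ?_ (h2.trans h1)
  have h4 : ((4 : ℕ).factorial : ℝ) = 24 := by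
    norm_num [Nat.factorial]
  rw [h4, le_div_iff₀ (by norm_num)]
  have h5 : (2268 : ℝ) ^ 3 ≤ (k : ℝ) ^ 3 := pow_le_pow_left₀ (by norm_num) hk' 3
  have h6 : (2.7183 : ℝ) * 24 ≤ 0.0099 ^ 4 * (k : ℝ) ^ 3 := by
    calc (2.7183 : ℝ) * 24 ≤ 0.0099 ^ 4 * 2268 ^ 3 := by norm_num
      _ ≤ 0.0099 ^ 4 * (k : ℝ) ^ 3 := mul_le_mul_of_nonneg_left h5 (by norm_num)
  calc Real.exp 1 * (k : ℝ) * 24 ≤ 2.7183 * (k : ℝ) * 24 := by
        have hk0 : (0 : ℝ) ≤ k := by positivity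
        nlinarith
    _ = 2.7183 * 24 * (k : ℝ) := by ring
    _ ≤ 0.0099 ^ 4 * (k : ℝ) ^ 3 * (k : ℝ) := mul_le_mul_of_nonneg_right h6 (by positivity)
    _ = (0.0099 * (k : ℝ)) ^ 4 := by ring

theorem sn_N8 : StN8 := by
  intro m a S t hm ht ha1 ha2 hmain
  have ht' : (1 : ℝ) ≤ t := by exact_mod_cast ht
  have hm' : (1 : ℝ) ≤ m := by exact_mod_cast hm
  have hbase : (1 : ℝ) ≤ 1 + 160 * S / (t * (m : ℝ) ^ 2) := by
    have : (0 : ℝ) ≤ 160 * S / (t * (m : ℝ) ^ 2) := by positivity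
    linarith
  have hone : (1 : ℝ) ≤ (1 + 160 * S / (t * (m : ℝ) ^ 2)) ^ t := one_le_pow₀ hbase
  by_cases hm250 : m ≤ 250
  · have : (m : ℝ) ≤ 250 := by exact_mod_cast hm250
    linarith
  have ha : 27 ≤ a := by omega
  have ha' : (27 : ℝ) ≤ a := by exact_mod_cast ha
  have hma : (m : ℝ) ≤ 9 * a + 9 := by exact_mod_cast ha2
  have h1 := hmain (by omega)
  set k : ℕ := 3 * a * (a + 1) with hk
  have hkR : (k : ℝ) = 3 * a * (a + 1) := by rw [hk]; push_cast; ring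
  have hk2268 : 2268 ≤ k := by
    rw [hk]
    calc 2268 = 3 * 27 * (27 + 1) := by norm_num
      _ ≤ 3 * a * (a + 1) := Nat.mul_le_mul (Nat.mul_le_mul_left 3 ha) (by omega)
  have hk0 : (0 : ℝ) < k := by
    have : 0 < k := by omega
    exact_mod_cast this
  set Y : ℝ := (1 + 5.5 * ((S : ℝ) / (k : ℝ)) / t) ^ t with hY
  have hY1 : 1 ≤ Y := by
    apply one_le_pow₀
    have : (0 : ℝ) ≤ 5.5 * ((S : ℝ) / (k : ℝ)) / t := by positivity
    linarith
  have hE := Real.exp_pos 2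
  have h2 : (a : ℝ) ^ k ≤ (1.01 * (3 * Real.exp 2 * Y)) ^ k := by
    rw [mul_pow]
    refine h1.trans (mul_le_mul_of_nonneg_right (N8_ek hk2268) (by positivity))
  have h3 : (a : ℝ) ≤ 1.01 * (3 * Real.exp 2 * Y) :=
    le_of_pow_le_pow_left₀ (by omega) (by positivity) h2
  have h4 : (a : ℝ) ≤ 22.39 * Y := by
    have hE2 := N8_exp2
    have : (1.01 : ℝ) * (3 * Real.exp 2 * Y) ≤ 22.39 * Y := by
      have hle : (3.03 : ℝ) * Real.exp 2 ≤ 22.39 := by linarith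
      calc (1.01 : ℝ) * (3 * Real.exp 2 * Y) = 3.03 * Real.exp 2 * Y := by ring
        _ ≤ 22.39 * Y := mul_le_mul_of_nonneg_right hle (by linarith)
    linarith
  have h5 : (m : ℝ) ≤ 250 * Y := by
    have : (m : ℝ) ≤ 28 / 3 * a := by linarith
    linarith
  have h6 : (m : ℝ) ^ 2 ≤ 28 * k := by
    rw [hkR]
    have : (m : ℝ) ^ 2 ≤ (9 * a + 9) ^ 2 := pow_le_pow_left₀ (by linarith) hma 2
    nlinarith
  have h7 : Y ≤ (1 + 160 * S / (t * (m : ℝ) ^ 2)) ^ t := by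
    apply pow_le_pow_left₀ (by positivity)
    have hS : (0 : ℝ) ≤ S := by positivity
    have hmm : (0 : ℝ) < (m : ℝ) ^ 2 := by positivity
    have htt : (0 : ℝ) < t := by linarith
    have : 5.5 * ((S : ℝ) / (k : ℝ)) / t ≤ 160 * S / (t * (m : ℝ) ^ 2) := by
      have e : 5.5 * ((S : ℝ) / (k : ℝ)) / t = (5.5 * S) / (k * t) := by
        field_simp
      rw [e, div_le_div_iff₀ (by positivity) (by positivity)]
      have h8 : 5.5 * (m : ℝ) ^ 2 ≤ 160 * k := by linarith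
      calc 5.5 * (S : ℝ) * ((t : ℝ) * (m : ℝ) ^ 2) = ((S : ℝ) * t) * (5.5 * (m : ℝ) ^ 2) := by ring
        _ ≤ ((S : ℝ) * t) * (160 * k) := mul_le_mul_of_nonneg_left h8 (by positivity)
        _ = 160 * (S : ℝ) * ((k : ℝ) * t) := by ring
    linarith
  linarith

end Pool.Agent.Work.MP_499dc6_lc.SN
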