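import Mathlib
import Pool.Agent.Work.MP_499dc6_lc.SN.Stmts2

/-!
THEOREM SN, item NB: many independent products (copy of a part of `H13.count_cleared`).
-/

open MvPolynomial
open scoped PowerSeries

namespace Pool.Agent.Work.MP_499dc6_lc.SN

theorem sn_NB : StNB := by
  classical
  intro k V Ξ Τ I _ _ _ _ _ _ _ _ P dp hz
  obtain ⟨D0, hspan⟩ := H97.span_monomials dp.D dp.hD dp.q dp.hq hz
  refine ⟨D0, fun N3 => ?_⟩
  set G : Set (MvPolynomial Ξ k) := {g | ∃ α : Ξ →₀ ℕ, ∃ β : I →₀ ℕ, α.degree ≤ D0 ∧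
    β.degree ≤ N3 ∧ g = monomial α (1 : k) * ∏ i, dp.q i ^ β i} with hG
  obtain ⟨bs, hbG, hbspan, hbli⟩ := exists_linearIndependent k G
  have hGfin : G.Finite := by
    have h1 := H97.finite_degree_le Ξ D0
    have h2 := H97.finite_degree_le I N3
    refine ((h1.prod h2).image (fun x => monomial x.1 (1 : k) * ∏ i, dp.q i ^ x.2 i)).subset ?_
    rintro g ⟨α, β, hα, hβ, rfl⟩
    exact ⟨(α, β), ⟨hα, hβ⟩, rfl⟩
  have hbfin : bs.Finite := hGfin.subset hbG
  have : Finite bs := hbfin.to_subtype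
  have hbG' : ∀ g : bs, ∃ α : Ξ →₀ ℕ, ∃ β : I →₀ ℕ, α.degree ≤ D0 ∧
    β.degree ≤ N3 ∧ (g : MvPolynomial Ξ k) = monomial α (1 : k) * ∏ i, dp.q i ^ β i :=
    fun g => hbG g.2
  choose α β hα hβ hαβ using hbG'
  -- cardinality of the basis
  have hcard : (dp.D * N3 + Fintype.card Ξ).choose (Fintype.card Ξ) ≤ Nat.card bs := by
    rw [← H97.card_degree_le Ξ (dp.D * N3)]
    have hfs : Module.finrank k (Submodule.span k bs) = Nat.card bs := by
      have : Fintype bs := Fintype.ofFinite bs
      rw [finrank_span_set_eq_card hbli, Set.toFinset_card, Nat.card_eq_fintype_card]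
    have hfd : Module.Finite k (Submodule.span k bs) := Module.Finite.span_of_finite k hbfin
    have hle : restrictSupport k {μ : Ξ →₀ ℕ | μ.degree ≤ dp.D * N3} ≤ Submodule.span k bs := by
      intro f hf
      rw [hbspan]
      refine hspan N3 f ?_
      rw [mem_restrictSupport_iff] at hf
      rw [totalDegree]
      refine Finset.sup_le fun μ hμ => ?_
      have h4 : μ.degree ≤ dp.D * N3 := hf hμ
      exact h4
    have h3 := Submodule.finrank_mono hle
    rw [Module.finrank_eq_nat_card_basis (basisRestrictSupport k _), hfs] at h3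
    exact h3
  have hli : LinearIndependent k (fun g : bs =>
      monomial (α g) (1 : k) * ∏ i, dp.q i ^ (β g i)) := by
    have e : (fun g : bs => monomial (α g) (1 : k) * ∏ i, dp.q i ^ (β g i)) =
        fun g : bs => (g : MvPolynomial Ξ k) := by
      funext g; exact (hαβ g).symm
    rw [e]; exact hbli
  refine ⟨bs, Fintype.ofFinite bs, α, β, hα, hβ, ?_, hli⟩
  exact hcard.trans (le_of_eq (@Nat.card_eq_fintype_card bs (Fintype.ofFinite bs)))

end Pool.Agent.Work.MP_499dc6_lc.SN
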