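import Pool.Agent.Work.MP_499dc6_lc.SN.Stmts

/-!
# Block SN, item NZ
-/

open MvPolynomial

namespace Pool.Agent.Work.MP_499dc6_lc.SN

theorem sn_NZ : StNZ := by
  intro O V _ S Q hQ l j hjl
  refine pderiv_eq_zero_of_notMem_vars fun hmem => ?_
  obtain ⟨μ, hμ, hμj⟩ := (mem_vars _).1 hmem
  exact hjl (hQ l μ hμ j (Finsupp.mem_support_iff.1 hμj))

end Pool.Agent.Work.MP_499dc6_lc.SN
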