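import Pool.Agent.Work.MP_499dc6_lc.SN.Stmts

/-! Item PH of block SN: the substitution -/

open MvPolynomial

namespace Pool.Agent.Work.MP_499dc6_lc.SN

/-- algebra homomorphisms commute with `ev` -/
lemma PH_ev {O V T T' : Type} [CommRing O] [CommRing T] [Algebra O T] [CommRing T'] [Algebra O T']
    {S : ℕ} (φ : T →ₐ[O] T') (x : V → T) (v : Fin S → T) (q : MvPolynomial (V ⊕ Fin S) O) :
    φ (ev x v q) = ev (fun i => φ (x i)) (fun j => φ (v j)) q := by
  unfold ev
  rw [MvPolynomial.comp_aeval_apply]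
  have h : (fun i => φ (Sum.elim x v i)) = Sum.elim (fun i => φ (x i)) (fun j => φ (v j)) := by
    funext i
    cases i <;> rfl
  rw [h]

/-- item PH -/
theorem sn_PH (hEX : StEX) (hAD : StAD) (hNZ : StNZ) (hGI : StGI) : StPH := by
  intro O V Ξ T _ _ _ _ S Q hQ f hf s x0 x1 th c W U
  let x : V → T := fun v => algebraMap O T (x0 v) + ∑ i, algebraMap O T (x1 v i) * th i
  obtain ⟨vh, hvh⟩ := hEX O V T S Q hQ x (fun j => c * W j)
  obtain ⟨la, hla⟩ := hAD T S (fun l j => ev x vh (pderiv (Sum.inr j) (Q l)))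
    (fun l j h => by rw [hNZ O V S Q hQ l j h, map_zero])
    (fun j => (if j = s then 1 else 0) + c * U j)
  let Φ : MvPolynomial (Var Ξ S) O →ₐ[O] T := aeval (Sum.elim th (Sum.elim vh la))
  have hΦ1 : ∀ i, Φ (X (Sum.inl i)) = th i := fun i => by simp [Φ]
  have hΦ2 : ∀ j, Φ (X (Sum.inr (Sum.inl j))) = vh j := fun j => by simp [Φ]
  have hΦ3 : ∀ j, Φ (X (Sum.inr (Sum.inr j))) = la j := fun j => by simp [Φ]
  have hΦC : ∀ a : O, Φ (C a) = algebraMap O T a := fun a => by simp [Φ]
  have hΦx : ∀ v, Φ (ptx x0 x1 v) = x v := by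
    intro v
    simp only [ptx, map_add, map_sum, map_mul, hΦ1, hΦC, x]
  have hΦsb : ∀ q, Φ (sb x0 x1 q) = ev x vh q := by
    intro q
    unfold sb
    rw [PH_ev]
    simp only [hΦx, hΦ2]
  refine ⟨Φ, hΦ1, ?_, ?_, ?_⟩
  · intro j
    unfold Hp
    rw [map_sub, hΦ2, hΦsb]
    linear_combination hvh j
  · intro j
    unfold Ha
    rw [map_sub, map_sub, hΦ3, map_sum, hΦC]
    simp only [map_mul, hΦ3, hΦsb]
    have h1 : algebraMap O T (if j = s then 1 else 0) = if j = s then 1 else 0 := by
      split_ifs <;> simp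
    rw [h1]
    linear_combination hla j
  · intro u
    let π : T →ₐ[O] T ⧸ Ideal.span {c} := Ideal.Quotient.mkₐ O (Ideal.span {c})
    have hπ : ∀ a, π a = Ideal.Quotient.mk (Ideal.span {c}) a := fun a => rfl
    have hπc : π c = 0 := by
      rw [hπ, Ideal.Quotient.eq_zero_iff_mem]
      exact Ideal.mem_span_singleton_self c
    have hG := hGI O V (T ⧸ Ideal.span {c}) S Q hQ f hf s (fun i => π (x i)) (fun j => π (vh j))
      (fun j => by
        have h := congrArg π (hvh j)
        rw [map_add, map_mul, hπc, zero_mul, add_zero, PH_ev] at h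
        exact h)
      (fun j => π (la j))
      (fun j => by
        have h := congrArg π (hla j)
        simp only [map_add, map_mul, hπc, zero_mul, add_zero, map_sum, PH_ev] at h
        rw [h]
        have h1 : π (if j = s then 1 else 0) = if j = s then 1 else 0 := by
          split_ifs <;> simp
        rw [h1])
      u
    rw [← Ideal.mem_span_singleton, ← Ideal.Quotient.eq_zero_iff_mem, ← hπ, map_sub, sub_eq_zero]
    unfold Gp
    rw [map_sum, map_sum]
    simp only [map_mul, hΦ3, hΦsb, PH_ev]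
    rw [hG, MvPolynomial.comp_aeval_apply]

end Pool.Agent.Work.MP_499dc6_lc.SN
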