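import Mathlib
import Pool.Agent.Work.MP_499dc6_lc.SN.Stmts

/-!
Item UQ of block SN: uniqueness of the values of the gates.
-/

open MvPolynomial

namespace Pool.Agent.Work.MP_499dc6_lc.SN

theorem sn_UQ (hCG : StCG) : StUQ := by
  intro O V T _ _ _ S Q hQ x v v' hv hv'
  have key : ∀ n : ℕ, ∀ j : Fin S, (j : ℕ) < n → v j = v' j := by
    intro n
    induction n with
    | zero =>
      intro j hj
      exact absurd hj (Nat.not_lt_zero _)
    | succ n ih =>
      intro j hj
      rw [hv j, hv' j]
      refine hCG O V T S (Q j) j (hQ j) x v v' fun i hi => ih i ?_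
      have h1 : (i : ℕ) < (j : ℕ) := hi
      omega
  funext j
  exact key ((j : ℕ) + 1) j (Nat.lt_succ_self _)

end Pool.Agent.Work.MP_499dc6_lc.SN
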