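import Mathlib
import Pool.Agent.Work.MP_499dc6_lc.SN.Stmts

/-!
# Block SN, item W1: closure properties of the weighted degree bound
-/

open MvPolynomial

namespace Pool.Agent.Work.MP_499dc6_lc.SN

theorem sn_W1 : StW1 := by
  classical
  intro O σ _ _ w
  refine ⟨?_, ?_, ?_, ?_, ?_, ?_⟩
  · intro n c μ hμ
    rw [mem_support_iff, coeff_C] at hμ
    have h0 : 0 = μ := by
      by_contra h
      rw [if_neg h] at hμ
      exact hμ rfl
    rw [← h0]
    simp
  · intro n i hi μ hμ
    rw [mem_support_iff, coeff_X] at hμ
    have h0 : Finsupp.single i 1 = μ := by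
      by_contra h
      rw [if_neg h] at hμ
      exact hμ rfl
    rw [← h0]
    have e : ∑ j, w j * (Finsupp.single i 1 : σ →₀ ℕ) j = w i := by
      rw [Finset.sum_eq_single i]
      · rw [Finsupp.single_eq_same, mul_one]
      · intro j _ hj
        rw [Finsupp.single_eq_of_ne hj, mul_zero]
      · intro h
        exact absurd (Finset.mem_univ i) h
    rw [e]
    exact hi
  · intro n n' p hp hn μ hμ
    exact (hp μ hμ).trans hn
  · intro n p q hp hq μ hμ
    rcases Finset.mem_union.mp (support_add hμ) with h | h
    · exact hp μ h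
    · exact hq μ h
  · intro n p q hp hq μ hμ
    rcases Finset.mem_union.mp (support_sub σ p q hμ) with h | h
    · exact hp μ h
    · exact hq μ h
  · intro n n' p q hp hq μ hμ
    obtain ⟨a, ha, b, hb, rfl⟩ := Finset.mem_add.mp (support_mul p q hμ)
    have e : ∑ i, w i * (a + b) i = ∑ i, w i * a i + ∑ i, w i * b i := by
      rw [← Finset.sum_add_distrib]
      refine Finset.sum_congr rfl fun i _ => ?_
      rw [Finsupp.add_apply, mul_add]
    rw [e]
    exact add_le_add (hp a ha) (hq b hb)

end Pool.Agent.Work.MP_499dc6_lc.SN
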