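import Mathlib
import Pool.Agent.Work.MP_499dc6_lc.SN.Stmts

open MvPolynomial

namespace Pool.Agent.Work.MP_499dc6_lc.SN

theorem sn_W2 (hW1 : StW1) : StW2 := by
  intro O σ _ _ w
  obtain ⟨hC, -, -, hadd, -, hmul⟩ := hW1 O σ w
  refine ⟨?_, ?_, ?_⟩
  · intro ι s n p hp
    classical
    induction s using Finset.induction_on with
    | empty =>
      rw [Finset.sum_empty]
      have := hC n 0
      rwa [map_zero] at this
    | insert i s hi ih =>
      rw [Finset.sum_insert hi]
      exact hadd n _ _ (hp i (Finset.mem_insert_self i s))
        (ih fun j hj => hp j (Finset.mem_insert_of_mem hj))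
  · intro n m p hp
    induction m with
    | zero =>
      rw [pow_zero, Nat.mul_zero]
      have := hC 0 1
      rwa [map_one] at this
    | succ m ih =>
      rw [pow_succ, Nat.mul_succ]
      exact hmul _ _ _ _ ih hp
  · intro ι s n p hp
    classical
    induction s using Finset.induction_on with
    | empty =>
      rw [Finset.sum_empty, Finset.prod_empty]
      have := hC 0 1
      rwa [map_one] at this
    | insert i s hi ih =>
      rw [Finset.sum_insert hi, Finset.prod_insert hi]
      exact hmul _ _ _ _ (hp i (Finset.mem_insert_self i s))
        (ih fun j hj => hp j (Finset.mem_insert_of_mem hj))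

end Pool.Agent.Work.MP_499dc6_lc.SN
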