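import Mathlib
import Pool.Agent.Work.MP_499dc6_lc.SN.Stmts

/-!
THEOREM SN, item W3: the substitution respects the weights.
-/

open MvPolynomial

namespace Pool.Agent.Work.MP_499dc6_lc.SN

theorem sn_W3 (hW1 : StW1) (hW2 : StW2) : StW3 := by
  intro O V Ξ _ _ _ S x0 x1 a a' n q hq
  obtain ⟨hC, hX, hmono, hadd, -, hmul⟩ := hW1 O (Var Ξ S) (wv a a')
  obtain ⟨hsum, hpow, hprod⟩ := hW2 O (Var Ξ S) (wv a a')
  have hpt : ∀ v : V, WD (wv a a') 1 (ptx x0 x1 v : MvPolynomial (Var Ξ S) O) := by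
    intro v
    unfold ptx
    refine hadd 1 _ _ (hC 1 _) (hsum Ξ Finset.univ 1 _ fun i _ => ?_)
    have h1 := hmul 0 1 _ _ (hC 0 (x1 v i)) (hX 1 (Sum.inl i) (le_refl 1))
    rwa [zero_add] at h1
  have hf : ∀ i : V ⊕ Fin S, WD (wv a a') ((Sum.elim (fun _ => 1) a : V ⊕ Fin S → ℕ) i)
      ((Sum.elim (ptx x0 x1) (fun j => X (Sum.inr (Sum.inl j))) :
        V ⊕ Fin S → MvPolynomial (Var Ξ S) O) i) := by
    rintro (v | j)
    · exact hpt v
    · exact hX (a j) (Sum.inr (Sum.inl j)) (le_refl _)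
  have he : sb x0 x1 q = ∑ μ ∈ q.support, C (q.coeff μ) *
      ∏ i, ((Sum.elim (ptx x0 x1) (fun j => X (Sum.inr (Sum.inl j))) :
        V ⊕ Fin S → MvPolynomial (Var Ξ S) O) i) ^ μ i := by
    unfold sb ev
    rw [aeval_def, eval₂_eq']
    rfl
  rw [he]
  refine hsum _ _ n _ fun μ hμ => ?_
  have h1 := hprod (V ⊕ Fin S) Finset.univ
    (fun i => (Sum.elim (fun _ => 1) a : V ⊕ Fin S → ℕ) i * μ i) _
    fun i _ => hpow _ (μ i) _ (hf i)
  have h2 := hmul 0 _ _ _ (hC 0 (q.coeff μ)) h1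
  refine hmono _ n _ h2 ?_
  rw [zero_add, Fintype.sum_sum_type]
  simp only [Sum.elim_inl, Sum.elim_inr, one_mul]
  exact hq μ hμ

end Pool.Agent.Work.MP_499dc6_lc.SN
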