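import Pool.Agent.Work.MP_499dc6_lc.SN.Stmts

/-!
THEOREM SN, item W4: weights of the equations.
-/

open MvPolynomial

namespace Pool.Agent.Work.MP_499dc6_lc.SN

/-- the product of an adjoint variable with the substitution of a gate polynomial -/
lemma W4_term (hW1 : StW1) (hW3 : StW3) {O V Ξ : Type} [CommRing O] [Fintype V] [Fintype Ξ] {S : ℕ}
    (x0 : V → O) (x1 : V → Ξ → O) (a a' : Fin S → ℕ) (n : ℕ) (l : Fin S)
    (q : MvPolynomial (V ⊕ Fin S) O) (h : ∀ μ ∈ q.support, a' l + wq a μ ≤ n) :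
    WD (wv a a') n ((X (Sum.inr (Sum.inr l)) : MvPolynomial (Var Ξ S) O) * sb x0 x1 q) := by
  classical
  obtain ⟨_, hX, hmono, _, _, hmul⟩ := hW1 O (Var Ξ S) (wv a a')
  by_cases hq : q = 0
  · rw [hq, map_zero, mul_zero]
    intro μ hμ
    rw [support_zero] at hμ
    exact absurd hμ (Finset.notMem_empty _)
  · have hne : q.support.Nonempty := by
      rw [Finset.nonempty_iff_ne_empty]
      intro h0
      exact hq (support_eq_empty.mp h0)
    obtain ⟨μ0, hμ0⟩ := hne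
    have hle : a' l ≤ n := le_trans (Nat.le_add_right _ _) (h μ0 hμ0)
    have h1 : WD (wv a a') (a' l) (X (Sum.inr (Sum.inr l)) : MvPolynomial (Var Ξ S) O) :=
      hX (a' l) (Sum.inr (Sum.inr l)) (le_refl (a' l))
    have h2 : WD (wv a a') (n - a' l) (sb x0 x1 q) :=
      hW3 O V Ξ S x0 x1 a a' (n - a' l) q fun μ hμ => by
        have := h μ hμ
        omega
    have h3 := hmul _ _ _ _ h1 h2
    have e : a' l + (n - a' l) = n := by omega
    rw [e] at h3
    exact h3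

/-- W4 -/
theorem sn_W4 (hW1 : StW1) (hW2 : StW2) (hW3 : StW3) : StW4 := by
  intro O V Ξ _ _ _ S Q s x0 x1 a a' h h' g hWt
  obtain ⟨ha, hg, hQ, hr, hl⟩ := hWt
  obtain ⟨hC, hX, hmono, hadd, hsub, hmul⟩ := hW1 O (Var Ξ S) (wv a a')
  obtain ⟨hsum, _, _⟩ := hW2 O (Var Ξ S) (wv a a')
  refine ⟨fun j => ?_, fun j => ?_, fun u => ?_⟩
  · unfold Hp
    refine hsub _ _ _ (hX (h j) (Sum.inr (Sum.inl j)) (ha j).2.2.1) ?_
    exact hW3 O V Ξ S x0 x1 a a' (h j) (Q j) (hQ j)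
  · unfold Ha
    refine hsub _ _ _ (hsub _ _ _ (hX (h' j) (Sum.inr (Sum.inr j)) (ha j).2.2.2) (hC _ _)) ?_
    refine hsum (Fin S) Finset.univ (h' j) _ fun l _ => ?_
    exact W4_term hW1 hW3 x0 x1 a a' (h' j) l _ (hr l j)
  · unfold Gp
    refine hsum (Fin S) Finset.univ g _ fun l _ => ?_
    exact W4_term hW1 hW3 x0 x1 a a' g l _ (hl l u)

end Pool.Agent.Work.MP_499dc6_lc.SN
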