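import Mathlib
import Pool.Agent.Work.MP_499dc6_lc.SN.Stmts

/-!
THEOREM SN, item W5: weight of the family (helper61).
-/

open MvPolynomial

namespace Pool.Agent.Work.MP_499dc6_lc.SN

theorem sn_W5 (hW1 : StW1) (hW2 : StW2) (hW4 : StW4) : StW5 := by
  intro O V Ξ I _ _ _ _ S Q s x0 x1 dir a a' h h' g hWt D0 N α β γ γ' hα hβ
  obtain ⟨hHp, hHa, hGp⟩ := hW4 O V Ξ S Q s x0 x1 a a' h h' g hWt
  obtain ⟨-, hX, hmono, -, -, hmul⟩ := hW1 O (Var Ξ S) (wv a a')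
  obtain ⟨-, hpow, hprod⟩ := hW2 O (Var Ξ S) (wv a a')
  have e1 : WD (wv a a') (∑ i, 1 * α i)
      (∏ i : Ξ, (X (Sum.inl i) : MvPolynomial (Var Ξ S) O) ^ α i) := by
    refine hprod Ξ Finset.univ (fun i => 1 * α i) _ fun i _ => ?_
    exact hpow 1 (α i) _ (hX 1 (Sum.inl i) le_rfl)
  have e2 : WD (wv a a') (∑ i, g * β i) (∏ i, Gp x0 x1 Q (dir i) ^ β i) := by
    refine hprod I Finset.univ (fun i => g * β i) _ fun i _ => ?_
    exact hpow g (β i) _ (hGp (dir i))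
  have e3 : WD (wv a a') (∑ j, h j * γ j) (∏ j, Hp x0 x1 Q j ^ γ j) := by
    refine hprod (Fin S) Finset.univ (fun j => h j * γ j) _ fun j _ => ?_
    exact hpow (h j) (γ j) _ (hHp j)
  have e4 : WD (wv a a') (∑ j, h' j * γ' j) (∏ j, Ha x0 x1 Q s j ^ γ' j) := by
    refine hprod (Fin S) Finset.univ (fun j => h' j * γ' j) _ fun j _ => ?_
    exact hpow (h' j) (γ' j) _ (hHa j)
  have d1 : ∑ i, 1 * α i ≤ D0 := by
    rw [← Finset.mul_sum, one_mul, ← Finsupp.degree_eq_sum]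
    exact hα
  have d2 : ∑ i, g * β i ≤ g * N := by
    rw [← Finset.mul_sum, ← Finsupp.degree_eq_sum]
    exact Nat.mul_le_mul_left g hβ
  unfold fam
  refine hmul _ _ _ _ (hmono _ _ _ (hmul _ _ _ _ e1 e2) (add_le_add d1 d2)) (hmul _ _ _ _ e3 e4)

end Pool.Agent.Work.MP_499dc6_lc.SN
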