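import Mathlib
import Pool.Agent.Work.MP_499dc6_lc.SN.Stmts
import Pool.Agent.Work.MP_499dc6_lc.SN.Stmts2

/-!
THEOREM SN, item WB: weighted Bezout bound for an arbitrary circuit.
-/

open MvPolynomial
open scoped PowerSeries

namespace Pool.Agent.Work.MP_499dc6_lc.SN

theorem sn_WB (hLI : StLI) (hNB : StNB) (hW5 : StW5) (hG6 : StG6) (hG7 : StG7) : StWB := by
  intro k V Ξ Τ I _ _ _ _ _ _ _ _ P dp hq S Q hQ f hf s b hb R hs a a' h h' g hWt hΞ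
  obtain ⟨D0, hD0⟩ := hNB k V Ξ Τ I P dp hq
  have hah := hWt.1
  have hg := hWt.2.1
  refine hG7 dp.D D0 g (Fintype.card Ξ) _ hg hΞ ?_
  intro N z hz0 hz1
  obtain ⟨J, hJ, α, β, hα, hβ, hcard, hlin⟩ := hD0 N
  have hLIn := hLI k V Ξ Τ I P dp S Q hQ f hf s b hb R hs J α β hlin
  have hWD := fun p : J × ((Fin S →₀ ℕ) × (Fin S →₀ ℕ)) =>
    hW5 k⟦X⟧ V Ξ I S Q s (fun v => (PowerSeries.C (dp.X0 v) : k⟦X⟧))
      (fun v i => PowerSeries.C (dp.X1 v i)) dp.dir a a' h h' g hWt D0 N (α p.1) (β p.1) p.2.1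
      p.2.2 (hα _) (hβ _)
  have h6 := hG6 k⟦X⟧ Ξ J S a a' h h' hah (D0 + g * N) _ hLIn hWD z hz0 hz1
  refine le_trans ?_ h6
  have hc : (((dp.D * N + Fintype.card Ξ).choose (Fintype.card Ξ) : ℕ) : ℝ) ≤
      (Fintype.card J : ℝ) := by exact_mod_cast hcard
  have hz2 : 0 ≤ z ^ (D0 + g * N) := by positivity
  have hz3 : 0 ≤ (1 - z) ^ Fintype.card Ξ := pow_nonneg (by linarith) _
  exact mul_le_mul_of_nonneg_right (mul_le_mul_of_nonneg_right hc hz2) hz3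

end Pool.Agent.Work.MP_499dc6_lc.SN
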