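import Pool.Agent.Work.MP_499dc6_lc.SN.Stmts2

/-! Item WL: the bound for a circuit with levels (assembly). -/

open MvPolynomial
open scoped PowerSeries

namespace Pool.Agent.Work.MP_499dc6_lc.SN

theorem sn_WL (hWB : StWB) (hL0 : StL0) (hL3 : StL3) (hN6 : StN6) (hN7 : StN7) : StWL := by
  intro k V Ξ Τ I _ _ _ _ _ _ _ _ P dp hdp S t ht lev Q hQ f hf s b hb R hR hk
  set κ := Fintype.card Ξ with hκ
  obtain ⟨hmono, hs0⟩ := hN7 S κ lev
  have hs1 : 1 ≤ ss lev κ (t - 1) := by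
    have := hmono (Nat.zero_le (t - 1))
    omega
  have hu : 1 ≤ (S / κ + 1) * ss lev κ (t - 1) :=
    Nat.mul_pos (Nat.succ_pos _) hs1
  have hWt := hL3 k⟦X⟧ V S t lev Q (ss lev κ) ((S / κ + 1) * ss lev κ (t - 1)) ht hQ hmono
    (by omega) hu
  have h1 := hWB k V Ξ Τ I P dp hdp S Q (hL0 k⟦X⟧ V S t lev Q hQ) f hf s b hb R hR _ _ _ _ _ hWt hk
  have h2 := hN6 S t κ lev hk ht (fun j => ⟨(hQ j).1, (hQ j).2.1⟩)
  refine h1.trans ?_
  rw [mul_assoc (Real.exp 1 * (κ : ℝ))]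
  refine mul_le_mul_of_nonneg_left h2 (by positivity)

end Pool.Agent.Work.MP_499dc6_lc.SN
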