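import Pool.Agent.Work.MP_499dc6_lc.SN.Main
import Pool.Agent.Work.MP_499dc6_lc.SN.I_LI
import Pool.Agent.Work.MP_499dc6_lc.SN.I_CL
import Pool.Agent.Work.MP_499dc6_lc.SN.I_G6
import Pool.Agent.Work.MP_499dc6_lc.SN.I_G7
import Pool.Agent.Work.MP_499dc6_lc.SN.I_PH
import Pool.Agent.Work.MP_499dc6_lc.SN.I_GI
import Pool.Agent.Work.MP_499dc6_lc.SN.I_N6
import Pool.Agent.Work.MP_499dc6_lc.SN.I_N8
import Pool.Agent.Work.MP_499dc6_lc.SN.I_L3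
import Pool.Agent.Work.MP_499dc6_lc.SN.I_G1
import Pool.Agent.Work.MP_499dc6_lc.SN.I_G2
import Pool.Agent.Work.MP_499dc6_lc.SN.I_G3
import Pool.Agent.Work.MP_499dc6_lc.SN.I_C1
import Pool.Agent.Work.MP_499dc6_lc.SN.I_C2
import Pool.Agent.Work.MP_499dc6_lc.SN.I_BC
import Pool.Agent.Work.MP_499dc6_lc.SN.I_NB
import Pool.Agent.Work.MP_499dc6_lc.SN.I_WB
import Pool.Agent.Work.MP_499dc6_lc.SN.I_WL
import Pool.Agent.Work.MP_499dc6_lc.SN.I_EX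
import Pool.Agent.Work.MP_499dc6_lc.SN.I_W3
import Pool.Agent.Work.MP_499dc6_lc.SN.I_L1
import Pool.Agent.Work.MP_499dc6_lc.SN.I_N1
import Pool.Agent.Work.MP_499dc6_lc.SN.I_N2
import Pool.Agent.Work.MP_499dc6_lc.SN.I_N3
import Pool.Agent.Work.MP_499dc6_lc.SN.I_N5
import Pool.Agent.Work.MP_499dc6_lc.SN.I_CG
import Pool.Agent.Work.MP_499dc6_lc.SN.I_UQ
import Pool.Agent.Work.MP_499dc6_lc.SN.I_AD
import Pool.Agent.Work.MP_499dc6_lc.SN.I_CR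
import Pool.Agent.Work.MP_499dc6_lc.SN.I_NZ
import Pool.Agent.Work.MP_499dc6_lc.SN.I_W1
import Pool.Agent.Work.MP_499dc6_lc.SN.I_W2
import Pool.Agent.Work.MP_499dc6_lc.SN.I_W4
import Pool.Agent.Work.MP_499dc6_lc.SN.I_W5
import Pool.Agent.Work.MP_499dc6_lc.SN.I_G4
import Pool.Agent.Work.MP_499dc6_lc.SN.I_G5
import Pool.Agent.Work.MP_499dc6_lc.SN.I_L0
import Pool.Agent.Work.MP_499dc6_lc.SN.I_L2
import Pool.Agent.Work.MP_499dc6_lc.SN.I_N4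
import Pool.Agent.Work.MP_499dc6_lc.SN.I_N7

/-!
THEOREM SN: all items put together.
-/

open MvPolynomial
open scoped PowerSeries

namespace Pool.Agent.Work.MP_499dc6_lc.SN

theorem sn_all (k : Type) [Field k]
    [CharZero k] (m t S : ℕ) (hm : 1 ≤ m) (ht : 1 ≤ t) (lev : Fin S → ℕ)
    (Q : Fin S → MvPolynomial ((Fin m × Fin m) ⊕ Fin S) (LaurentSeries k)) (hQ : Lev t lev Q)
    (f : Fin S → MvPolynomial (Fin m × Fin m) (LaurentSeries k))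
    (hf : ∀ j, f j = ev X f (Q j)) (s : Fin S) (R : MvPolynomial (Fin m × Fin m) k⟦X⟧)
    (hs : f s = MvPolynomial.map (algebraMap k⟦X⟧ (LaurentSeries k))
      ((Matrix.of fun i j => X (i, j)).permanent + C PowerSeries.X * R)) :
    (m : ℝ) ≤ 250 * (1 + 160 * S / (t * (m : ℝ) ^ 2)) ^ t :=
  have hW2 : StW2 := sn_W2 sn_W1
  have hW3 : StW3 := sn_W3 sn_W1 hW2
  have hW4 : StW4 := sn_W4 sn_W1 hW2 hW3
  have hW5 : StW5 := sn_W5 sn_W1 hW2 hW4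
  have hEX : StEX := sn_EX sn_CG
  have hGI : StGI := sn_GI sn_CR (sn_UQ sn_CG)
  have hPH : StPH := sn_PH hEX sn_AD sn_NZ hGI
  have hG6 : StG6 := sn_G6 sn_G1 sn_G2 sn_G3 (sn_G4 sn_G3) sn_G5
  have hWB : StWB := sn_WB (sn_LI hPH) sn_NB hW5 hG6 sn_G7
  have hN6 : StN6 := sn_N6 sn_N1 sn_N2 sn_N3 sn_N4 sn_N5
  have hL3 : StL3 := sn_L3 sn_L1 sn_L2
  have hWL : StWL := sn_WL hWB sn_L0 hL3 hN6 sn_N7
  have hCL : StCL := sn_CL sn_C1 sn_C2 hEX sn_L0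
  sn_main hWL hCL sn_BC sn_N8 k m t S hm ht lev Q hQ f hf s R hs

end Pool.Agent.Work.MP_499dc6_lc.SN
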