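import Pool.Agent.Work.MP_104cea_lc.SH.Main2

/-!
The deep point of the permanent (assembly of the block SH).
-/

namespace Pool.Agent.Work.MP_104cea_lc.SH

theorem sn_deep : StD2 :=
  have hEP : StEP := sh_EP (sh_PT sh_RP) (sh_EB sh_EA) (sh_EC (sh_PT sh_RP)) sh_ED
  have hGF : StGF := sh_GF (sh_LE hEP sh_LA sh_LC sh_ED2) (sh_UF (sh_SG sh_SY))
  have hZS : StZS := sh_ZS sh_RA sh_RS
  sh_D2 sh_RP sh_LW (sh_PG hGF sh_RA) (sh_SC hGF sh_RA) sh_H2 sh_M2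
    (sh_Z2 sh_M2 hZS) (sh_L2 sh_RP) sh_DG

end Pool.Agent.Work.MP_104cea_lc.SH
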