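import Pool.Agent.Work.MP_499dc6_lc.SN.Stmts2
import Pool.Agent.Work.MP_499dc6_lc.SN.D2

/-!
THEOREM SN: assembly.
-/

open MvPolynomial
open scoped PowerSeries

namespace Pool.Agent.Work.MP_499dc6_lc.SN

theorem Pe_perm (k : Type) [Field k] (m : ℕ) (R : MvPolynomial (Fin m × Fin m) k⟦X⟧) :
    (Matrix.of fun i j => (X (i, j) : MvPolynomial (Fin m × Fin m) k⟦X⟧)).permanent +
      C PowerSeries.X * R = H13.Pe (H97.permP m k) R := by
  rw [H13.Pe]
  congr 1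
  simp [H97.permP, Matrix.permanent]

theorem sn_main (hWL : StWL) (hCL : StCL) (hBC : StBC) (hN8 : StN8) (k : Type) [Field k]
    [CharZero k] (m t S : ℕ) (hm : 1 ≤ m) (ht : 1 ≤ t) (lev : Fin S → ℕ)
    (Q : Fin S → MvPolynomial ((Fin m × Fin m) ⊕ Fin S) (LaurentSeries k)) (hQ : Lev t lev Q)
    (f : Fin S → MvPolynomial (Fin m × Fin m) (LaurentSeries k))
    (hf : ∀ j, f j = ev X f (Q j)) (s : Fin S) (R : MvPolynomial (Fin m × Fin m) k⟦X⟧)
    (hs : f s = MvPolynomial.map (algebraMap k⟦X⟧ (LaurentSeries k))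
      ((Matrix.of fun i j => X (i, j)).permanent + C PowerSeries.X * R)) :
    (m : ℝ) ≤ 250 * (1 + 160 * S / (t * (m : ℝ) ^ 2)) ^ t := by
  obtain ⟨Q1, f1, b1, hb1, hQ1, hf1, hs1⟩ := hCL k (Fin m × Fin m) S t lev Q hQ f hf s _ hs
  rw [Pe_perm] at hs1
  obtain ⟨Q2, f2, b2, R2, hb2, hQ2, hf2, hs2⟩ := hBC k (AlgebraicClosure k) (Fin m × Fin m)
    (algebraMap k (AlgebraicClosure k)) S t lev (H97.permP m k) Q1 hQ1 f1 hf1 s b1 hb1 R hs1
  have hperm : MvPolynomial.map (algebraMap k (AlgebraicClosure k)) (H97.permP m k) =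
      H97.permP m (AlgebraicClosure k) := by
    simp [H97.permP, Matrix.permanent]
  rw [hperm] at hs2
  have hc : CharZero (AlgebraicClosure k) :=
    charZero_of_injective_algebraMap (FaithfulSMul.algebraMap_injective k (AlgebraicClosure k))
  obtain ⟨a, ha⟩ : ∃ a, a = (m - 1) / 9 := ⟨_, rfl⟩
  refine hN8 m a S t hm ht (by omega) (by omega) fun ha1 => ?_
  obtain ⟨n, hn⟩ : ∃ n, n + 1 = 3 * a := ⟨3 * a - 1, by omega⟩
  obtain ⟨dp, hD, hz⟩ := Pool.Agent.Work.MP_104cea_lc.SH.sn_deep (AlgebraicClosure k) a n m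
    (by omega) hn (by omega)
  have hcard : Fintype.card (Fin (n + 1) × Fin (a + 1)) = 3 * a * (a + 1) := by
    rw [Fintype.card_prod, Fintype.card_fin, Fintype.card_fin, hn]
  have hpos : 1 ≤ 3 * a * (a + 1) := Nat.mul_pos (by omega) (by omega)
  have h3 := hWL (AlgebraicClosure k) (Fin m × Fin m) (Fin (n + 1) × Fin (a + 1)) Empty
    (Fin (2 * a) × Fin (n + 1)) (H97.permP m (AlgebraicClosure k)) dp hz S t ht lev Q2 hQ2 f2 hf2
    s b2 hb2 R2 hs2 (by rw [hcard]; exact hpos)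
  rw [hcard, hD] at h3
  exact h3

end Pool.Agent.Work.MP_499dc6_lc.SN
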