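import Mathlib

/-!
Definitions for THEOREM SN (circuits of bounded Strahler number for the permanent).
-/

open MvPolynomial

namespace Pool.Agent.Work.MP_499dc6_lc.SN

/-- Gates in topological order: gate `j` uses only gates `i < j`. -/
def Acyc {O V : Type} [CommRing O] {S : ℕ} (Q : Fin S → MvPolynomial (V ⊕ Fin S) O) : Prop :=
  ∀ j, ∀ μ ∈ (Q j).support, ∀ i : Fin S, μ (Sum.inr i) ≠ 0 → i < j

/-- Evaluation of a gate polynomial at `x` (variables) and `v` (gates). -/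
noncomputable def ev {O V T : Type} [CommRing O] [CommRing T] [Algebra O T] {S : ℕ}
    (x : V → T) (v : Fin S → T) : MvPolynomial (V ⊕ Fin S) O →ₐ[O] T :=
  aeval (Sum.elim x v)

/-- The levels of a circuit of Strahler number at most `t` (structure of the gate polynomials). -/
def Lev {O V : Type} [CommRing O] {S : ℕ} (t : ℕ) (lev : Fin S → ℕ)
    (Q : Fin S → MvPolynomial (V ⊕ Fin S) O) : Prop :=
  ∀ j, 1 ≤ lev j ∧ lev j ≤ t ∧ (Q j).totalDegree ≤ 2 ∧
    ∀ μ ∈ (Q j).support, (∀ i, μ (Sum.inr i) ≠ 0 → i < j ∧ lev i ≤ lev j) ∧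
      ∑ i with lev i = lev j, μ (Sum.inr i) ≤ 1

/-- Variables of the big polynomial ring: coordinates of the section, gates, adjoint gates. -/
abbrev Var (Ξ : Type) (S : ℕ) := Ξ ⊕ (Fin S ⊕ Fin S)

section
variable {O V Ξ : Type} [CommRing O] [Fintype Ξ] {S : ℕ}

/-- The affine point of the section. -/
noncomputable def ptx (x0 : V → O) (x1 : V → Ξ → O) (v : V) : MvPolynomial (Var Ξ S) O :=
  C (x0 v) + ∑ i, C (x1 v i) * X (Sum.inl i)

/-- Substitution of the point and of the gate variables. -/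
noncomputable def sb (x0 : V → O) (x1 : V → Ξ → O) :
    MvPolynomial (V ⊕ Fin S) O →ₐ[O] MvPolynomial (Var Ξ S) O :=
  ev (ptx x0 x1) (fun j => X (Sum.inr (Sum.inl j)))

/-- The equation of gate `j`. -/
noncomputable def Hp (x0 : V → O) (x1 : V → Ξ → O) (Q : Fin S → MvPolynomial (V ⊕ Fin S) O)
    (j : Fin S) : MvPolynomial (Var Ξ S) O :=
  X (Sum.inr (Sum.inl j)) - sb x0 x1 (Q j)

/-- The equation of the adjoint of gate `j` (`s` is the output gate). -/
noncomputable def Ha (x0 : V → O) (x1 : V → Ξ → O) (Q : Fin S → MvPolynomial (V ⊕ Fin S) O)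
    (s j : Fin S) : MvPolynomial (Var Ξ S) O :=
  X (Sum.inr (Sum.inr j)) - C (if j = s then 1 else 0) -
    ∑ l, X (Sum.inr (Sum.inr l)) * sb x0 x1 (pderiv (Sum.inr j) (Q l))

/-- The derivative of the output in the direction `u`, in terms of the adjoint gates. -/
noncomputable def Gp (x0 : V → O) (x1 : V → Ξ → O) (Q : Fin S → MvPolynomial (V ⊕ Fin S) O)
    (u : V) : MvPolynomial (Var Ξ S) O :=
  ∑ l, X (Sum.inr (Sum.inr l)) * sb x0 x1 (pderiv (Sum.inl u) (Q l))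

/-- The family of products. -/
noncomputable def fam {I : Type} [Fintype I] (x0 : V → O) (x1 : V → Ξ → O)
    (Q : Fin S → MvPolynomial (V ⊕ Fin S) O) (s : Fin S) (dir : I → V) (α : Ξ →₀ ℕ)
    (β : I →₀ ℕ) (γ γ' : Fin S →₀ ℕ) : MvPolynomial (Var Ξ S) O :=
  (∏ i, X (Sum.inl i) ^ α i) * (∏ i, Gp x0 x1 Q (dir i) ^ β i) *
    ((∏ j, Hp x0 x1 Q j ^ γ j) * ∏ j, Ha x0 x1 Q s j ^ γ' j)

end

/-- All monomials of `p` have weighted degree at most `n`. -/
def WD {O σ : Type} [CommRing O] [Fintype σ] (w : σ → ℕ) (n : ℕ) (p : MvPolynomial σ O) : Prop :=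
  ∀ μ ∈ p.support, ∑ i, w i * μ i ≤ n

/-- The weights: `1` for the section, `a` for the gates, `a'` for the adjoint gates. -/
def wv {Ξ : Type} {S : ℕ} (a a' : Fin S → ℕ) : Var Ξ S → ℕ :=
  Sum.elim (fun _ => 1) (Sum.elim a a')

/-- The weight of an exponent of a gate polynomial: `1` for the variables, `a` for the gates. -/
def wq {V : Type} [Fintype V] {S : ℕ} (a : Fin S → ℕ) (μ : V ⊕ Fin S →₀ ℕ) : ℕ :=
  ∑ v, μ (Sum.inl v) + ∑ i, a i * μ (Sum.inr i)

/-- The weight conditions: bounds `h`, `h'`, `g` for the weighted degrees of the gate equations,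
of the adjoint equations and of the derivatives. -/
def Wt {O V : Type} [CommRing O] [Fintype V] {S : ℕ} (Q : Fin S → MvPolynomial (V ⊕ Fin S) O)
    (a a' h h' : Fin S → ℕ) (g : ℕ) : Prop :=
  (∀ j, 1 ≤ a j ∧ 1 ≤ a' j ∧ a j ≤ h j ∧ a' j ≤ h' j) ∧ 1 ≤ g ∧
  (∀ j, ∀ μ ∈ (Q j).support, wq a μ ≤ h j) ∧
  (∀ l j, ∀ μ ∈ (pderiv (Sum.inr j) (Q l)).support, a' l + wq a μ ≤ h' j) ∧
  (∀ l u, ∀ μ ∈ (pderiv (Sum.inl u) (Q l)).support, a' l + wq a μ ≤ g)

/-! ## Levels: number of gates, factors, weights -/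

section levels
variable {S : ℕ} (lev : Fin S → ℕ) (k : ℕ)

/-- The number of gates of level `σ`. -/
def nn (σ : ℕ) : ℕ := (Finset.univ.filter fun j => lev j = σ).card

/-- The factor of level `σ`. -/
def zz (σ : ℕ) : ℕ := nn lev σ / k + 1

/-- The weight of the gates of level `σ`. -/
def ss (σ : ℕ) : ℕ := ∏ ρ ∈ Finset.range σ, zz lev k (ρ + 1)

end levels

/-- The weight of the gates. -/
def wa {S : ℕ} (s : ℕ → ℕ) (lev : Fin S → ℕ) (j : Fin S) : ℕ := s (lev j)

/-- The weight of the adjoint gates. -/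
def wa' {S : ℕ} (s : ℕ → ℕ) (u t : ℕ) (lev : Fin S → ℕ) (j : Fin S) : ℕ :=
  u + if lev j < t then s t else 0

/-- The bound for the gate equations. -/
def wh {S : ℕ} (s : ℕ → ℕ) (lev : Fin S → ℕ) (j : Fin S) : ℕ := s (lev j - 1) + s (lev j)

/-- The bound for the adjoint equations. -/
def wh' {S : ℕ} (s : ℕ → ℕ) (u t : ℕ) (lev : Fin S → ℕ) (j : Fin S) : ℕ :=
  wa' s u t lev j + s (t - 1)

end Pool.Agent.Work.MP_499dc6_lc.SN
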