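import Mathlib
import Pool.Agent.Work.MP_499dc6_lc.SN.Stmts

/-!
THEOREM SN, item CR: the chain rule.
-/

open MvPolynomial

namespace Pool.Agent.Work.MP_499dc6_lc.SN

theorem CR_evl {O V : Type} [CommRing O] {S : ℕ} (f : Fin S → MvPolynomial V O) (w : V) :
    ev X f (X (Sum.inl w) : MvPolynomial (V ⊕ Fin S) O) = X w := by
  unfold ev
  rw [aeval_X]
  rfl

theorem CR_evr {O V : Type} [CommRing O] {S : ℕ} (f : Fin S → MvPolynomial V O) (i : Fin S) :
    ev X f (X (Sum.inr i) : MvPolynomial (V ⊕ Fin S) O) = f i := by
  unfold ev
  rw [aeval_X]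
  rfl

theorem sn_CR : StCR := by
  intro O V _ S f q u
  classical
  induction q using MvPolynomial.induction_on with
  | C a =>
    have h : ev X f (C a : MvPolynomial (V ⊕ Fin S) O) = C a := by
      unfold ev
      rw [aeval_C]
      rfl
    rw [h]
    simp only [pderiv_C, map_zero, zero_mul, Finset.sum_const_zero, add_zero]
  | add p q hp hq =>
    simp only [map_add, hp, hq, add_mul, Finset.sum_add_distrib]
    ring
  | mul_X p v hp =>
    rw [map_mul, Derivation.leibniz, hp]
    rcases v with w | i
    · have h2 : ∀ j : Fin S, pderiv (Sum.inr j) (X (Sum.inl w) : MvPolynomial (V ⊕ Fin S) O) = 0 :=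
        fun j => pderiv_X_of_ne (by simp)
      have h1 : ev X f (pderiv (Sum.inl u) (X (Sum.inl w) : MvPolynomial (V ⊕ Fin S) O)) =
          pderiv u (X w) := by
        by_cases h : w = u
        · subst h
          rw [pderiv_X_self, pderiv_X_self, map_one]
        · rw [pderiv_X_of_ne h, pderiv_X_of_ne (by simpa using h), map_zero]
      simp only [Derivation.leibniz, h2, smul_eq_mul, mul_zero, zero_add, map_add, map_mul, h1,
        CR_evl, mul_add, Finset.mul_sum]
      rw [add_assoc]
      congr 2
      exact Finset.sum_congr rfl fun j _ => by ring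
    · have h1 : pderiv (Sum.inl u) (X (Sum.inr i) : MvPolynomial (V ⊕ Fin S) O) = 0 :=
        pderiv_X_of_ne (by simp)
      have h2 : ∀ j : Fin S, ev X f (pderiv (Sum.inr j) (X (Sum.inr i) :
          MvPolynomial (V ⊕ Fin S) O)) = if j = i then 1 else 0 := by
        intro j
        by_cases h : j = i
        · subst h
          rw [pderiv_X_self, map_one, if_pos rfl]
        · rw [pderiv_X_of_ne (by simpa using fun h' => h h'.symm), map_zero, if_neg h]
      simp only [Derivation.leibniz, h1, smul_eq_mul, mul_zero, zero_add, map_add, map_mul, h2,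
        CR_evr, mul_add, add_mul, Finset.sum_add_distrib]
      have h3 : ∑ j, ev X f p * (if j = i then 1 else 0) * pderiv u (f j) =
          ev X f p * pderiv u (f i) := by
        rw [Finset.sum_eq_single i]
        · rw [if_pos rfl, mul_one]
        · intro j _ hj
          rw [if_neg hj, mul_zero, zero_mul]
        · intro h
          exact absurd (Finset.mem_univ _) h
      rw [h3, Finset.mul_sum]
      have h4 : ∑ j, f i * (ev X f (pderiv (Sum.inr j) p) * pderiv u (f j)) =
          ∑ j, f i * ev X f (pderiv (Sum.inr j) p) * pderiv u (f j) :=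
        Finset.sum_congr rfl fun j _ => by ring
      rw [h4]
      ring

end Pool.Agent.Work.MP_499dc6_lc.SN
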