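import Pool.Agent.Work.MP_499dc6_lc.SN.Stmts

/-!
THEOREM SN, item L3: the weight conditions of a circuit with levels.
-/

set_option autoImplicit false

open MvPolynomial

namespace Pool.Agent.Work.MP_499dc6_lc.SN

theorem L3_deg {O V : Type} [CommRing O] [Fintype V] {S : ℕ}
    (q : MvPolynomial (V ⊕ Fin S) O) (μ : V ⊕ Fin S →₀ ℕ) (hμ : μ ∈ q.support) :
    ∑ v, μ (Sum.inl v) + ∑ i, μ (Sum.inr i) ≤ q.totalDegree := by
  have h := le_totalDegree hμ
  rw [Finsupp.sum_fintype μ (fun _ e => e) (fun _ => rfl), Fintype.sum_sum_type] at h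
  exact h

theorem L3_inr {V : Type} [Fintype V] {S : ℕ} (μ : V ⊕ Fin S →₀ ℕ) (j i : Fin S) :
    (μ + Finsupp.single (Sum.inr j) 1 : V ⊕ Fin S →₀ ℕ) (Sum.inr i) =
      μ (Sum.inr i) + if j = i then 1 else 0 := by
  classical
  rw [Finsupp.add_apply, Finsupp.single_apply]
  simp only [Sum.inr.injEq]

theorem L3_inrl {V : Type} [Fintype V] {S : ℕ} (μ : V ⊕ Fin S →₀ ℕ) (j : Fin S) (v : V) :
    (μ + Finsupp.single (Sum.inr j) 1 : V ⊕ Fin S →₀ ℕ) (Sum.inl v) = μ (Sum.inl v) := by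
  classical
  rw [Finsupp.add_apply, Finsupp.single_apply, if_neg (by simp), add_zero]

theorem L3_inl {V : Type} [Fintype V] {S : ℕ} (μ : V ⊕ Fin S →₀ ℕ) (v : V) (i : Fin S) :
    (μ + Finsupp.single (Sum.inl v) 1 : V ⊕ Fin S →₀ ℕ) (Sum.inr i) = μ (Sum.inr i) := by
  classical
  rw [Finsupp.add_apply, Finsupp.single_apply, if_neg (by simp), add_zero]

/-- the total degree of the sum with a unit vector -/
theorem L3_tot {V : Type} [Fintype V] {S : ℕ} (μ : V ⊕ Fin S →₀ ℕ) (x : V ⊕ Fin S) :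
    ∑ v, (μ + Finsupp.single x 1 : V ⊕ Fin S →₀ ℕ) (Sum.inl v) +
      ∑ i, (μ + Finsupp.single x 1 : V ⊕ Fin S →₀ ℕ) (Sum.inr i) =
      (∑ v, μ (Sum.inl v) + ∑ i, μ (Sum.inr i)) + 1 := by
  classical
  have h1 : ∀ ν : V ⊕ Fin S →₀ ℕ, ∑ v, ν (Sum.inl v) + ∑ i, ν (Sum.inr i) = ∑ y, ν y :=
    fun ν => (Fintype.sum_sum_type _).symm
  rw [h1, h1]
  have h2 : ∑ y, (μ + Finsupp.single x 1 : V ⊕ Fin S →₀ ℕ) y = ∑ y, (μ y + if x = y then 1 else 0) :=
    Finset.sum_congr rfl fun y _ => by rw [Finsupp.add_apply, Finsupp.single_apply]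
  rw [h2, Finset.sum_add_distrib, Finset.sum_ite_eq Finset.univ x, if_pos (Finset.mem_univ _)]

theorem sn_L3 (hL1 : StL1) (hL2 : StL2) : StL3 := by
  classical
  intro O V _ _ S t lev Q s u ht hLev hs hs0 hu
  have hs1 : ∀ n, 1 ≤ s n := fun n => hs0.trans (hs (Nat.zero_le n))
  refine ⟨fun j => ⟨hs1 _, ?_, ?_, ?_⟩, by omega, fun j μ hμ => ?_, fun l j μ hμ => ?_,
    fun l v μ hμ => ?_⟩
  · unfold wa'
    omega
  · unfold wa wh
    omega
  · unfold wh'
    omega
  · obtain ⟨h1, -, h3, h4⟩ := hLev j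
    obtain ⟨h5, h6⟩ := h4 μ hμ
    exact (hL1 V S lev s hs hs0 (lev j) μ h1 (fun i hi => (h5 i hi).2) h6).1
      ((L3_deg (Q j) μ hμ).trans h3)
  · obtain ⟨h1, h2, h3, h4⟩ := hLev l
    have hν := hL2 O (V ⊕ Fin S) (Sum.inr j) (Q l) μ hμ
    obtain ⟨h5, h6⟩ := h4 _ hν
    have h7 := (L3_deg (Q l) _ hν).trans h3
    rw [L3_tot] at h7
    have h8 : ∑ v, μ (Sum.inl v) + ∑ i, μ (Sum.inr i) ≤ 1 := by omega
    have hlev : ∀ i, μ (Sum.inr i) ≠ 0 → lev i ≤ lev l := fun i hi => by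
      refine (h5 i ?_).2
      rw [L3_inr]
      omega
    have hjl : lev j ≤ lev l := by
      refine (h5 j ?_).2
      rw [L3_inr, if_pos rfl]
      omega
    have hsum : ∑ i with lev i = lev l, μ (Sum.inr i) + (if lev j = lev l then 1 else 0) ≤ 1 := by
      refine le_trans (le_of_eq ?_) h6
      have e1 : ∑ i with lev i = lev l, (μ + Finsupp.single (Sum.inr j) 1 : V ⊕ Fin S →₀ ℕ)
          (Sum.inr i) = ∑ i with lev i = lev l, (μ (Sum.inr i) + if j = i then 1 else 0) :=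
        Finset.sum_congr rfl fun i _ => L3_inr μ j i
      rw [e1, Finset.sum_add_distrib, Finset.sum_ite_eq]
      simp only [Finset.mem_filter, Finset.mem_univ, true_and]
    have hL := hL1 V S lev s hs hs0 (lev l) μ h1 hlev (by omega)
    have hmono1 : s (lev l - 1) ≤ s (t - 1) := hs (by omega)
    have hwq : wq (wa s lev) μ = wq (fun i => s (lev i)) μ := rfl
    rw [hwq]
    rcases Nat.lt_or_ge (lev j) (lev l) with hlt | hge
    · have hL' := hL.2.1 h8
      unfold wh' wa'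
      rw [if_pos (show lev j < t by omega)]
      by_cases hlt' : lev l < t
      · rw [if_pos hlt']
        have := hs (show lev l ≤ t - 1 by omega)
        omega
      · rw [if_neg hlt']
        have hle : lev l = t := by omega
        rw [hle] at hL'
        omega
    · have hje : lev j = lev l := by omega
      rw [if_pos hje] at hsum
      have hL' := hL.2.2 h8 (by omega)
      unfold wh' wa'
      rw [hje]
      omega
  · obtain ⟨h1, h2, h3, h4⟩ := hLev l
    have hν := hL2 O (V ⊕ Fin S) (Sum.inl v) (Q l) μ hμ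
    obtain ⟨h5, h6⟩ := h4 _ hν
    have h7 := (L3_deg (Q l) _ hν).trans h3
    rw [L3_tot] at h7
    have h8 : ∑ v, μ (Sum.inl v) + ∑ i, μ (Sum.inr i) ≤ 1 := by omega
    have hlev : ∀ i, μ (Sum.inr i) ≠ 0 → lev i ≤ lev l := fun i hi => by
      refine (h5 i ?_).2
      rw [L3_inl]
      exact hi
    have hsum : ∑ i with lev i = lev l, μ (Sum.inr i) ≤ 1 := by
      refine le_trans (le_of_eq ?_) h6
      exact Finset.sum_congr rfl fun i _ => (L3_inl μ v i).symm
    have hL' := (hL1 V S lev s hs hs0 (lev l) μ h1 hlev hsum).2.1 h8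
    have hwq : wq (wa s lev) μ = wq (fun i => s (lev i)) μ := rfl
    rw [hwq]
    unfold wa'
    by_cases hlt' : lev l < t
    · rw [if_pos hlt']
      have := hs (show lev l ≤ t - 1 by omega)
      omega
    · rw [if_neg hlt']
      have hle : lev l = t := by omega
      rw [hle] at hL'
      omega

end Pool.Agent.Work.MP_499dc6_lc.SN
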