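import Pool.Agent.Work.MP_499dc6_lc.SN.Stmts

/-!
# Block SN, item N4: the top level (helper34)
-/

set_option autoImplicit false

namespace Pool.Agent.Work.MP_499dc6_lc.SN

/-- item N4 -/
theorem sn_N4 : StN4 := by
  intro n k hk
  set z : ℕ := n / k + 1 with hz
  have hz0 : (0 : ℝ) < (z : ℝ) := by
    rw [hz]
    exact_mod_cast Nat.succ_pos _
  have h1 : n ≤ z * k := by
    have h := Nat.lt_div_mul_add (a := n) (b := k) (by omega)
    rw [hz, add_mul, one_mul]
    omega
  have h2 : (n : ℝ) ≤ (z : ℝ) * (k : ℝ) := by exact_mod_cast h1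
  have h3 : 1 + 1 / (z : ℝ) ≤ Real.exp (1 / (z : ℝ)) := by
    have h := Real.add_one_le_exp (1 / (z : ℝ))
    linarith
  calc (1 + 1 / (z : ℝ)) ^ n ≤ Real.exp (1 / (z : ℝ)) ^ n :=
        pow_le_pow_left₀ (by positivity) h3 n
    _ = Real.exp ((n : ℝ) * (1 / (z : ℝ))) := (Real.exp_nat_mul _ _).symm
    _ ≤ Real.exp k := by
        refine Real.exp_le_exp.2 ?_
        rw [mul_one_div, div_le_iff₀ hz0]
        linarith

end Pool.Agent.Work.MP_499dc6_lc.SN
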